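import Pool.Agent.IM66.Defs

/-!
# The pointwise inequality
-/

set_option autoImplicit false

namespace IM66

/-- nonnegativity of the test function -/
theorem Z_nonneg {c a g K : ℝ} (hc : 1 < c) (ha1 : 1 ≤ a) (hac : a ≤ c) (hK0 : 0 ≤ K)
    (hK : K * c ^ 3 ≤ 1) (hg1 : 1 - K * c ^ 3 ≤ 3 * c ^ 3 * g)
    (hg2 : 3 * c * ((c ^ 2 - 1) * g) ≤ 1 - K * c ^ 3) : 0 ≤ fA K c g + fm K c g * a := by
  have hc0 : 0 < c := by linarith
  have hs : 0 < c ^ 2 - 1 := by nlinarith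
  have hac' : 0 < 3 * c - a := by linarith
  have e : fA K c g + fm K c g * a =
      ((3 * c ^ 3 * g - (1 - K * c ^ 3)) * ((3 * c - a) * (c ^ 2 - 1)) +
        (1 - K * c ^ 3) * ((3 * c - a) * (c ^ 2 - 1) - 3 * c ^ 2 * (c - a))) /
        (6 * c ^ 3 * (c ^ 2 - 1)) := by
    unfold fA fm lam
    field_simp
    ring
  rw [e]
  apply div_nonneg _ (by positivity)
  have h1 : 0 ≤ (3 * c ^ 3 * g - (1 - K * c ^ 3)) * ((3 * c - a) * (c ^ 2 - 1)) :=
    mul_nonneg (by linarith) (mul_nonneg hac'.le hs.le)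
  have h2 : 0 ≤ (3 * c - a) * (c ^ 2 - 1) - 3 * c ^ 2 * (c - a) := by
    have : (3 * c - a) * (c ^ 2 - 1) - 3 * c ^ 2 * (c - a) =
        (a - 1) * (2 * c ^ 2 + 1) + (2 * c - 1) * (c - 1) := by ring
    rw [this]
    exact add_nonneg (mul_nonneg (by linarith) (by positivity))
      (mul_nonneg (by linarith) (by linarith))
  have h3 := mul_nonneg (show 0 ≤ 1 - K * c ^ 3 by linarith) h2
  linarith

/-- the identity behind `F_nonneg` -/
theorem F_eq {c a g K P w : ℝ} (hc : 1 < c) :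
    fA2 K c g + fm2 K c * a + 2 * fm1 K c * w + 2 * P * fm K c g * a
      - (3 * (c ^ 2 - 1) - P) * (fA K c g + fm K c g * a) =
    (1 - K * c) * ((P - 2 * w + a ^ 2 - 1 - (c - a) ^ 2) / (c ^ 2 - 1)) - K * (c - a)
      + (c ^ 2 - 1 - P) * (K * c) +
      (3 / 2) * ((c ^ 2 - 1 - P) / (c ^ 2 - 1)) * (c - a) *
        (1 / c - K * c ^ 2 - (c ^ 2 - 1) * g) := by
  have hc0 : c ≠ 0 := by linarith
  have hs : c ^ 2 - 1 ≠ 0 := by nlinarith
  unfold fA2 fm2 fm1 fA fm lam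
  field_simp
  ring

/-- `Δ Z - (3 - β^2) s^2 Z ≥ 0` -/
theorem F_nonneg {c a g K S P w : ℝ} (hc : 1 < c) (ha1 : 1 ≤ a) (hac : a ≤ c) (hK0 : 0 ≤ K)
    (hK : K * c ^ 3 ≤ 1) (hg2 : 3 * c * ((c ^ 2 - 1) * g) ≤ 1 - K * c ^ 3)
    (hS0 : 0 ≤ S) (hS : S ^ 2 = a ^ 2 - 1) (hP0 : 0 ≤ P) (hP : P ≤ c ^ 2 - 1)
    (hBC : 2 * (c - a) * (a - S) ≤ c ^ 2 - 1 - P) (hw : w ^ 2 ≤ P * S ^ 2) :
    0 ≤ fA2 K c g + fm2 K c * a + 2 * fm1 K c * w + 2 * P * fm K c g * a
      - (3 * (c ^ 2 - 1) - P) * (fA K c g + fm K c g * a) := by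
  rw [F_eq hc]
  have hc0 : 0 < c := by linarith
  have ha0 : 0 < a := by linarith
  have hs : 0 < c ^ 2 - 1 := by nlinarith
  have hU : 0 ≤ c - a := by linarith
  obtain ⟨q, hq0, hq⟩ : ∃ q : ℝ, 0 ≤ q ∧ q ^ 2 = P := ⟨Real.sqrt P, Real.sqrt_nonneg _,
    Real.sq_sqrt hP0⟩
  -- `w ≤ q S`
  have hwq : w ≤ q * S := by
    refine (abs_le_of_sq_le_sq' ?_ (mul_nonneg hq0 hS0)).2
    rw [mul_pow, hq]; exact hw
  -- the value at `τ = 0`
  have hF0 : 0 ≤ (P - 2 * w + a ^ 2 - 1 - (c - a) ^ 2) + (c ^ 2 - 1 - P) * (c - a) / c := by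
    have h1 : (P - 2 * (q * S) + a ^ 2 - 1 - (c - a) ^ 2) + (c ^ 2 - 1 - P) * (c - a) / c =
        (a / c) * (q - (c / a) * S) ^ 2 + (c - a) ^ 2 / (a * c) := by
      have e1 : (q - (c / a) * S) ^ 2 = P - 2 * (c / a) * (q * S) + (c / a) ^ 2 * (a ^ 2 - 1) := by
        rw [← hS, ← hq]; ring
      rw [e1]
      field_simp
      ring
    have h2 : 0 ≤ (a / c) * (q - (c / a) * S) ^ 2 + (c - a) ^ 2 / (a * c) := by positivity
    rw [← h1] at h2
    linarith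
  -- the value at `τ = 1`
  have haS : 1 ≤ 2 * a * (a - S) := by
    have h1 : (a - S) * (a + S) = 1 := by
      have : (a - S) * (a + S) = a ^ 2 - S ^ 2 := by ring
      rw [this, hS]; ring
    have h2 : 0 ≤ a - S := by
      by_contra h
      push Not at h
      have := mul_neg_of_neg_of_pos h (show 0 < a + S by linarith)
      linarith
    nlinarith [mul_nonneg h2 h2]
  have hF1 : 0 ≤ 2 * (a * c - 1 - w) - (c - a) / c := by
    have h0 : 0 ≤ 2 * (a * c - 1) - (c - a) / c := by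
      have h1 : (c - a) / c ≤ c - 1 := by
        rw [div_le_iff₀ hc0]
        nlinarith
      nlinarith
    have h1 : 2 * w ≤ 2 * (a * c - 1) - (c - a) / c := by
      refine (abs_le_of_sq_le_sq' ?_ h0).2
      have h2 : (2 * w) ^ 2 ≤ 4 * (a ^ 2 - 1) * (c ^ 2 - 1 - 2 * (c - a) * (a - S)) := by
        have ha2 : 0 ≤ a ^ 2 - 1 := by nlinarith
        have h3 : P * S ^ 2 ≤ (c ^ 2 - 1 - 2 * (c - a) * (a - S)) * (a ^ 2 - 1) := by
          rw [hS]
          exact mul_le_mul_of_nonneg_right (by linarith) ha2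
        nlinarith
      refine h2.trans ?_
      have key : (2 * (a * c - 1) - (c - a) / c) ^ 2 -
          4 * (a ^ 2 - 1) * (c ^ 2 - 1 - 2 * (c - a) * (a - S)) =
          (c - a) * (4 * (c - a) + (c - a) / c ^ 2 - 4 * a + 4 / c +
            8 * (a ^ 2 - 1) * (a - S)) := by
        field_simp
        ring
      have hbr : 0 ≤ 4 * (c - a) + (c - a) / c ^ 2 - 4 * a + 4 / c +
            8 * (a ^ 2 - 1) * (a - S) := by
        have ha2 : 0 ≤ a ^ 2 - 1 := by nlinarith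
        have h5 : 4 * (a ^ 2 - 1) / a ≤ 8 * (a ^ 2 - 1) * (a - S) := by
          rw [div_le_iff₀ ha0]
          have := mul_le_mul_of_nonneg_left haS (show 0 ≤ 4 * (a ^ 2 - 1) by linarith)
          linarith
        have h6 : 4 * (c - a) + (c - a) / c ^ 2 - 4 * a + 4 / c + 4 * (a ^ 2 - 1) / a =
            (c - a) * ((a - 1) * (4 * c ^ 2 + 1) + (2 * c - 1) ^ 2) / (a * c ^ 2) := by
          field_simp
          ring
        have h7 : 0 ≤ (c - a) * ((a - 1) * (4 * c ^ 2 + 1) + (2 * c - 1) ^ 2) / (a * c ^ 2) := by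
          apply div_nonneg _ (by positivity)
          exact mul_nonneg hU (add_nonneg (mul_nonneg (by linarith) (by positivity))
            (sq_nonneg _))
        rw [← h6] at h7
        linarith
      have := mul_nonneg hU hbr
      linarith
    linarith
  -- assembly
  have hg3 : (2 / (3 * c)) * (1 - K * c ^ 3) ≤ 1 / c - K * c ^ 2 - (c ^ 2 - 1) * g := by
    have h1 : (c ^ 2 - 1) * g ≤ (1 - K * c ^ 3) / (3 * c) := by
      rw [le_div_iff₀ (by positivity)]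
      linarith
    have h2 : 1 / c - K * c ^ 2 - (1 - K * c ^ 3) / (3 * c) = (2 / (3 * c)) * (1 - K * c ^ 3) := by
      field_simp
      ring
    linarith
  have hcoef : 0 ≤ (3 / 2) * ((c ^ 2 - 1 - P) / (c ^ 2 - 1)) * (c - a) :=
    mul_nonneg (mul_nonneg (by norm_num) (div_nonneg (by linarith) hs.le)) hU
  have h3 := mul_le_mul_of_nonneg_left hg3 hcoef
  have e : (1 - K * c) * ((P - 2 * w + a ^ 2 - 1 - (c - a) ^ 2) / (c ^ 2 - 1)) - K * (c - a)
      + (c ^ 2 - 1 - P) * (K * c) +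
      (3 / 2) * ((c ^ 2 - 1 - P) / (c ^ 2 - 1)) * (c - a) *
        ((2 / (3 * c)) * (1 - K * c ^ 3)) =
      (1 - K * c ^ 3) * (((P - 2 * w + a ^ 2 - 1 - (c - a) ^ 2) +
        (c ^ 2 - 1 - P) * (c - a) / c) / (c ^ 2 - 1)) +
      K * c * (2 * (a * c - 1 - w) - (c - a) / c) := by
    field_simp
    ring
  have h4 : 0 ≤ (1 - K * c ^ 3) * (((P - 2 * w + a ^ 2 - 1 - (c - a) ^ 2) +
        (c ^ 2 - 1 - P) * (c - a) / c) / (c ^ 2 - 1)) +
      K * c * (2 * (a * c - 1 - w) - (c - a) / c) :=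
    add_nonneg (mul_nonneg (by linarith) (div_nonneg hF0 hs.le))
      (mul_nonneg (mul_nonneg hK0 hc0.le) hF1)
  rw [← e] at h4
  linarith

end IM66
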