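import Mathlib

/-!
# Coefficients are bounded by the integral mean of the derivative
-/

set_option autoImplicit false

namespace IM66

open Complex Metric Set MeasureTheory
open scoped Nat

/-- Cauchy's estimate in the mean -/
theorem cauchy_mean {f : ℂ → ℂ} (df : DifferentiableOn ℂ f (ball 0 1)) (m : ℕ)
    {r : ℝ} (hr0 : 0 < r) (hr1 : r < 1) :
    ‖iteratedDeriv m f 0‖ / (m ! : ℝ) * r ^ m ≤
      (2 * Real.pi)⁻¹ * ∫ θ in (0:ℝ)..2 * Real.pi, ‖f (circleMap 0 r θ)‖ := by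
  have hcb : closedBall (0:ℂ) r ⊆ ball (0:ℂ) 1 := closedBall_subset_ball hr1
  have hsub : DifferentiableOn ℂ f (closedBall 0 r) := df.mono hcb
  have h1 := DifferentiableOn.circleIntegral_one_div_sub_center_pow_smul hr0 m hsub
  rw [circleIntegral] at h1
  simp only [deriv_circleMap, smul_eq_mul] at h1
  have hr' : (r : ℂ) ≠ 0 := by exact_mod_cast hr0.ne'
  have hpt : ∀ θ : ℝ, ‖circleMap 0 r θ * I *
      (1 / (circleMap 0 r θ - 0) ^ (m + 1) * f (circleMap 0 r θ))‖ =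
      (r ^ m)⁻¹ * ‖f (circleMap 0 r θ)‖ := by
    intro θ
    rw [norm_mul, norm_mul, norm_mul, norm_div, norm_pow, sub_zero, norm_circleMap_zero,
      Complex.norm_I, norm_one, abs_of_pos hr0, pow_succ]
    field_simp
  have h2 : ‖∫ θ in (0:ℝ)..2 * Real.pi, circleMap 0 r θ * I *
      (1 / (circleMap 0 r θ - 0) ^ (m + 1) * f (circleMap 0 r θ))‖ ≤
      (r ^ m)⁻¹ * ∫ θ in (0:ℝ)..2 * Real.pi, ‖f (circleMap 0 r θ)‖ := by
    refine (intervalIntegral.norm_integral_le_integral_norm Real.two_pi_pos.le).trans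
      (le_of_eq ?_)
    rw [← intervalIntegral.integral_const_mul]
    congr 1
    ext θ
    exact hpt θ
  rw [h1] at h2
  have h3 : ‖(2 * (Real.pi : ℂ) * I / (m ! : ℂ)) * iteratedDeriv m f 0‖ =
      2 * Real.pi / (m ! : ℝ) * ‖iteratedDeriv m f 0‖ := by
    rw [norm_mul, norm_div, norm_mul, norm_mul, Complex.norm_I, Complex.norm_real,
      Real.norm_of_nonneg Real.pi_pos.le, Complex.norm_natCast, Complex.norm_ofNat, mul_one]
  rw [h3] at h2
  have hfp : (0:ℝ) < (m ! : ℝ) := by exact_mod_cast m.factorial_pos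
  have hrm : 0 < r ^ m := pow_pos hr0 m
  have hpi := Real.pi_pos
  have h4 := mul_le_mul_of_nonneg_left h2 (by positivity : 0 ≤ r ^ m * (2 * Real.pi)⁻¹)
  refine le_trans (le_of_eq ?_) (h4.trans (le_of_eq ?_))
  · field_simp
  · field_simp

/-- coefficients against the mean of the derivative -/
theorem coef {L : ℂ → ℂ} (dL : DifferentiableOn ℂ L (ball 0 1)) {n : ℕ} (hn : 1 ≤ n)
    {r : ℝ} (hr0 : 0 < r) (hr1 : r < 1) :
    (n:ℝ) * ‖iteratedDeriv n L 0 / (n ! : ℂ)‖ * r ^ (n - 1) ≤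
      (2 * Real.pi)⁻¹ * ∫ θ in (0:ℝ)..2 * Real.pi, ‖deriv L (circleMap 0 r θ)‖ := by
  obtain ⟨m, rfl⟩ : ∃ m, n = m + 1 := ⟨n - 1, by omega⟩
  have h := cauchy_mean (dL.deriv isOpen_ball) m hr0 hr1
  rw [← iteratedDeriv_succ'] at h
  refine le_trans (le_of_eq ?_) h
  rw [norm_div, Complex.norm_natCast, Nat.add_sub_cancel, Nat.factorial_succ]
  push_cast
  have hfp : (0:ℝ) < (m ! : ℝ) := by exact_mod_cast m.factorial_pos
  field_simp

end IM66
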