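import Mathlib

set_option autoImplicit false

namespace IM66

open Complex Metric Set MeasureTheory Filter Topology ComplexConjugate Nat

/-- Cauchy estimate for the coefficients in terms of the mean of `‖L'‖` -/
theorem coef66 {L : ℂ → ℂ} (dL : DifferentiableOn ℂ L (ball 0 1)) {n : ℕ} (hn : 1 ≤ n)
    {r : ℝ} (hr0 : 0 < r) (hr1 : r < 1) :
    (n : ℝ) * ‖iteratedDeriv n L 0 / (n ! : ℂ)‖ * r ^ (n - 1) ≤
      (2 * Real.pi)⁻¹ * ∫ θ in (0:ℝ)..2 * Real.pi, ‖deriv L (circleMap 0 r θ)‖ := by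
  obtain ⟨m, rfl⟩ : ∃ m, n = m + 1 := ⟨n - 1, by omega⟩
  have dF : DifferentiableOn ℂ (deriv L) (ball 0 1) := dL.deriv isOpen_ball
  have hsub : DifferentiableOn ℂ (deriv L) (closedBall 0 r) :=
    dF.mono (closedBall_subset_ball hr1)
  have h1 := DifferentiableOn.circleIntegral_one_div_sub_center_pow_smul hr0 m hsub
  have h2 : ‖∮ z in C(0, r), (1 / (z - 0) ^ (m + 1)) • deriv L z‖ ≤
      ∫ θ in (0:ℝ)..2 * Real.pi, (r ^ m)⁻¹ * ‖deriv L (circleMap 0 r θ)‖ := by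
    rw [circleIntegral]
    refine (intervalIntegral.norm_integral_le_integral_norm Real.two_pi_pos.le).trans
      (le_of_eq ?_)
    congr 1
    ext θ
    rw [deriv_circleMap, norm_smul, norm_smul, norm_mul, norm_div, norm_pow, sub_zero,
      norm_circleMap_zero, Complex.norm_I, abs_of_pos hr0, norm_one]
    field_simp
    ring
  rw [h1, intervalIntegral.integral_const_mul] at h2
  have hfac : ((m !: ℕ) : ℝ) ≠ 0 := by exact_mod_cast (Nat.factorial_pos m).ne'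
  have h3 : ‖(2 * (Real.pi : ℂ) * I / (m ! : ℂ)) • iteratedDeriv m (deriv L) 0‖ =
      2 * Real.pi / (m ! : ℝ) * ‖iteratedDeriv (m + 1) L 0‖ := by
    rw [norm_smul, norm_div, norm_mul, norm_mul, Complex.norm_I, Complex.norm_real,
      Complex.norm_natCast, iteratedDeriv_succ', Real.norm_eq_abs, abs_of_pos Real.pi_pos]
    simp
  rw [h3] at h2
  rw [norm_div, Complex.norm_natCast, Nat.add_sub_cancel]
  have hf : (((m + 1) ! : ℕ) : ℝ) = (m + 1) * (m ! : ℝ) := by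
    rw [Nat.factorial_succ]; push_cast; ring
  rw [hf]
  have hp : 0 < r ^ m := pow_pos hr0 m
  have h4 : 2 * Real.pi / (m ! : ℝ) * ‖iteratedDeriv (m + 1) L 0‖ * r ^ m ≤
      ∫ θ in (0:ℝ)..2 * Real.pi, ‖deriv L (circleMap 0 r θ)‖ := by
    calc _ ≤ (r ^ m)⁻¹ * (∫ θ in (0:ℝ)..2 * Real.pi, ‖deriv L (circleMap 0 r θ)‖) * r ^ m :=
          mul_le_mul_of_nonneg_right h2 hp.le
      _ = _ := by field_simp
  have hpi := Real.pi_pos
  have hm1 : ((m : ℝ) + 1) ≠ 0 := by positivity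
  calc ((m + 1 : ℕ) : ℝ) * (‖iteratedDeriv (m + 1) L 0‖ / (((m : ℝ) + 1) * (m ! : ℝ))) * r ^ m
      = (2 * Real.pi)⁻¹ * (2 * Real.pi / (m ! : ℝ) * ‖iteratedDeriv (m + 1) L 0‖ * r ^ m) := by
        push_cast
        field_simp
    _ ≤ _ := mul_le_mul_of_nonneg_left h4 (by positivity)

end IM66
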