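import Mathlib

/-!
# Sharp integral means for achronal lifts: common definitions

`t = log |z| < 0`, `cc t = (1+|z|^2)/(1-|z|^2)` (hyperbolic cosine of the distance to `0`),
`T` the circle under consideration; `AA + mm * a` is the test function, `a` the hyperbolic cosine of
the distance of `B z` to `0`.
-/

set_option autoImplicit false

namespace IM66

open Complex Metric Set MeasureTheory Filter Topology ComplexConjugate

noncomputable def cc (t : ℝ) : ℝ := (1 + Real.exp (2 * t)) / (1 - Real.exp (2 * t))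

noncomputable def gg (T t : ℝ) : ℝ := T - t + (cc T)⁻¹ - (cc t)⁻¹

noncomputable def KK (T : ℝ) : ℝ := ((cc T)⁻¹) ^ 3

/-- `Λ`, as a function of `c` and `K` -/
noncomputable def lam (K c : ℝ) : ℝ := (1 - K * c ^ 3) / (c ^ 2 - 1)

/-- the coefficients and their `t`-derivatives, as functions of `K, c, g`;
`c' = c^2 - 1`, `g' = -1/c^2` -/
noncomputable def fA (K c g : ℝ) : ℝ := (3 * c * g - lam K c) / 2
noncomputable def fA1 (K c g : ℝ) : ℝ :=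
  (3 * (c ^ 2 - 1) * g - 3 / c + 3 * K * c ^ 2 + 2 * c * lam K c) / 2
noncomputable def fA2 (K c g : ℝ) : ℝ :=
  3 * c * (c ^ 2 - 1) * g - 3 * K * c + (c ^ 2 - 1) * lam K c - 2 * c ^ 2 * lam K c
noncomputable def fm (K c g : ℝ) : ℝ := (lam K c / c - g) / 2
noncomputable def fm1 (K c : ℝ) : ℝ := -(K * c) - lam K c
noncomputable def fm2 (K c : ℝ) : ℝ := -(K * (c ^ 2 - 1)) + 3 * K * c ^ 2 + 2 * c * lam K c

/-- the data: `h` nonvanishing (`L' = h (1 - z b)^2`), `b = B / z` -/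
structure Dat (h b : ℂ → ℂ) : Prop where
  dh : DifferentiableOn ℂ h (ball 0 1)
  db : DifferentiableOn ℂ b (ball 0 1)
  hne : ∀ z ∈ ball (0:ℂ) 1, h z ≠ 0
  hb : ∀ z ∈ ball (0:ℂ) 1, ‖b z‖ ≤ 1
  psi : ∀ z ∈ ball (0:ℂ) 1, ‖((1 - ‖z‖ ^ 2 : ℝ) : ℂ) * (deriv h z / (2 * h z) -
    conj (z * b z) * (b z + z * deriv b z) / ((1 - ‖z * b z‖ ^ 2 : ℝ) : ℂ)) - conj z‖ ≤ 2

/-- `B z = z b z` -/
noncomputable def BB (b : ℂ → ℂ) (z : ℂ) : ℂ := z * b z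

/-- `B' z` -/
noncomputable def B1 (b : ℂ → ℂ) (z : ℂ) : ℂ := b z + z * deriv b z

/-- `P = |grad_{t,θ} dist(0,B)|^2 = 4 |z B'|^2 / (1 - |B|^2)^2` -/
noncomputable def PP (b : ℂ → ℂ) (z : ℂ) : ℝ :=
  4 * ‖z * B1 b z‖ ^ 2 / (1 - ‖BB b z‖ ^ 2) ^ 2

/-- `a = cosh dist(0,B) = (1+|B|^2)/(1-|B|^2)` -/
noncomputable def aa (b : ℂ → ℂ) (z : ℂ) : ℝ := (1 + ‖BB b z‖ ^ 2) / (1 - ‖BB b z‖ ^ 2)

/-- `S = sinh dist(0,B) = 2|B|/(1-|B|^2)` -/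
noncomputable def SS (b : ℂ → ℂ) (z : ℂ) : ℝ := 2 * ‖BB b z‖ / (1 - ‖BB b z‖ ^ 2)

/-- `w = d a / d t = 4 Re (z B' conj B) / (1-|B|^2)^2` -/
noncomputable def ww (b : ℂ → ℂ) (z : ℂ) : ℝ :=
  4 * (z * B1 b z * conj (BB b z)).re / (1 - ‖BB b z‖ ^ 2) ^ 2

/-- `c` as a function of `z` -/
noncomputable def cz (z : ℂ) : ℝ := (1 + ‖z‖ ^ 2) / (1 - ‖z‖ ^ 2)

end IM66
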