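import Pool.Agent.Reg66.In
import Pool.Agent.IM66.Defs

/-!
# The gauge `L' = k (1 - z b)^2`

`B = (R - R 0)/(R - conj (R 0)) = z b z`, `k = L'/(1-B)^2`.
-/

set_option autoImplicit false

namespace IM66

open Complex Metric Set Filter Topology ComplexConjugate AllN24

variable {L F G R : ℂ → ℂ}

/-- the pointwise identity
`L''/(2L') + R'/(2i Im R) = k'/(2k) - conj B B'/(1-|B|^2)` in algebraic form -/
theorem gauge_alg {l l1 w w0 w1 : ℂ} (hl : l ≠ 0) (h0 : 0 < w0.im) (hw : 0 < w.im) :
    ∀ B B1 k k1 : ℂ, B = (w - w0) / (w - conj w0) →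
      B1 = w1 * (w0 - conj w0) / (w - conj w0) ^ 2 →
      k = l / (1 - B) ^ 2 →
      k1 = (l1 * (1 - B) + 2 * l * B1) / (1 - B) ^ 3 →
      l1 / (2 * l) + w1 / (2 * I * ((w.im : ℝ) : ℂ)) =
        k1 / (2 * k) - conj B * B1 / ((1 - ‖B‖ ^ 2 : ℝ) : ℂ) := by
  intro B B1 k k1 hB hB1 hk hk1
  have hd : w - conj w0 ≠ 0 := by
    intro h
    have := congrArg Complex.im h
    simp at this
    linarith
  have hd' : conj w - w0 ≠ 0 := by
    intro h
    have := congrArg Complex.im h
    simp at this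
    linarith
  have h00 : w0 - conj w0 ≠ 0 := by
    intro h
    have := congrArg Complex.im h
    simp at this
    linarith
  have hww : w - conj w ≠ 0 := by
    intro h
    have := congrArg Complex.im h
    simp at this
    linarith
  have e1 : 1 - B = (w0 - conj w0) / (w - conj w0) := by
    rw [hB]
    field_simp
    ring
  have e1' : 1 - B ≠ 0 := by rw [e1]; exact div_ne_zero h00 hd
  have ecB : conj B = (conj w - conj w0) / (conj w - w0) := by
    rw [hB]
    simp
  have e2 : 2 * I * ((w.im : ℝ) : ℂ) = w - conj w := by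
    apply Complex.ext <;> simp
    ring
  have e3 : ((1 - ‖B‖ ^ 2 : ℝ) : ℂ) = (w - conj w) * (w0 - conj w0) * (-1) /
      ((w - conj w0) * (conj w - w0)) * (-1) * (-1) := by
    have : ((‖B‖ ^ 2 : ℝ) : ℂ) = B * conj B := by
      rw [Complex.mul_conj, Complex.normSq_eq_norm_sq]
    push_cast at this ⊢
    rw [this, ecB, hB]
    field_simp
    ring
  rw [e2, e3, ecB, hB1]
  rw [hk1, hk]
  rw [e1, hB1]
  field_simp
  ring

theorem gauge (h : AllN24.AchLift L F G R) :
    ∃ b k : ℂ → ℂ, Dat k b ∧ ‖k 0‖ = ‖deriv L 0‖ ∧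
      (∀ z ∈ ball (0:ℂ) 1, deriv L z = k z * (1 - z * b z) ^ 2) ∧
      (∀ z ∈ ball (0:ℂ) 1, ‖deriv L z‖ ≤ ‖k z‖ * (1 + ‖z * b z‖) ^ 2) := by
  have h0mem : (0:ℂ) ∈ ball (0:ℂ) 1 := by simp
  have hR0 : 0 < (R 0).im := h.hR 0 h0mem
  have hden : ∀ z ∈ ball (0:ℂ) 1, R z - conj (R 0) ≠ 0 := by
    intro z hz he
    have h1 := congrArg Complex.im he
    have h2 := h.hR z hz
    simp at h1
    linarith
  set B : ℂ → ℂ := fun z => (R z - R 0) / (R z - conj (R 0)) with hB
  have hBd : DifferentiableOn ℂ B (ball 0 1) := by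
    intro z hz
    have h1 := h.dR z hz
    exact (h1.sub_const _).div (h1.sub_const _) (hden z hz)
  have hB0 : B 0 = 0 := by simp [hB]
  have hBlt : ∀ z ∈ ball (0:ℂ) 1, ‖B z‖ < 1 := by
    intro z hz
    simp only [hB]
    rw [norm_div, div_lt_one (norm_pos_iff.2 (hden z hz))]
    rw [← sq_lt_sq₀ (norm_nonneg _) (norm_nonneg _), ← Complex.normSq_eq_norm_sq,
      ← Complex.normSq_eq_norm_sq, Complex.normSq_apply, Complex.normSq_apply]
    simp only [sub_re, sub_im, conj_re, conj_im]
    nlinarith [h.hR z hz, mul_pos (h.hR z hz) hR0]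
  set b : ℂ → ℂ := dslope B 0 with hb
  have hzb : ∀ z, z * b z = B z := by
    intro z
    by_cases hz : z = 0
    · subst hz
      simp [hB0]
    · rw [hb, dslope_of_ne _ hz, slope_def_field, hB0]
      field_simp
      ring
  have hbd : DifferentiableOn ℂ b (ball 0 1) :=
    (Complex.differentiableOn_dslope (ball_mem_nhds 0 one_pos)).2 hBd
  have hble : ∀ z ∈ ball (0:ℂ) 1, ‖b z‖ ≤ 1 := by
    intro z hz
    have hmap : MapsTo B (ball 0 1) (closedBall (B 0) 1) := by
      intro y hy
      rw [hB0, mem_closedBall_zero_iff]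
      exact (hBlt y hy).le
    have := Complex.norm_dslope_le_div_of_mapsTo_ball hBd hmap hz
    simpa using this
  have h1B : ∀ z ∈ ball (0:ℂ) 1, 1 - B z ≠ 0 := by
    intro z hz he
    have h1 := hBlt z hz
    have h2 : B z = 1 := by linear_combination -he
    rw [h2] at h1
    simp at h1
  set k : ℂ → ℂ := fun z => deriv L z / (1 - B z) ^ 2 with hk
  have hL1 : DifferentiableOn ℂ (deriv L) (ball 0 1) := h.dL.deriv isOpen_ball
  have hkd : DifferentiableOn ℂ k (ball 0 1) := by
    intro z hz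
    exact (hL1 z hz).div (((differentiableWithinAt_const _).sub (hBd z hz)).pow 2)
      (pow_ne_zero 2 (h1B z hz))
  have hLk : ∀ z ∈ ball (0:ℂ) 1, deriv L z = k z * (1 - z * b z) ^ 2 := by
    intro z hz
    have h1 := h1B z hz
    rw [hzb]
    simp only [hk]
    field_simp
  refine ⟨b, k, ⟨hkd, hbd, ?_, hble, ?_⟩, ?_, hLk, ?_⟩
  · intro z hz
    exact div_ne_zero (h.hL z hz) (pow_ne_zero 2 (h1B z hz))
  · intro z hz
    have hnz : ball (0:ℂ) 1 ∈ 𝓝 z := isOpen_ball.mem_nhds hz
    have hRd : HasDerivAt R (deriv R z) z := (h.dR.differentiableAt hnz).hasDerivAt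
    have hLd : HasDerivAt (deriv L) (deriv (deriv L) z) z :=
      (hL1.differentiableAt hnz).hasDerivAt
    have hbdz : HasDerivAt b (deriv b z) z := (hbd.differentiableAt hnz).hasDerivAt
    have hBz : HasDerivAt B (deriv R z * (R 0 - conj (R 0)) / (R z - conj (R 0)) ^ 2) z := by
      have h1 := (hRd.sub_const (R 0)).div (hRd.sub_const (conj (R 0))) (hden z hz)
      refine h1.congr_deriv ?_
      congr 1
      ring
    have hB1 : b z + z * deriv b z =
        deriv R z * (R 0 - conj (R 0)) / (R z - conj (R 0)) ^ 2 := by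
      have h1 : HasDerivAt (fun y => y * b y) (1 * b z + z * deriv b z) z :=
        (hasDerivAt_id z).mul hbdz
      have h2 : (fun y => y * b y) = B := funext hzb
      rw [h2] at h1
      rw [← h1.unique hBz]
      ring
    have hkz : HasDerivAt k ((deriv (deriv L) z * (1 - B z) + 2 * deriv L z *
        (b z + z * deriv b z)) / (1 - B z) ^ 3) z := by
      have h1 := hLd.div ((hBz.const_sub 1).pow 2) (pow_ne_zero 2 (h1B z hz))
      refine h1.congr_deriv ?_
      rw [hB1]
      have h2 := h1B z hz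
      have h3 := hden z hz
      simp only [Pi.pow_apply]
      field_simp
      ring
    have halg := gauge_alg (l := deriv L z) (l1 := deriv (deriv L) z) (w := R z) (w0 := R 0)
      (w1 := deriv R z) (h.hL z hz) hR0 (h.hR z hz) (B z) (b z + z * deriv b z) (k z)
      (deriv k z) rfl hB1 rfl hkz.deriv
    have hpsi := Reg66.psi_le h hz
    unfold Pool.CSH.Psi at hpsi
    rw [halg] at hpsi
    rw [hzb]
    exact hpsi
  · simp only [hk, hB0]
    simp
  · intro z hz
    rw [hLk z hz, norm_mul, norm_pow]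
    apply mul_le_mul_of_nonneg_left _ (norm_nonneg _)
    apply pow_le_pow_left₀ (norm_nonneg _)
    calc ‖1 - z * b z‖ ≤ ‖(1:ℂ)‖ + ‖z * b z‖ := norm_sub_le _ _
      _ = 1 + ‖z * b z‖ := by rw [norm_one]

end IM66
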