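import Mathlib

/-!
# From the pencil `h' + e g'` to `h'` and `g'`
-/

set_option autoImplicit false

namespace IM66

open Complex Metric Set MeasureTheory ComplexConjugate

theorem one_add_mul_ne {β e : ℂ} (hβ : ‖β‖ < 1) (he : ‖e‖ ≤ 1) : 1 + e * β ≠ 0 := by
  intro h0
  have h1 : e * β = -1 := by linear_combination h0
  have h2 := congrArg norm h1
  rw [norm_mul, norm_neg, norm_one] at h2
  have h3 : ‖e‖ * ‖β‖ ≤ 1 * ‖β‖ := mul_le_mul_of_nonneg_right he (norm_nonneg β)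
  linarith

theorem norm_circleMap_one (φ : ℝ) : ‖circleMap 0 1 φ‖ = 1 := by
  rw [norm_circleMap_zero, abs_one]

/-- mean value property for `(a + e b) / (1 + e β)` -/
theorem norm_le_mean (a b : ℂ) {β : ℂ} (hβ : ‖β‖ < 1) :
    ‖a‖ ≤ (2 * Real.pi)⁻¹ * ∫ φ in (0:ℝ)..2 * Real.pi,
      ‖a + circleMap 0 1 φ * b‖ / ‖1 + circleMap 0 1 φ * β‖ := by
  set f : ℂ → ℂ := fun e => (a + e * b) / (1 + e * β) with hf
  have hpi : (0:ℝ) ≤ 2 * Real.pi := Real.two_pi_pos.le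
  have hdiff : DifferentiableOn ℂ f (closedBall 0 1) := by
    intro e he
    have he1 : ‖e‖ ≤ 1 := by simpa using he
    have hne := one_add_mul_ne hβ he1
    have h1 : DifferentiableAt ℂ (fun e : ℂ => a + e * b) e := by fun_prop
    have h2 : DifferentiableAt ℂ (fun e : ℂ => 1 + e * β) e := by fun_prop
    exact (h1.div h2 hne).differentiableWithinAt
  have hcl : DiffContOnCl ℂ f (ball 0 |1|) := by
    rw [abs_one]
    apply DifferentiableOn.diffContOnCl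
    rw [closure_ball (0:ℂ) one_ne_zero]
    exact hdiff
  have h1 := hcl.circleAverage
  have h2 : f 0 = a := by simp [hf]
  rw [h2, Real.circleAverage_def] at h1
  calc ‖a‖ = ‖(2 * Real.pi)⁻¹ • ∫ φ in (0:ℝ)..2 * Real.pi, f (circleMap 0 1 φ)‖ := by rw [h1]
    _ = (2 * Real.pi)⁻¹ * ‖∫ φ in (0:ℝ)..2 * Real.pi, f (circleMap 0 1 φ)‖ := by
        rw [norm_smul, Real.norm_eq_abs, abs_of_nonneg (by positivity)]
    _ ≤ (2 * Real.pi)⁻¹ * ∫ φ in (0:ℝ)..2 * Real.pi, ‖f (circleMap 0 1 φ)‖ :=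
        mul_le_mul_of_nonneg_left (intervalIntegral.norm_integral_le_integral_norm hpi)
          (by positivity)
    _ = _ := by
        congr 1
        apply intervalIntegral.integral_congr
        intro φ _
        simp only [hf, norm_div]

theorem mean_pencil {p q : ℝ → ℂ} (hp : Continuous p) (hq : Continuous q) {β : ℂ}
    (hβ : ‖β‖ < 1) {C : ℝ}
    (H : ∀ e : ℂ, ‖e‖ = 1 → (2 * Real.pi)⁻¹ * ∫ θ in (0:ℝ)..2 * Real.pi, ‖p θ + e * q θ‖ ≤
      ‖1 + e * β‖ * C) :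
    (2 * Real.pi)⁻¹ * ∫ θ in (0:ℝ)..2 * Real.pi, ‖p θ‖ ≤ C := by
  have hpi : (0:ℝ) < 2 * Real.pi := Real.two_pi_pos
  have hcm : Continuous (circleMap 0 1) := continuous_circleMap 0 1
  have hne : ∀ φ : ℝ, ‖1 + circleMap 0 1 φ * β‖ ≠ 0 := by
    intro φ
    rw [norm_ne_zero_iff]
    exact one_add_mul_ne hβ (norm_circleMap_one φ).le
  set F : ℝ → ℝ → ℝ := fun θ φ => ‖p θ + circleMap 0 1 φ * q θ‖ / ‖1 + circleMap 0 1 φ * β‖ with hF
  have hFc : Continuous (Function.uncurry F) := by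
    have h1 : Continuous (fun x : ℝ × ℝ => ‖p x.1 + circleMap 0 1 x.2 * q x.1‖) := by
      have := hp.comp (continuous_fst (X := ℝ) (Y := ℝ))
      have := hq.comp (continuous_fst (X := ℝ) (Y := ℝ))
      have := hcm.comp (continuous_snd (X := ℝ) (Y := ℝ))
      fun_prop
    have h2 : Continuous (fun x : ℝ × ℝ => ‖1 + circleMap 0 1 x.2 * β‖) := by
      have := hcm.comp (continuous_snd (X := ℝ) (Y := ℝ))
      fun_prop
    exact h1.div h2 (fun x => hne x.2)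
  have hFi : IntegrableOn (Function.uncurry F)
      (uIoc (0:ℝ) (2 * Real.pi) ×ˢ uIoc (0:ℝ) (2 * Real.pi)) := by
    have hK : IsCompact (Icc (0:ℝ) (2 * Real.pi) ×ˢ Icc (0:ℝ) (2 * Real.pi)) :=
      isCompact_Icc.prod isCompact_Icc
    refine (hFc.continuousOn.integrableOn_compact hK).mono_set ?_
    rw [uIoc_of_le hpi.le]
    exact prod_mono Ioc_subset_Icc_self Ioc_subset_Icc_self
  have hswap := intervalIntegral_intervalIntegral_swap hFi
  have hpt : ∀ θ : ℝ, ‖p θ‖ ≤ (2 * Real.pi)⁻¹ * ∫ φ in (0:ℝ)..2 * Real.pi, F θ φ :=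
    fun θ => norm_le_mean (p θ) (q θ) hβ
  have hinner : Continuous (fun θ : ℝ => ∫ φ in (0:ℝ)..2 * Real.pi, F θ φ) :=
    intervalIntegral.continuous_parametric_intervalIntegral_of_continuous' hFc 0 (2 * Real.pi)
  have h1 : ∫ θ in (0:ℝ)..2 * Real.pi, ‖p θ‖ ≤
      ∫ θ in (0:ℝ)..2 * Real.pi, (2 * Real.pi)⁻¹ * ∫ φ in (0:ℝ)..2 * Real.pi, F θ φ :=
    intervalIntegral.integral_mono hpi.le (hp.norm.intervalIntegrable _ _)
      ((hinner.const_mul _).intervalIntegrable _ _) hpt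
  rw [intervalIntegral.integral_const_mul, hswap] at h1
  have h2 : ∀ φ : ℝ, ∫ θ in (0:ℝ)..2 * Real.pi, F θ φ ≤ 2 * Real.pi * C := by
    intro φ
    have h3 := H (circleMap 0 1 φ) (norm_circleMap_one φ)
    have hpos : 0 < ‖1 + circleMap 0 1 φ * β‖ :=
      lt_of_le_of_ne (norm_nonneg _) (hne φ).symm
    have h4 : ∫ θ in (0:ℝ)..2 * Real.pi, F θ φ =
        (∫ θ in (0:ℝ)..2 * Real.pi, ‖p θ + circleMap 0 1 φ * q θ‖) /
          ‖1 + circleMap 0 1 φ * β‖ := by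
      simp only [hF]
      rw [intervalIntegral.integral_div]
    rw [h4, div_le_iff₀ hpos]
    rw [inv_mul_le_iff₀ hpi] at h3
    calc _ ≤ 2 * Real.pi * (‖1 + circleMap 0 1 φ * β‖ * C) := h3
      _ = _ := by ring
  have hinner2 : Continuous (fun φ : ℝ => ∫ θ in (0:ℝ)..2 * Real.pi, F θ φ) := by
    have hFc2 : Continuous (Function.uncurry fun φ θ => F θ φ) :=
      hFc.comp continuous_swap
    exact intervalIntegral.continuous_parametric_intervalIntegral_of_continuous' hFc2 0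
      (2 * Real.pi)
  have h5 : ∫ φ in (0:ℝ)..2 * Real.pi, ∫ θ in (0:ℝ)..2 * Real.pi, F θ φ ≤
      ∫ φ in (0:ℝ)..2 * Real.pi, 2 * Real.pi * C :=
    intervalIntegral.integral_mono hpi.le (hinner2.intervalIntegrable _ _)
      (continuous_const.intervalIntegrable _ _) h2
  rw [intervalIntegral.integral_const, smul_eq_mul, sub_zero] at h5
  rw [inv_mul_le_iff₀ hpi]
  calc ∫ θ in (0:ℝ)..2 * Real.pi, ‖p θ‖
      ≤ (2 * Real.pi)⁻¹ * ∫ φ in (0:ℝ)..2 * Real.pi, ∫ θ in (0:ℝ)..2 * Real.pi, F θ φ := h1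
    _ ≤ (2 * Real.pi)⁻¹ * (2 * Real.pi * (2 * Real.pi * C)) :=
        mul_le_mul_of_nonneg_left h5 (by positivity)
    _ = 2 * Real.pi * C := by field_simp

/-- **Means of `h'` and `g'` from the pencil.** -/
theorem mean_hg {h g : ℂ → ℂ} (dh : DifferentiableOn ℂ h (ball 0 1))
    (dg : DifferentiableOn ℂ g (ball 0 1)) (_h1 : deriv h 0 = 1) (hb : ‖deriv g 0‖ < 1)
    {r C : ℝ} (hr0 : 0 < r) (hr1 : r < 1)
    (H : ∀ e : ℂ, ‖e‖ = 1 → (2 * Real.pi)⁻¹ * ∫ θ in (0:ℝ)..2 * Real.pi,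
      ‖deriv h (circleMap 0 r θ) + e * deriv g (circleMap 0 r θ)‖ ≤
        ‖1 + e * deriv g 0‖ * C) :
    (2 * Real.pi)⁻¹ * ∫ θ in (0:ℝ)..2 * Real.pi, ‖deriv h (circleMap 0 r θ)‖ ≤ C ∧
    (2 * Real.pi)⁻¹ * ∫ θ in (0:ℝ)..2 * Real.pi, ‖deriv g (circleMap 0 r θ)‖ ≤ C := by
  have hmem : ∀ θ : ℝ, circleMap 0 r θ ∈ ball (0:ℂ) 1 := by
    intro θ
    rw [mem_ball_zero_iff, norm_circleMap_zero, abs_of_pos hr0]
    exact hr1
  have hcm : Continuous (circleMap 0 r) := continuous_circleMap 0 r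
  have hch : Continuous (fun θ : ℝ => deriv h (circleMap 0 r θ)) :=
    (dh.deriv isOpen_ball).continuousOn.comp_continuous hcm hmem
  have hcg : Continuous (fun θ : ℝ => deriv g (circleMap 0 r θ)) :=
    (dg.deriv isOpen_ball).continuousOn.comp_continuous hcm hmem
  refine ⟨mean_pencil hch hcg hb H, ?_⟩
  have hb' : ‖conj (deriv g 0)‖ < 1 := by rw [norm_conj]; exact hb
  refine mean_pencil hcg hch hb' ?_
  intro e he
  have he' : ‖conj e‖ = 1 := by rw [norm_conj]; exact he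
  have h2 := H (conj e) he'
  have hee : e * conj e = 1 := by
    rw [Complex.mul_conj, Complex.normSq_eq_norm_sq, he]
    simp
  have h3 : ∀ θ : ℝ, ‖deriv h (circleMap 0 r θ) + conj e * deriv g (circleMap 0 r θ)‖ =
      ‖deriv g (circleMap 0 r θ) + e * deriv h (circleMap 0 r θ)‖ := by
    intro θ
    have h4 : deriv g (circleMap 0 r θ) + e * deriv h (circleMap 0 r θ) =
        e * (deriv h (circleMap 0 r θ) + conj e * deriv g (circleMap 0 r θ)) := by
      linear_combination (-deriv g (circleMap 0 r θ)) * hee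
    rw [h4, norm_mul, he, one_mul]
  simp_rw [h3] at h2
  have h5 : ‖1 + conj e * deriv g 0‖ = ‖1 + e * conj (deriv g 0)‖ := by
    rw [← norm_conj (1 + conj e * deriv g 0)]
    simp
  rw [h5] at h2
  exact h2

end IM66
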