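import Mathlib

/-!
# The numerical extraction of the coefficient bound

From `n A r ^ (n - 1) ≤ (1 + r)² (1 + r²) / (1 - r²)³` for all `0 < r < 1` we get
`A ≤ 3/4 n² + 3/2` and `A ≤ e³/27 (n² + 5/2)`.
-/

set_option autoImplicit false

namespace IM66

open Real

/-- A function vanishing at `0` with nonnegative derivative on `[0, b]` is nonnegative there. -/
theorem nonneg_of_deriv_Icc {f f' : ℝ → ℝ} {b : ℝ} (h0 : f 0 = 0)
    (hd : ∀ t : ℝ, 0 ≤ t → t ≤ b → HasDerivAt f (f' t) t)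
    (hp : ∀ t : ℝ, 0 ≤ t → t ≤ b → 0 ≤ f' t) :
    ∀ t : ℝ, 0 ≤ t → t ≤ b → 0 ≤ f t := by
  intro t ht htb
  have hmono : MonotoneOn f (Set.Icc (0 : ℝ) b) := by
    apply monotoneOn_of_deriv_nonneg (convex_Icc 0 b)
    · intro s hs
      exact (hd s hs.1 hs.2).continuousAt.continuousWithinAt
    · intro s hs
      rw [interior_Icc] at hs
      exact (hd s hs.1.le hs.2.le).differentiableAt.differentiableWithinAt
    · intro s hs
      rw [interior_Icc] at hs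
      rw [(hd s hs.1.le hs.2.le).deriv]
      exact hp s hs.1.le hs.2.le
  have := hmono (Set.mem_Icc.mpr ⟨le_rfl, ht.trans htb⟩) (Set.mem_Icc.mpr ⟨ht, htb⟩) ht
  rw [h0] at this
  exact this

theorem exp_three_lt : exp 3 < 20.0856 := by
  have h1 : exp 3 = exp 1 ^ 3 := by
    rw [← exp_nat_mul]; norm_num
  rw [h1]
  have h2 := exp_one_lt_d9
  have h3 := exp_pos 1
  calc exp 1 ^ 3 ≤ 2.7182818286 ^ 3 := pow_le_pow_left₀ h3.le h2.le 3
    _ < 20.0856 := by norm_num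

theorem lt_exp_three : 20.0855 < exp 3 := by
  have h1 : exp 3 = exp 1 ^ 3 := by
    rw [← exp_nat_mul]; norm_num
  rw [h1]
  have h2 := exp_one_gt_d9
  calc (20.0855 : ℝ) < 2.7182818283 ^ 3 := by norm_num
    _ ≤ exp 1 ^ 3 := pow_le_pow_left₀ (by norm_num) h2.le 3

/-- `log (1 + v) - log (1 - v) ≤ 2 v + 2 v³ / 3 + (2 v⁵ / 5) / (1 - v²)` on `[0, 1/2]`. -/
theorem log_ratio_le {v : ℝ} (hv0 : 0 ≤ v) (hv1 : v ≤ 1 / 2) :
    log (1 + v) - log (1 - v) ≤ 2 * v + 2 * v ^ 3 / 3 + 2 * v ^ 5 / 5 / (1 - v ^ 2) := by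
  have key : ∀ t : ℝ, 0 ≤ t → t ≤ 1 / 2 → 0 ≤
      (2 * t + 2 * t ^ 3 / 3 + 2 * t ^ 5 / 5 / (1 - t ^ 2)) - (log (1 + t) - log (1 - t)) := by
    apply nonneg_of_deriv_Icc (f' := fun t =>
      (2 + 2 * (3 * t ^ 2) / 3 + ((2 * (5 * t ^ 4) / 5) * (1 - t ^ 2) -
        2 * t ^ 5 / 5 * (-(2 * t))) / (1 - t ^ 2) ^ 2) - (1 / (1 + t) - (-1) / (1 - t)))
    · simp
    · intro s hs0 hs1
      have hne1 : (1 + s : ℝ) ≠ 0 := by positivity
      have hne2 : (1 - s : ℝ) ≠ 0 := by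
        have : 0 < 1 - s := by linarith
        exact this.ne'
      have hne3 : (1 - s ^ 2 : ℝ) ≠ 0 := by
        have : 0 < 1 - s ^ 2 := by nlinarith
        exact this.ne'
      have h1 : HasDerivAt (fun t : ℝ => 2 * t) 2 s := by
        simpa using (hasDerivAt_id s).const_mul 2
      have h3 : HasDerivAt (fun t : ℝ => 2 * t ^ 3 / 3) (2 * (3 * s ^ 2) / 3) s := by
        have := (((hasDerivAt_pow 3 s)).const_mul 2).div_const 3
        norm_num at this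
        convert this using 1
      have h5 : HasDerivAt (fun t : ℝ => 2 * t ^ 5 / 5) (2 * (5 * s ^ 4) / 5) s := by
        have := (((hasDerivAt_pow 5 s)).const_mul 2).div_const 5
        norm_num at this
        convert this using 1
      have h2 : HasDerivAt (fun t : ℝ => 1 - t ^ 2) (-(2 * s)) s := by
        have := (hasDerivAt_pow 2 s).const_sub 1
        norm_num at this
        exact this
      have h6 : HasDerivAt (fun t : ℝ => log (1 + t)) (1 / (1 + s)) s :=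
        ((hasDerivAt_id s).const_add 1).log hne1
      have h7 : HasDerivAt (fun t : ℝ => log (1 - t)) ((-1) / (1 - s)) s :=
        ((hasDerivAt_id s).const_sub 1).log hne2
      exact ((h1.add h3).add (h5.div h2 hne3)).sub (h6.sub h7)
    · intro s hs0 hs1
      have hne1 : (1 + s : ℝ) ≠ 0 := by positivity
      have hne2 : (1 - s : ℝ) ≠ 0 := by
        have : 0 < 1 - s := by linarith
        exact this.ne'
      have hpos3 : 0 < 1 - s ^ 2 := by nlinarith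
      have e : (2 + 2 * (3 * s ^ 2) / 3 + ((2 * (5 * s ^ 4) / 5) * (1 - s ^ 2) -
        2 * s ^ 5 / 5 * (-(2 * s))) / (1 - s ^ 2) ^ 2) - (1 / (1 + s) - (-1) / (1 - s)) =
        (4 / 5 * s ^ 6) / (1 - s ^ 2) ^ 2 := by
        have e1 : 1 / (1 + s) - (-1) / (1 - s) = 2 / (1 - s ^ 2) := by
          have : (1 - s ^ 2 : ℝ) = (1 + s) * (1 - s) := by ring
          rw [this]
          field_simp
          ring
        rw [e1]
        have := hpos3.ne'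
        field_simp
        ring
      rw [e]
      positivity
  linarith [key v hv0 hv1]

/-- `log (1 - w) ≤ - w - w² / 2` on `[0, 1/2]`. -/
theorem log_one_sub_le {w : ℝ} (hw0 : 0 ≤ w) (hw1 : w ≤ 1 / 2) :
    log (1 - w) ≤ -w - w ^ 2 / 2 := by
  have key : ∀ t : ℝ, 0 ≤ t → t ≤ 1 / 2 → 0 ≤ (-t - t ^ 2 / 2) - log (1 - t) := by
    apply nonneg_of_deriv_Icc (f' := fun t => (-1 - 2 * t / 2) - (-1) / (1 - t))
    · simp
    · intro s hs0 hs1
      have hne2 : (1 - s : ℝ) ≠ 0 := by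
        have : 0 < 1 - s := by linarith
        exact this.ne'
      have h1 : HasDerivAt (fun t : ℝ => -t) (-1) s := hasDerivAt_neg s
      have h2 : HasDerivAt (fun t : ℝ => t ^ 2 / 2) (2 * s / 2) s := by
        have := (hasDerivAt_pow 2 s).div_const 2
        simpa using this
      have h7 : HasDerivAt (fun t : ℝ => log (1 - t)) ((-1) / (1 - s)) s :=
        ((hasDerivAt_id s).const_sub 1).log hne2
      exact (h1.sub h2).sub h7
    · intro s hs0 hs1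
      have hpos : 0 < 1 - s := by linarith
      have e : (-1 - 2 * s / 2) - (-1) / (1 - s) = s ^ 2 / (1 - s) := by
        field_simp
        ring
      rw [e]
      positivity
  linarith [key w hw0 hw1]

/-- the key bound for `n ≥ 6` -/
theorem pow_bound {n : ℕ} (hn : 6 ≤ n) :
    (1 + 3 / (2 * n : ℝ)) ^ (n + 1) ≤
      exp 3 * (1 + 3 / 20 * (3 / (2 * n : ℝ)) ^ 4) * (1 - 3 / (2 * n : ℝ)) ^ (n - 1) := by
  have hn' : (6 : ℝ) ≤ n := by exact_mod_cast hn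
  set v : ℝ := 3 / (2 * n : ℝ) with hv
  have hv0 : 0 < v := by rw [hv]; positivity
  have hv1 : v ≤ 1 / 4 := by
    rw [hv, div_le_div_iff₀ (by positivity) (by norm_num)]
    linarith
  have hnv : (n : ℝ) * v = 3 / 2 := by rw [hv]; field_simp
  have h1 := log_ratio_le hv0.le (by linarith)
  have h2 : log (1 - v ^ 2) ≤ -(v ^ 2) - (v ^ 2) ^ 2 / 2 :=
    log_one_sub_le (by positivity) (by nlinarith)
  have hp1 : 0 < 1 + v := by linarith
  have hp2 : 0 < 1 - v := by linarith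
  have hp3 : 0 < 1 - v ^ 2 := by nlinarith
  -- exponent
  have h3 : (n : ℝ) * (log (1 + v) - log (1 - v)) + log (1 - v ^ 2) ≤ 3 + 7 / 50 * v ^ 4 := by
    have h4 : (n : ℝ) * (log (1 + v) - log (1 - v)) ≤
        3 + v ^ 2 + 3 / 5 * v ^ 4 / (1 - v ^ 2) := by
      have h5 := mul_le_mul_of_nonneg_left h1 (by positivity : (0 : ℝ) ≤ n)
      have e : (n : ℝ) * (2 * v + 2 * v ^ 3 / 3 + 2 * v ^ 5 / 5 / (1 - v ^ 2)) =
          3 + v ^ 2 + 3 / 5 * v ^ 4 / (1 - v ^ 2) := by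
        have e2 : (n : ℝ) * (2 * v + 2 * v ^ 3 / 3 + 2 * v ^ 5 / 5 / (1 - v ^ 2)) =
          (n * v) * (2 + 2 * v ^ 2 / 3 + 2 * v ^ 4 / 5 / (1 - v ^ 2)) := by ring
        rw [e2, hnv]
        ring
      linarith
    have h6 : 3 / 5 * v ^ 4 / (1 - v ^ 2) ≤ 16 / 25 * v ^ 4 := by
      rw [div_le_iff₀ hp3]
      have : 0 ≤ v ^ 4 * (1 / 16 - v ^ 2) := by
        apply mul_nonneg (by positivity)
        nlinarith
      nlinarith
    nlinarith
  have h7 : exp ((n : ℝ) * (log (1 + v) - log (1 - v)) + log (1 - v ^ 2)) =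
      ((1 + v) / (1 - v)) ^ n * (1 - v ^ 2) := by
    rw [exp_add, exp_log hp3, exp_nat_mul, exp_sub, exp_log hp1, exp_log hp2]
  have h8 : exp (7 / 50 * v ^ 4) ≤ 1 + 3 / 20 * v ^ 4 := by
    -- exp y ≤ 1 / (1 - y)
    set y := 7 / 50 * v ^ 4 with hy
    have hy0 : 0 ≤ y := by positivity
    have hv4 : v ^ 4 ≤ 1 / 256 := by
      calc v ^ 4 ≤ (1 / 4) ^ 4 := pow_le_pow_left₀ hv0.le hv1 4
        _ = 1 / 256 := by norm_num
    have hy1 : y ≤ 1 / 1000 := by rw [hy]; linarith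
    have h9 := add_one_le_exp (-y)
    have h10 : exp y * (1 - y) ≤ 1 := by
      have : exp y * exp (-y) = 1 := by rw [← exp_add]; simp
      calc exp y * (1 - y) ≤ exp y * exp (-y) :=
            mul_le_mul_of_nonneg_left (by linarith) (exp_pos y).le
        _ = 1 := this
    have h11 : exp y ≤ 1 / (1 - y) := by
      rw [le_div_iff₀ (by linarith)]
      exact h10
    have h12 : 1 / (1 - y) ≤ 1 + 15 / 14 * y := by
      rw [div_le_iff₀ (by linarith)]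
      nlinarith
    calc exp y ≤ 1 + 15 / 14 * y := h11.trans h12
      _ = 1 + 3 / 20 * v ^ 4 := by rw [hy]; ring
  have h13 : ((1 + v) / (1 - v)) ^ n * (1 - v ^ 2) ≤ exp 3 * (1 + 3 / 20 * v ^ 4) := by
    rw [← h7]
    calc exp ((n : ℝ) * (log (1 + v) - log (1 - v)) + log (1 - v ^ 2))
        ≤ exp (3 + 7 / 50 * v ^ 4) := exp_le_exp.mpr h3
      _ = exp 3 * exp (7 / 50 * v ^ 4) := by rw [exp_add]
      _ ≤ _ := mul_le_mul_of_nonneg_left h8 (exp_pos 3).le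
  obtain ⟨m, rfl⟩ : ∃ m : ℕ, n = m + 1 := ⟨n - 1, by omega⟩
  rw [Nat.add_sub_cancel]
  have h14 : ((1 + v) / (1 - v)) ^ (m + 1) * (1 - v ^ 2) * (1 - v) ^ m = (1 + v) ^ (m + 1 + 1) := by
    rw [div_pow]
    have : (1 - v) ^ (m + 1) = (1 - v) ^ m * (1 - v) := pow_succ _ _
    rw [this, pow_succ (1 + v) (m + 1)]
    have hne : (1 - v) ^ m ≠ 0 := pow_ne_zero _ hp2.ne'
    field_simp
    ring
  rw [← h14]
  exact mul_le_mul_of_nonneg_right h13 (by positivity)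

/-- the value of the majorant at `r = (1 - v) / (1 + v)` -/
theorem majorant_eq {v : ℝ} (hv0 : 0 < v) (_hv1 : v < 1) :
    (1 + (1 - v) / (1 + v)) ^ 2 * (1 + ((1 - v) / (1 + v)) ^ 2) /
      (1 - ((1 - v) / (1 + v)) ^ 2) ^ 3 = (1 + v ^ 2) * (1 + v) ^ 2 / (8 * v ^ 3) := by
  have hp : (1 + v) ≠ 0 := by positivity
  have e1 : 1 + (1 - v) / (1 + v) = 2 / (1 + v) := by field_simp; ring
  have e2 : 1 + ((1 - v) / (1 + v)) ^ 2 = 2 * (1 + v ^ 2) / (1 + v) ^ 2 := by field_simp; ring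
  have e3 : 1 - ((1 - v) / (1 + v)) ^ 2 = 4 * v / (1 + v) ^ 2 := by field_simp; ring
  rw [e1, e2, e3]
  field_simp
  ring

/-- the bound for `n ≥ 6` -/
theorem num_large {n : ℕ} (hn : 6 ≤ n) {A : ℝ}
    (h : ∀ r : ℝ, 0 < r → r < 1 →
      (n : ℝ) * A * r ^ (n - 1) ≤ (1 + r) ^ 2 * (1 + r ^ 2) / (1 - r ^ 2) ^ 3) :
    A ≤ exp 3 / 27 * ((n : ℝ) ^ 2 + 9 / 4) * (1 + 3 / 20 * (3 / (2 * n : ℝ)) ^ 4) := by
  have hn' : (6 : ℝ) ≤ n := by exact_mod_cast hn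
  have hpb := pow_bound hn
  set v : ℝ := 3 / (2 * n : ℝ) with hv
  have hv0 : 0 < v := by rw [hv]; positivity
  have hv1 : v ≤ 1 / 4 := by
    rw [hv, div_le_div_iff₀ (by positivity) (by norm_num)]
    linarith
  have hp1 : 0 < 1 + v := by linarith
  have hp2 : 0 < 1 - v := by linarith
  have h1 := h ((1 - v) / (1 + v)) (by positivity) (by rw [div_lt_one hp1]; linarith)
  rw [majorant_eq hv0 (by linarith), div_pow] at h1
  have h2 : (n : ℝ) = 3 / (2 * v) := by rw [hv]; field_simp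
  obtain ⟨m, rfl⟩ : ∃ m : ℕ, n = m + 1 := ⟨n - 1, by omega⟩
  rw [Nat.add_sub_cancel] at h1 hpb
  -- multiply out
  have hq1 : 0 < (1 + v) ^ m := by positivity
  have hq2 : 0 < (1 - v) ^ m := by positivity
  have h3 : ((m + 1 : ℕ) : ℝ) * A * (1 - v) ^ m ≤
      (1 + v ^ 2) / (8 * v ^ 3) * (1 + v) ^ (m + 1 + 1) := by
    have h4 := mul_le_mul_of_nonneg_right h1 hq1.le
    have e1 : ((m + 1 : ℕ) : ℝ) * A * ((1 - v) ^ m / (1 + v) ^ m) * (1 + v) ^ m =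
        ((m + 1 : ℕ) : ℝ) * A * (1 - v) ^ m := by field_simp
    have e2 : (1 + v ^ 2) * (1 + v) ^ 2 / (8 * v ^ 3) * (1 + v) ^ m =
        (1 + v ^ 2) / (8 * v ^ 3) * (1 + v) ^ (m + 1 + 1) := by
      rw [pow_succ, pow_succ]; ring
    rw [e1, e2] at h4
    exact h4
  have h5 : ((m + 1 : ℕ) : ℝ) * A * (1 - v) ^ m ≤
      (1 + v ^ 2) / (8 * v ^ 3) * (exp 3 * (1 + 3 / 20 * v ^ 4)) * (1 - v) ^ m := by
    calc _ ≤ (1 + v ^ 2) / (8 * v ^ 3) * (1 + v) ^ (m + 1 + 1) := h3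
      _ ≤ (1 + v ^ 2) / (8 * v ^ 3) * (exp 3 * (1 + 3 / 20 * v ^ 4) * (1 - v) ^ m) :=
          mul_le_mul_of_nonneg_left hpb (by positivity)
      _ = _ := by ring
  have h6 := le_of_mul_le_mul_right h5 hq2
  have h7 : (0 : ℝ) < ((m + 1 : ℕ) : ℝ) := by linarith
  have h8 : (1 + v ^ 2) / (8 * v ^ 3) * (exp 3 * (1 + 3 / 20 * v ^ 4)) =
      ((m + 1 : ℕ) : ℝ) * (exp 3 / 27 * (((m + 1 : ℕ) : ℝ) ^ 2 + 9 / 4) *
        (1 + 3 / 20 * v ^ 4)) := by
    rw [h2]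
    field_simp
    ring
  rw [h8] at h6
  exact le_of_mul_le_mul_left h6 h7

/-- small values of `n`, by one explicit radius -/
theorem num_at {n : ℕ} {A : ℝ}
    (h : ∀ r : ℝ, 0 < r → r < 1 →
      (n : ℝ) * A * r ^ (n - 1) ≤ (1 + r) ^ 2 * (1 + r ^ 2) / (1 - r ^ 2) ^ 3)
    (r T : ℝ) (hr0 : 0 < r) (hr1 : r < 1)
    (hT : (1 + r) ^ 2 * (1 + r ^ 2) / (1 - r ^ 2) ^ 3 ≤ (n : ℝ) * T * r ^ (n - 1))
    (hn : 1 ≤ n) : A ≤ T := by
  have h1 := (h r hr0 hr1).trans hT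
  have hn' : (0 : ℝ) < n := by exact_mod_cast (by omega : 0 < n)
  have h2 : A * ((n : ℝ) * r ^ (n - 1)) ≤ T * ((n : ℝ) * r ^ (n - 1)) := by
    calc A * ((n : ℝ) * r ^ (n - 1)) = (n : ℝ) * A * r ^ (n - 1) := by ring
      _ ≤ (n : ℝ) * T * r ^ (n - 1) := h1
      _ = _ := by ring
  exact le_of_mul_le_mul_right h2 (by positivity)

theorem num_small {n : ℕ} (hn : 1 ≤ n) (hn6 : n < 6) {A : ℝ}
    (h : ∀ r : ℝ, 0 < r → r < 1 →
      (n : ℝ) * A * r ^ (n - 1) ≤ (1 + r) ^ 2 * (1 + r ^ 2) / (1 - r ^ 2) ^ 3) :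
    A ≤ 7439 / 10000 * ((n : ℝ) ^ 2 + 5 / 2) ∧ A ≤ 3 / 4 * (n : ℝ) ^ 2 + 3 / 2 := by
  have key : ∃ T : ℝ, A ≤ T ∧ T ≤ 7439 / 10000 * ((n : ℝ) ^ 2 + 5 / 2) ∧
      T ≤ 3 / 4 * (n : ℝ) ^ 2 + 3 / 2 := by
    interval_cases n
    · exact ⟨13 / 10, num_at h (1 / 10) _ (by norm_num) (by norm_num) (by norm_num) (by norm_num),
        by norm_num, by norm_num⟩
    · exact ⟨41 / 10, num_at h (3 / 10) _ (by norm_num) (by norm_num) (by norm_num) (by norm_num),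
        by norm_num, by norm_num⟩
    · exact ⟨8, num_at h (2 / 5) _ (by norm_num) (by norm_num) (by norm_num) (by norm_num),
        by norm_num, by norm_num⟩
    · exact ⟨40 / 3, num_at h (1 / 2) _ (by norm_num) (by norm_num) (by norm_num) (by norm_num),
        by norm_num, by norm_num⟩
    · exact ⟨202 / 10, num_at h (14 / 25) _ (by norm_num) (by norm_num) (by norm_num)
        (by norm_num), by norm_num, by norm_num⟩
  obtain ⟨T, h1, h2, h3⟩ := key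
  exact ⟨h1.trans h2, h1.trans h3⟩

/-- **Numerical extraction**, rational constants. -/
theorem num {n : ℕ} (hn : 1 ≤ n) {A : ℝ} (_hA : 0 ≤ A)
    (h : ∀ r : ℝ, 0 < r → r < 1 →
      (n : ℝ) * A * r ^ (n - 1) ≤ (1 + r) ^ 2 * (1 + r ^ 2) / (1 - r ^ 2) ^ 3) :
    A ≤ 3 / 4 * (n : ℝ) ^ 2 + 3 / 2 := by
  by_cases hn6 : n < 6
  · exact (num_small hn hn6 h).2
  · have hn6' : 6 ≤ n := by omega
    have hn' : (6 : ℝ) ≤ n := by exact_mod_cast hn6'
    refine (num_large hn6' h).trans ?_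
    have he := exp_three_lt
    have e : ((n : ℝ) ^ 2 + 9 / 4) * (1 + 3 / 20 * (3 / (2 * n : ℝ)) ^ 4) =
        (n : ℝ) ^ 2 + 9 / 4 + (243 / 320) / (n : ℝ) ^ 2 + (2187 / 1280) / (n : ℝ) ^ 4 := by
      field_simp
      ring
    have hsq : (36 : ℝ) ≤ (n : ℝ) ^ 2 := by nlinarith
    have h4 : (1296 : ℝ) ≤ (n : ℝ) ^ 4 := by nlinarith
    have h5 : (243 / 320 : ℝ) / (n : ℝ) ^ 2 ≤ 0.0211 := by
      rw [div_le_iff₀ (by positivity)]; nlinarith
    have h6 : (2187 / 1280 : ℝ) / (n : ℝ) ^ 4 ≤ 0.0014 := by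
      rw [div_le_iff₀ (by positivity)]; nlinarith
    rw [mul_assoc, e]
    have h7 : (n : ℝ) ^ 2 + 9 / 4 + (243 / 320) / (n : ℝ) ^ 2 + (2187 / 1280) / (n : ℝ) ^ 4 ≤
        (n : ℝ) ^ 2 + 2.2725 := by linarith
    calc exp 3 / 27 * ((n : ℝ) ^ 2 + 9 / 4 + (243 / 320) / (n : ℝ) ^ 2 +
          (2187 / 1280) / (n : ℝ) ^ 4)
        ≤ exp 3 / 27 * ((n : ℝ) ^ 2 + 2.2725) :=
          mul_le_mul_of_nonneg_left h7 (by positivity)
      _ ≤ 20.0856 / 27 * ((n : ℝ) ^ 2 + 2.2725) :=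
          mul_le_mul_of_nonneg_right (by linarith) (by positivity)
      _ ≤ _ := by nlinarith

/-- **Numerical extraction**, constant `e³ / 27`. -/
theorem num2 {n : ℕ} (hn : 1 ≤ n) {A : ℝ} (_hA : 0 ≤ A)
    (h : ∀ r : ℝ, 0 < r → r < 1 →
      (n : ℝ) * A * r ^ (n - 1) ≤ (1 + r) ^ 2 * (1 + r ^ 2) / (1 - r ^ 2) ^ 3) :
    A ≤ exp 3 / 27 * ((n : ℝ) ^ 2 + 5 / 2) := by
  by_cases hn6 : n < 6
  · refine (num_small hn hn6 h).1.trans ?_
    have he := lt_exp_three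
    apply mul_le_mul_of_nonneg_right _ (by positivity)
    linarith
  · have hn6' : 6 ≤ n := by omega
    have hn' : (6 : ℝ) ≤ n := by exact_mod_cast hn6'
    refine (num_large hn6' h).trans ?_
    have e : ((n : ℝ) ^ 2 + 9 / 4) * (1 + 3 / 20 * (3 / (2 * n : ℝ)) ^ 4) =
        (n : ℝ) ^ 2 + 9 / 4 + (243 / 320) / (n : ℝ) ^ 2 + (2187 / 1280) / (n : ℝ) ^ 4 := by
      field_simp
      ring
    have hsq : (36 : ℝ) ≤ (n : ℝ) ^ 2 := by nlinarith
    have h4 : (1296 : ℝ) ≤ (n : ℝ) ^ 4 := by nlinarith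
    have h5 : (243 / 320 : ℝ) / (n : ℝ) ^ 2 ≤ 0.0211 := by
      rw [div_le_iff₀ (by positivity)]; nlinarith
    have h6 : (2187 / 1280 : ℝ) / (n : ℝ) ^ 4 ≤ 0.0014 := by
      rw [div_le_iff₀ (by positivity)]; nlinarith
    rw [mul_assoc, e]
    apply mul_le_mul_of_nonneg_left _ (by positivity)
    linarith

end IM66
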