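import Pool.Agent.IM66.Mean
import Pool.Agent.IM66.MeanHG
import Pool.Agent.IM66.Num
import Pool.Agent.IM66.Coef66
import Pool.Agent.IM66.Gauge
import Pool.Agent.Reg66.Lift

/-!
# Integral means and coefficients of univalent harmonic maps: assembly
-/

set_option autoImplicit false

namespace IM66

open Complex Metric Set MeasureTheory Filter Topology ComplexConjugate Nat

/-- the majorant `(1+r)^2 (1+r^2) / (1-r^2)^3` -/
noncomputable def maj (r : ℝ) : ℝ := (1 + r) ^ 2 * (1 + r ^ 2) / (1 - r ^ 2) ^ 3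

/-- mean of `‖L'‖` for achronal lifts -/
theorem mean_ach {L F G R : ℂ → ℂ} (h : AllN24.AchLift L F G R) {r : ℝ} (hr0 : 0 < r)
    (hr1 : r < 1) : (2 * Real.pi)⁻¹ * ∫ θ in (0:ℝ)..2 * Real.pi, ‖deriv L (circleMap 0 r θ)‖ ≤
      ‖deriv L 0‖ * maj r := by
  obtain ⟨b, k, D, hk, _, hL⟩ := gauge h
  have h1 := mean_L D (L' := deriv L) (h.dL.deriv isOpen_ball).continuousOn hL hr0 hr1
  rw [hk] at h1
  exact h1

/-- mean of `‖h' + e g'‖` in `S_H` -/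
theorem mean_e {h g : ℂ → ℂ} (H : Pool.Agent.HU85.HarmU h g) (h0 : h 0 = 0) (g0 : g 0 = 0)
    {e : ℂ} (he : ‖e‖ = 1) {r : ℝ} (hr0 : 0 < r) (hr1 : r < 1) :
    (2 * Real.pi)⁻¹ * ∫ θ in (0:ℝ)..2 * Real.pi,
      ‖deriv h (circleMap 0 r θ) + e * deriv g (circleMap 0 r θ)‖ ≤
      ‖deriv h 0 + e * deriv g 0‖ * maj r := by
  obtain ⟨c, hc, F, G, R, hN⟩ := Reg66.lift H h0 g0 he
  set K : ℝ := ‖deriv h 0 + e * deriv g 0‖ with hK
  set L : ℂ → ℂ := fun z => c * (h z + e * g z) / ((K : ℝ) : ℂ) with hLdef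
  have hd : ∀ z ∈ ball (0:ℂ) 1, deriv L z = c * (deriv h z + e * deriv g z) / ((K : ℝ) : ℂ) := by
    intro z hz
    have h1 : HasDerivAt h (deriv h z) z :=
      (H.hd.differentiableAt (isOpen_ball.mem_nhds hz)).hasDerivAt
    have h2 : HasDerivAt g (deriv g z) z :=
      (H.gd.differentiableAt (isOpen_ball.mem_nhds hz)).hasDerivAt
    exact (((h1.add (h2.const_mul e)).const_mul c).div_const _).deriv
  have hK0 : 0 ≤ K := norm_nonneg _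
  have hKne : K ≠ 0 := by
    intro h0K
    have h1 := hN.L1
    rw [hd 0 (by simp), h0K] at h1
    simp at h1
  have hKpos : 0 < K := lt_of_le_of_ne hK0 (Ne.symm hKne)
  have h1 := mean_ach hN.toAchLift hr0 hr1
  rw [hN.L1, one_mul] at h1
  have h2 : ∀ θ : ℝ, ‖deriv L (circleMap 0 r θ)‖ =
      K⁻¹ * ‖deriv h (circleMap 0 r θ) + e * deriv g (circleMap 0 r θ)‖ := by
    intro θ
    rw [hd _ (by
      rw [mem_ball_zero_iff, norm_circleMap_zero, abs_of_pos hr0]; exact hr1), norm_div, norm_mul,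
      hc, one_mul, Complex.norm_real, Real.norm_eq_abs, abs_of_pos hKpos]
    ring
  simp_rw [h2, intervalIntegral.integral_const_mul] at h1
  have h3 := mul_le_mul_of_nonneg_left h1 hK0
  calc _ = K * ((2 * Real.pi)⁻¹ * (K⁻¹ * ∫ θ in (0:ℝ)..2 * Real.pi,
        ‖deriv h (circleMap 0 r θ) + e * deriv g (circleMap 0 r θ)‖)) := by
        field_simp
    _ ≤ K * maj r := h3

theorem maj_nonneg {r : ℝ} (hr0 : 0 < r) (hr1 : r < 1) : 0 ≤ maj r := by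
  unfold maj
  have : 0 < 1 - r ^ 2 := by nlinarith
  positivity

/-- coefficient bounds from the means -/
theorem coeff_of_mean {f : ℂ → ℂ} (df : DifferentiableOn ℂ f (ball 0 1)) {K : ℝ} (hK : 0 < K)
    (H : ∀ r : ℝ, 0 < r → r < 1 → (2 * Real.pi)⁻¹ * ∫ θ in (0:ℝ)..2 * Real.pi,
      ‖deriv f (circleMap 0 r θ)‖ ≤ K * maj r) {n : ℕ} (hn : 1 ≤ n) :
    ‖iteratedDeriv n f 0‖ / (n ! : ℝ) ≤ (3 / 4 * (n:ℝ) ^ 2 + 3 / 2) * K ∧
    ‖iteratedDeriv n f 0‖ / (n ! : ℝ) ≤ Real.exp 3 / 27 * ((n:ℝ) ^ 2 + 5 / 2) * K := by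
  have e1 : ‖iteratedDeriv n f 0 / (n ! : ℂ)‖ = ‖iteratedDeriv n f 0‖ / (n ! : ℝ) := by
    rw [norm_div, Complex.norm_natCast]
  set A := ‖iteratedDeriv n f 0‖ / (n ! : ℝ) with hA
  have hA0 : 0 ≤ A := by positivity
  have key : ∀ r : ℝ, 0 < r → r < 1 → (n:ℝ) * (A / K) * r ^ (n - 1) ≤
      (1 + r) ^ 2 * (1 + r ^ 2) / (1 - r ^ 2) ^ 3 := by
    intro r hr0 hr1
    have h1 := (coef66 df hn hr0 hr1).trans (H r hr0 hr1)
    rw [e1] at h1
    have h2 : (n:ℝ) * (A / K) * r ^ (n - 1) = ((n:ℝ) * A * r ^ (n - 1)) / K := by ring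
    rw [h2, div_le_iff₀ hK]
    unfold maj at h1
    linarith
  have h1 := num hn (div_nonneg hA0 hK.le) key
  have h2 := num2 hn (div_nonneg hA0 hK.le) key
  rw [div_le_iff₀ hK] at h1 h2
  exact ⟨h1, h2⟩

/-- **Integral means and coefficients in `S_H`** -/
theorem main {h g : ℂ → ℂ} (H : Pool.Agent.HU85.HarmU h g) (h0 : h 0 = 0) (g0 : g 0 = 0)
    (h1 : deriv h 0 = 1) :
    (∀ r : ℝ, 0 < r → r < 1 →
      (∀ e : ℂ, ‖e‖ = 1 → (2 * Real.pi)⁻¹ * ∫ θ in (0:ℝ)..2 * Real.pi,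
        ‖deriv h (circleMap 0 r θ) + e * deriv g (circleMap 0 r θ)‖ ≤
          ‖1 + e * deriv g 0‖ * maj r) ∧
      (2 * Real.pi)⁻¹ * ∫ θ in (0:ℝ)..2 * Real.pi, ‖deriv h (circleMap 0 r θ)‖ ≤ maj r ∧
      (2 * Real.pi)⁻¹ * ∫ θ in (0:ℝ)..2 * Real.pi, ‖deriv g (circleMap 0 r θ)‖ ≤ maj r) ∧
    ∀ n : ℕ, 1 ≤ n →
      (‖iteratedDeriv n h 0‖ / (n ! : ℝ) ≤ 3 / 4 * (n:ℝ) ^ 2 + 3 / 2 ∧
        ‖iteratedDeriv n h 0‖ / (n ! : ℝ) ≤ Real.exp 3 / 27 * ((n:ℝ) ^ 2 + 5 / 2)) ∧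
      (‖iteratedDeriv n g 0‖ / (n ! : ℝ) ≤ 3 / 4 * (n:ℝ) ^ 2 + 3 / 2 ∧
        ‖iteratedDeriv n g 0‖ / (n ! : ℝ) ≤ Real.exp 3 / 27 * ((n:ℝ) ^ 2 + 5 / 2)) ∧
      ∀ e : ℂ, ‖e‖ = 1 →
        ‖iteratedDeriv n h 0 + e * iteratedDeriv n g 0‖ / (n ! : ℝ) ≤
          (3 / 4 * (n:ℝ) ^ 2 + 3 / 2) * ‖1 + e * deriv g 0‖ ∧
        ‖iteratedDeriv n h 0 + e * iteratedDeriv n g 0‖ / (n ! : ℝ) ≤
          Real.exp 3 / 27 * ((n:ℝ) ^ 2 + 5 / 2) * ‖1 + e * deriv g 0‖ := by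
  have hb : ‖deriv g 0‖ < 1 := by
    have h2 := H.lt 0 (by simp)
    rwa [h1, norm_one] at h2
  have hE : ∀ r : ℝ, 0 < r → r < 1 → ∀ e : ℂ, ‖e‖ = 1 → (2 * Real.pi)⁻¹ *
      ∫ θ in (0:ℝ)..2 * Real.pi,
        ‖deriv h (circleMap 0 r θ) + e * deriv g (circleMap 0 r θ)‖ ≤
          ‖1 + e * deriv g 0‖ * maj r := by
    intro r hr0 hr1 e he
    have h2 := mean_e H h0 g0 he hr0 hr1
    rwa [h1] at h2
  have hHG : ∀ r : ℝ, 0 < r → r < 1 →
      (2 * Real.pi)⁻¹ * ∫ θ in (0:ℝ)..2 * Real.pi, ‖deriv h (circleMap 0 r θ)‖ ≤ maj r ∧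
      (2 * Real.pi)⁻¹ * ∫ θ in (0:ℝ)..2 * Real.pi, ‖deriv g (circleMap 0 r θ)‖ ≤ maj r :=
    fun r hr0 hr1 => mean_hg H.hd H.gd h1 hb hr0 hr1 (hE r hr0 hr1)
  refine ⟨fun r hr0 hr1 => ⟨hE r hr0 hr1, hHG r hr0 hr1⟩, ?_⟩
  intro n hn
  refine ⟨?_, ?_, ?_⟩
  · have h2 := coeff_of_mean H.hd one_pos (fun r hr0 hr1 => by
      rw [one_mul]; exact (hHG r hr0 hr1).1) hn
    rwa [mul_one, mul_one] at h2
  · have h2 := coeff_of_mean H.gd one_pos (fun r hr0 hr1 => by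
      rw [one_mul]; exact (hHG r hr0 hr1).2) hn
    rwa [mul_one, mul_one] at h2
  · intro e he
    have hpos : 0 < ‖1 + e * deriv g 0‖ := by
      rw [norm_pos_iff]
      exact one_add_mul_ne hb he.le
    have hd : DifferentiableOn ℂ (fun z => h z + e * g z) (ball 0 1) :=
      H.hd.add (H.gd.const_mul e)
    have h2 := coeff_of_mean hd hpos (fun r hr0 hr1 => by
      have h3 := hE r hr0 hr1 e he
      refine le_trans (le_of_eq ?_) h3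
      congr 1
      congr 1
      ext θ
      have hz : circleMap 0 r θ ∈ ball (0:ℂ) 1 := by
        rw [mem_ball_zero_iff, norm_circleMap_zero, abs_of_pos hr0]; exact hr1
      have d1 : HasDerivAt h (deriv h (circleMap 0 r θ)) (circleMap 0 r θ) :=
        (H.hd.differentiableAt (isOpen_ball.mem_nhds hz)).hasDerivAt
      have d2 : HasDerivAt g (deriv g (circleMap 0 r θ)) (circleMap 0 r θ) :=
        (H.gd.differentiableAt (isOpen_ball.mem_nhds hz)).hasDerivAt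
      have d3 : HasDerivAt (fun z => h z + e * g z) _ (circleMap 0 r θ) :=
        d1.add (d2.const_mul e)
      rw [d3.deriv]) hn
    have e2 : iteratedDeriv n (fun z => h z + e * g z) 0 =
        iteratedDeriv n h 0 + e * iteratedDeriv n g 0 := by
      have hb0 : (0 : ℂ) ∈ ball (0 : ℂ) 1 := by simp
      have a1 : ContDiffAt ℂ n h 0 := ((H.hd.analyticOnNhd isOpen_ball) 0 hb0).contDiffAt
      have a2 : ContDiffAt ℂ n (fun z => e * g z) 0 :=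
        (((H.gd.const_mul e).analyticOnNhd isOpen_ball) 0 hb0).contDiffAt
      have e4 : (fun z => h z + e * g z) = h + fun z => e * g z := rfl
      rw [e4, iteratedDeriv_add a1 a2, iteratedDeriv_const_mul_field]
    rw [e2] at h2
    exact h2

end IM66
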