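import Pool.Agent.IM66.SH

/-!
# Sharp integral means and coefficient bounds for the class `S_H`, in hand-in form
-/

set_option autoImplicit false

namespace IM66

/-- For every `f = h + conj g` in `S_H`, every unimodular `e` and every `0 < r < 1`, the circle mean
of `|h' + e g'|` over `|z| = r` is at most `|1 + e b 1| (1 + r)² (1 + r²) / (1 - r²)³`, those of
`|h'|` and `|g'|` are at most `(1 + r)² (1 + r²) / (1 - r²)³`, and for every `n ≥ 1`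
`|a n + e b n| ≤ |1 + e b 1| c n`, `|a n| ≤ c n` and `|b n| ≤ c n` with `c n = 3 n ^ 2 / 4 + 3 / 2`
and also with `c n = (exp 3 / 27) (n ^ 2 + 5 / 2)`. -/
theorem final :
    ∀ h g : ℂ → ℂ,
      DifferentiableOn ℂ h (Metric.ball (0 : ℂ) 1) →
      DifferentiableOn ℂ g (Metric.ball (0 : ℂ) 1) →
      h 0 = 0 → g 0 = 0 → deriv h 0 = 1 →
      (∀ z ∈ Metric.ball (0 : ℂ) 1, ‖deriv g z‖ < ‖deriv h z‖) →
      Set.InjOn (fun z => h z + (starRingEnd ℂ) (g z)) (Metric.ball (0 : ℂ) 1) →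
      (∀ r : ℝ, 0 < r → r < 1 →
        (2 * Real.pi)⁻¹ * (∫ θ in (0 : ℝ)..2 * Real.pi, ‖deriv h (circleMap 0 r θ)‖) ≤
            (1 + r) ^ 2 * (1 + r ^ 2) / (1 - r ^ 2) ^ 3 ∧
        (2 * Real.pi)⁻¹ * (∫ θ in (0 : ℝ)..2 * Real.pi, ‖deriv g (circleMap 0 r θ)‖) ≤
            (1 + r) ^ 2 * (1 + r ^ 2) / (1 - r ^ 2) ^ 3 ∧
        ∀ e : ℂ, ‖e‖ = 1 →
          (2 * Real.pi)⁻¹ * (∫ θ in (0 : ℝ)..2 * Real.pi,
            ‖deriv h (circleMap 0 r θ) + e * deriv g (circleMap 0 r θ)‖) ≤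
            ‖1 + e * deriv g 0‖ * ((1 + r) ^ 2 * (1 + r ^ 2) / (1 - r ^ 2) ^ 3)) ∧
      ∀ n : ℕ, 1 ≤ n → ∀ c : ℝ,
        (c = 3 / 4 * (n : ℝ) ^ 2 + 3 / 2 ∨ c = Real.exp 3 / 27 * ((n : ℝ) ^ 2 + 5 / 2)) →
        ‖iteratedDeriv n h 0‖ / (n.factorial : ℝ) ≤ c ∧
        ‖iteratedDeriv n g 0‖ / (n.factorial : ℝ) ≤ c ∧
        ∀ e : ℂ, ‖e‖ = 1 →
          ‖iteratedDeriv n h 0 + e * iteratedDeriv n g 0‖ / (n.factorial : ℝ) ≤
            ‖1 + e * deriv g 0‖ * c := by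
  intro h g dh dg h0 g0 h1 hlt hinj
  have H : Pool.Agent.HU85.HarmU h g := ⟨dh, dg, hlt, hinj⟩
  refine ⟨fun r hr0 hr1 => ?_, fun n hn c hc => ?_⟩
  · have hb := mean_both H h0 g0 h1 hr0 hr1
    exact ⟨hb.1, hb.2, fun e he => mean_dir H h0 g0 h1 he hr0 hr1⟩
  · have hb := coef_both H h0 g0 h1 hn
    rcases hc with rfl | rfl
    · exact ⟨hb.1.1, hb.2.1, fun e he => (coef_dir H h0 g0 h1 he hn).1⟩
    · exact ⟨hb.1.2, hb.2.2, fun e he => (coef_dir H h0 g0 h1 he hn).2⟩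

end IM66
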