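import Pool.Agent.IM66.Defs

/-!
# One-variable facts
-/

set_option autoImplicit false

namespace IM66

open Set Filter Topology

theorem exp_two_lt_one {t : ℝ} (ht : t < 0) : Real.exp (2 * t) < 1 := by
  rw [Real.exp_lt_one_iff]; linarith

theorem one_lt_cc {t : ℝ} (ht : t < 0) : 1 < cc t := by
  unfold cc
  have h1 := Real.exp_pos (2 * t)
  have h2 := exp_two_lt_one ht
  rw [one_lt_div (by linarith)]
  linarith

theorem cc_sq_sub_one {t : ℝ} (ht : t < 0) :
    cc t ^ 2 - 1 = 4 * Real.exp (2 * t) / (1 - Real.exp (2 * t)) ^ 2 := by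
  unfold cc
  have h2 := exp_two_lt_one ht
  have h3 : (1 - Real.exp (2 * t)) ≠ 0 := by
    have : 0 < 1 - Real.exp (2 * t) := by linarith
    exact this.ne'
  field_simp
  ring

theorem hasDerivAt_cc {t : ℝ} (ht : t < 0) : HasDerivAt cc (cc t ^ 2 - 1) t := by
  have h2 := exp_two_lt_one ht
  have h3 : (1 - Real.exp (2 * t)) ≠ 0 := by
    have : 0 < 1 - Real.exp (2 * t) := by linarith
    exact this.ne'
  have h4 : HasDerivAt (fun t : ℝ => Real.exp (2 * t)) (Real.exp (2 * t) * 2) t := by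
    have h5 : HasDerivAt (fun t : ℝ => 2 * t) 2 t := by
      simpa using (hasDerivAt_id t).const_mul 2
    exact h5.exp
  have h6 := (h4.const_add 1).div (h4.const_sub 1) h3
  rw [cc_sq_sub_one ht]
  have e : (Real.exp (2 * t) * 2 * (1 - Real.exp (2 * t)) -
      (1 + Real.exp (2 * t)) * -(Real.exp (2 * t) * 2)) / (1 - Real.exp (2 * t)) ^ 2 =
      4 * Real.exp (2 * t) / (1 - Real.exp (2 * t)) ^ 2 := by
    congr 1
    ring
  rw [e] at h6
  exact h6

theorem hasDerivAt_gg {T t : ℝ} (ht : t < 0) :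
    HasDerivAt (gg T) (-(1 / cc t ^ 2)) t := by
  have hc := one_lt_cc ht
  have h1 : cc t ≠ 0 := by linarith
  have h2 := (hasDerivAt_cc ht).inv h1
  have h3 : HasDerivAt (fun t : ℝ => T - t) (-1) t := by
    simpa using (hasDerivAt_id t).const_sub T
  have h4 := (h3.add_const ((cc T)⁻¹)).sub h2
  have e : (-1 : ℝ) - -(cc t ^ 2 - 1) / cc t ^ 2 = -(1 / cc t ^ 2) := by
    field_simp
    ring
  rw [e] at h4
  exact h4

theorem cc_mono {s t : ℝ} (hst : s ≤ t) (ht : t < 0) : cc s ≤ cc t := by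
  have h1 : Real.exp (2 * s) ≤ Real.exp (2 * t) := Real.exp_le_exp.mpr (by linarith)
  have h2 := exp_two_lt_one ht
  have h3 := Real.exp_pos (2 * s)
  unfold cc
  rw [div_le_div_iff₀ (by linarith) (by linarith)]
  nlinarith

theorem K_nonneg {T : ℝ} (hT : T < 0) : 0 ≤ KK T := by
  have := one_lt_cc hT
  unfold KK
  positivity

theorem K_mul {T : ℝ} (hT : T < 0) : KK T * cc T ^ 3 = 1 := by
  have := one_lt_cc hT
  have h : cc T ≠ 0 := by linarith
  unfold KK
  rw [← mul_pow, inv_mul_cancel₀ h, one_pow]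

theorem K_le {T t : ℝ} (hT : T < 0) (ht : t ≤ T) : KK T * cc t ^ 3 ≤ 1 := by
  rw [← K_mul hT]
  have h1 := cc_mono ht hT
  have h2 := one_lt_cc (lt_of_le_of_lt ht hT)
  exact mul_le_mul_of_nonneg_left (pow_le_pow_left₀ (by linarith) h1 3) (K_nonneg hT)

theorem gg_self (T : ℝ) : gg T T = 0 := by
  unfold gg; ring

/-- a function with nonpositive derivative on `(-∞, T]` vanishing at `T` is nonnegative -/
theorem nonneg_of_deriv_nonpos {f f' : ℝ → ℝ} {T : ℝ} (h0 : f T = 0)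
    (hd : ∀ t : ℝ, t ≤ T → HasDerivAt f (f' t) t) (hp : ∀ t : ℝ, t ≤ T → f' t ≤ 0)
    {t : ℝ} (ht : t ≤ T) : 0 ≤ f t := by
  have hanti : AntitoneOn f (Set.Iic T) := by
    apply antitoneOn_of_deriv_nonpos (convex_Iic T)
    · intro s hs
      exact (hd s hs).continuousAt.continuousWithinAt
    · intro s hs
      rw [interior_Iic] at hs
      exact (hd s (le_of_lt hs)).differentiableAt.differentiableWithinAt
    · intro s hs
      rw [interior_Iic] at hs
      rw [(hd s (le_of_lt hs)).deriv]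
      exact hp s (le_of_lt hs)
  have := hanti (Set.mem_Iic.mpr ht) (Set.mem_Iic.mpr le_rfl) ht
  rw [h0] at this
  exact this

/-- `f1 = g - (c⁻³ - K) / 3 ≥ 0` -/
theorem f1_nonneg {T t : ℝ} (hT : T < 0) (ht : t ≤ T) :
    0 ≤ gg T t - ((cc t ^ 3)⁻¹ - KK T) / 3 := by
  refine nonneg_of_deriv_nonpos (f := fun t => gg T t - ((cc t ^ 3)⁻¹ - KK T) / 3)
    (f' := fun t => -(1 / cc t ^ 4)) ?_ ?_ ?_ ht
  · have h1 := K_mul hT
    have h2 := one_lt_cc hT
    have h3 : cc T ^ 3 ≠ 0 := pow_ne_zero 3 (by linarith)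
    have h4 : KK T = (cc T ^ 3)⁻¹ := by
      unfold KK; rw [inv_pow]
    simp only [gg_self, h4]
    ring
  · intro s hs
    have hs0 : s < 0 := lt_of_le_of_lt hs hT
    have hc := one_lt_cc hs0
    have h1 : cc s ≠ 0 := by linarith
    have h2 : HasDerivAt (fun t => cc t ^ 3) (3 * cc s ^ 2 * (cc s ^ 2 - 1)) s := by
      have := (hasDerivAt_cc hs0).pow 3
      norm_num at this
      exact this
    have h3 := (h2.inv (pow_ne_zero 3 h1))
    have h4 : HasDerivAt (fun t => gg T t - ((cc t ^ 3)⁻¹ - KK T) / 3)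
        (-(1 / cc s ^ 2) - (-(3 * cc s ^ 2 * (cc s ^ 2 - 1)) / (cc s ^ 3) ^ 2) / 3) s :=
      (hasDerivAt_gg hs0).sub ((h3.sub_const (KK T)).div_const 3)
    have e : (-(1 / cc s ^ 2) - (-(3 * cc s ^ 2 * (cc s ^ 2 - 1)) / (cc s ^ 3) ^ 2) / 3 : ℝ) =
        -(1 / cc s ^ 4) := by
      field_simp
      ring
    rw [e] at h4
    exact h4
  · intro s hs
    have hs0 : s < 0 := lt_of_le_of_lt hs hT
    have hc := one_lt_cc hs0
    have : 0 ≤ 1 / cc s ^ 4 := by positivity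
    linarith

/-- lower bound for `g` -/
theorem g_ge {T t : ℝ} (hT : T < 0) (ht : t ≤ T) :
    1 - KK T * cc t ^ 3 ≤ 3 * cc t ^ 3 * gg T t := by
  have h1 := f1_nonneg hT ht
  have hc := one_lt_cc (lt_of_le_of_lt ht hT)
  have h2 : (0 : ℝ) < cc t ^ 3 := by positivity
  have h3 : 0 ≤ 3 * cc t ^ 3 * (gg T t - ((cc t ^ 3)⁻¹ - KK T) / 3) :=
    mul_nonneg (by positivity) h1
  have h4 : 3 * cc t ^ 3 * (gg T t - ((cc t ^ 3)⁻¹ - KK T) / 3) =
      3 * cc t ^ 3 * gg T t - (1 - KK T * cc t ^ 3) := by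
    field_simp
  rw [h4] at h3
  linarith

/-- upper bound for `g` -/
theorem g_le {T t : ℝ} (hT : T < 0) (ht : t ≤ T) :
    3 * cc t * ((cc t ^ 2 - 1) * gg T t) ≤ 1 - KK T * cc t ^ 3 := by
  have key : 0 ≤ (1 - KK T * cc t ^ 3) / (3 * cc t) - (cc t ^ 2 - 1) * gg T t := by
    refine nonneg_of_deriv_nonpos
      (f := fun t => (1 - KK T * cc t ^ 3) / (3 * cc t) - (cc t ^ 2 - 1) * gg T t)
      (f' := fun t => -(2 * cc t * (cc t ^ 2 - 1) *
        (gg T t - ((cc t ^ 3)⁻¹ - KK T) / 3))) ?_ ?_ ?_ ht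
    · have h1 := K_mul hT
      simp only [gg_self, h1]
      simp
    · intro s hs
      have hs0 : s < 0 := lt_of_le_of_lt hs hT
      have hc := one_lt_cc hs0
      have h1 : cc s ≠ 0 := by linarith
      have h2 : HasDerivAt (fun t => cc t ^ 3) (3 * cc s ^ 2 * (cc s ^ 2 - 1)) s := by
        have := (hasDerivAt_cc hs0).pow 3
        norm_num at this
        exact this
      have h3 : HasDerivAt (fun t => cc t ^ 2) (2 * cc s * (cc s ^ 2 - 1)) s := by
        have := (hasDerivAt_cc hs0).pow 2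
        norm_num at this
        exact this
      have h5 : HasDerivAt (fun t => (1 - KK T * cc t ^ 3) / (3 * cc t))
          ((-(KK T * (3 * cc s ^ 2 * (cc s ^ 2 - 1))) * (3 * cc s) -
            (1 - KK T * cc s ^ 3) * (3 * (cc s ^ 2 - 1))) / (3 * cc s) ^ 2) s :=
        ((h2.const_mul (KK T)).const_sub 1).div ((hasDerivAt_cc hs0).const_mul 3)
          (mul_ne_zero three_ne_zero h1)
      have h6 := h5.sub ((h3.sub_const 1).mul (hasDerivAt_gg (T := T) hs0))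
      have e : ((-(KK T * (3 * cc s ^ 2 * (cc s ^ 2 - 1))) * (3 * cc s) -
            (1 - KK T * cc s ^ 3) * (3 * (cc s ^ 2 - 1))) / (3 * cc s) ^ 2 -
          (2 * cc s * (cc s ^ 2 - 1) * gg T s + (cc s ^ 2 - 1) * -(1 / cc s ^ 2))) =
          -(2 * cc s * (cc s ^ 2 - 1) * (gg T s - ((cc s ^ 3)⁻¹ - KK T) / 3)) := by
        field_simp
        ring
      rw [e] at h6
      exact h6
    · intro s hs
      have hs0 : s < 0 := lt_of_le_of_lt hs hT
      have hc := one_lt_cc hs0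
      have h1 := f1_nonneg hT hs
      have h2 : 0 ≤ 2 * cc s * (cc s ^ 2 - 1) * (gg T s - ((cc s ^ 3)⁻¹ - KK T) / 3) := by
        apply mul_nonneg _ h1
        apply mul_nonneg (by linarith)
        nlinarith
      linarith
  have hc := one_lt_cc (lt_of_le_of_lt ht hT)
  have h2 : (0 : ℝ) < 3 * cc t := by linarith
  have h3 : (cc t ^ 2 - 1) * gg T t ≤ (1 - KK T * cc t ^ 3) / (3 * cc t) := by linarith
  rw [le_div_iff₀ h2] at h3
  linarith

theorem hasDerivAt_lam {K t : ℝ} (ht : t < 0) :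
    HasDerivAt (fun t => lam K (cc t)) (-(3 * K * cc t ^ 2) - 2 * cc t * lam K (cc t)) t := by
  have hc := one_lt_cc ht
  have h1 : cc t ^ 2 - 1 ≠ 0 := by
    have : 0 < cc t ^ 2 - 1 := by nlinarith
    exact this.ne'
  have h2 : HasDerivAt (fun t => cc t ^ 3) (3 * cc t ^ 2 * (cc t ^ 2 - 1)) t := by
    have := (hasDerivAt_cc ht).pow 3
    norm_num at this
    exact this
  have h3 : HasDerivAt (fun t => cc t ^ 2) (2 * cc t * (cc t ^ 2 - 1)) t := by
    have := (hasDerivAt_cc ht).pow 2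
    norm_num at this
    exact this
  have h4 : HasDerivAt (fun t => (1 - K * cc t ^ 3) / (cc t ^ 2 - 1))
      ((-(K * (3 * cc t ^ 2 * (cc t ^ 2 - 1))) * (cc t ^ 2 - 1) -
        (1 - K * cc t ^ 3) * (2 * cc t * (cc t ^ 2 - 1))) / (cc t ^ 2 - 1) ^ 2) t :=
    ((h2.const_mul K).const_sub 1).div (h3.sub_const 1) h1
  have e : ((-(K * (3 * cc t ^ 2 * (cc t ^ 2 - 1))) * (cc t ^ 2 - 1) -
        (1 - K * cc t ^ 3) * (2 * cc t * (cc t ^ 2 - 1))) / (cc t ^ 2 - 1) ^ 2) =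
      -(3 * K * cc t ^ 2) - 2 * cc t * ((1 - K * cc t ^ 3) / (cc t ^ 2 - 1)) := by
    field_simp
  rw [e] at h4
  exact h4

theorem lam_mul {K c : ℝ} (hc : 1 < c) : lam K c * (c ^ 2 - 1) = 1 - K * c ^ 3 := by
  have h1 : c ^ 2 - 1 ≠ 0 := by
    have : 0 < c ^ 2 - 1 := by nlinarith
    exact this.ne'
  unfold lam
  field_simp

theorem hasDerivAt_fA {T t : ℝ} (ht : t < 0) :
    HasDerivAt (fun t => fA (KK T) (cc t) (gg T t)) (fA1 (KK T) (cc t) (gg T t)) t := by
  have hc := one_lt_cc ht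
  have h0 : cc t ≠ 0 := by linarith
  have h1 : HasDerivAt (fun t => 3 * cc t * gg T t)
      (3 * (cc t ^ 2 - 1) * gg T t + 3 * cc t * -(1 / cc t ^ 2)) t :=
    ((hasDerivAt_cc ht).const_mul 3).mul (hasDerivAt_gg ht)
  have h2 := (h1.sub (hasDerivAt_lam (K := KK T) ht)).div_const 2
  have e : (3 * (cc t ^ 2 - 1) * gg T t + 3 * cc t * -(1 / cc t ^ 2) -
      (-(3 * KK T * cc t ^ 2) - 2 * cc t * lam (KK T) (cc t))) / 2 =
      fA1 (KK T) (cc t) (gg T t) := by
    unfold fA1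
    field_simp
    ring
  rw [e] at h2
  exact h2

theorem hasDerivAt_fA1 {T t : ℝ} (ht : t < 0) :
    HasDerivAt (fun t => fA1 (KK T) (cc t) (gg T t)) (fA2 (KK T) (cc t) (gg T t)) t := by
  have hc := one_lt_cc ht
  have h0 : cc t ≠ 0 := by linarith
  have h3 : HasDerivAt (fun t => cc t ^ 2) (2 * cc t * (cc t ^ 2 - 1)) t := by
    have := (hasDerivAt_cc ht).pow 2
    norm_num at this
    exact this
  have h1 : HasDerivAt (fun t => 3 * (cc t ^ 2 - 1) * gg T t)
      (3 * (2 * cc t * (cc t ^ 2 - 1)) * gg T t + 3 * (cc t ^ 2 - 1) * -(1 / cc t ^ 2)) t :=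
    ((h3.sub_const 1).const_mul 3).mul (hasDerivAt_gg ht)
  have h2 : HasDerivAt (fun t => 3 / cc t) ((0 * cc t - 3 * (cc t ^ 2 - 1)) / cc t ^ 2) t :=
    (hasDerivAt_const t (3 : ℝ)).div (hasDerivAt_cc ht) h0
  have h4 : HasDerivAt (fun t => 3 * KK T * cc t ^ 2)
      (3 * KK T * (2 * cc t * (cc t ^ 2 - 1))) t := h3.const_mul (3 * KK T)
  have h5 : HasDerivAt (fun t => 2 * cc t * lam (KK T) (cc t))
      (2 * (cc t ^ 2 - 1) * lam (KK T) (cc t) +
        2 * cc t * (-(3 * KK T * cc t ^ 2) - 2 * cc t * lam (KK T) (cc t))) t :=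
    ((hasDerivAt_cc ht).const_mul 2).mul (hasDerivAt_lam ht)
  have h6 := ((((h1.sub h2).add h4).add h5).div_const 2)
  have e : ((3 * (2 * cc t * (cc t ^ 2 - 1)) * gg T t + 3 * (cc t ^ 2 - 1) * -(1 / cc t ^ 2) -
      (0 * cc t - 3 * (cc t ^ 2 - 1)) / cc t ^ 2 + 3 * KK T * (2 * cc t * (cc t ^ 2 - 1)) +
      (2 * (cc t ^ 2 - 1) * lam (KK T) (cc t) +
        2 * cc t * (-(3 * KK T * cc t ^ 2) - 2 * cc t * lam (KK T) (cc t)))) / 2) =
      fA2 (KK T) (cc t) (gg T t) := by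
    unfold fA2
    field_simp
    ring
  rw [e] at h6
  exact h6

theorem hasDerivAt_fm {T t : ℝ} (ht : t < 0) :
    HasDerivAt (fun t => fm (KK T) (cc t) (gg T t)) (fm1 (KK T) (cc t)) t := by
  have hc := one_lt_cc ht
  have h0 : cc t ≠ 0 := by linarith
  have h1 : HasDerivAt (fun t => lam (KK T) (cc t) / cc t)
      (((-(3 * KK T * cc t ^ 2) - 2 * cc t * lam (KK T) (cc t)) * cc t -
        lam (KK T) (cc t) * (cc t ^ 2 - 1)) / cc t ^ 2) t :=
    (hasDerivAt_lam ht).div (hasDerivAt_cc ht) h0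
  have h2 := (h1.sub (hasDerivAt_gg (T := T) ht)).div_const 2
  have e : (((-(3 * KK T * cc t ^ 2) - 2 * cc t * lam (KK T) (cc t)) * cc t -
        lam (KK T) (cc t) * (cc t ^ 2 - 1)) / cc t ^ 2 - -(1 / cc t ^ 2)) / 2 =
      fm1 (KK T) (cc t) := by
    unfold fm1
    rw [lam_mul hc]
    field_simp
    ring
  rw [e] at h2
  exact h2

theorem hasDerivAt_fm1 {T t : ℝ} (ht : t < 0) :
    HasDerivAt (fun t => fm1 (KK T) (cc t)) (fm2 (KK T) (cc t)) t := by
  have h1 := (((hasDerivAt_cc ht).const_mul (KK T)).neg).sub (hasDerivAt_lam (K := KK T) ht)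
  have e : -(KK T * (cc t ^ 2 - 1)) - (-(3 * KK T * cc t ^ 2) - 2 * cc t * lam (KK T) (cc t)) =
      fm2 (KK T) (cc t) := by
    unfold fm2
    ring
  rw [e] at h1
  exact h1

theorem lam_T {T : ℝ} (hT : T < 0) : lam (KK T) (cc T) = 0 := by
  unfold lam
  rw [K_mul hT]
  simp

theorem fA_T {T : ℝ} (hT : T < 0) : fA (KK T) (cc T) (gg T T) = 0 := by
  unfold fA
  rw [gg_self, lam_T hT]
  simp

theorem fA1_T {T : ℝ} (hT : T < 0) : fA1 (KK T) (cc T) (gg T T) = 0 := by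
  have hc := one_lt_cc hT
  have h0 : cc T ≠ 0 := by linarith
  have h1 := K_mul hT
  unfold fA1
  rw [gg_self, lam_T hT]
  have h2 : KK T * cc T ^ 2 = 1 / cc T := by
    rw [eq_div_iff h0]
    linarith
  have h3 : 3 * KK T * cc T ^ 2 = 3 / cc T := by
    rw [mul_assoc, h2]; ring
  rw [h3]
  ring

theorem fm_T {T : ℝ} (hT : T < 0) : fm (KK T) (cc T) (gg T T) = 0 := by
  unfold fm
  rw [gg_self, lam_T hT]
  simp

theorem fm1_T {T : ℝ} (hT : T < 0) : fm1 (KK T) (cc T) = -(1 / cc T ^ 2) := by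
  have hc := one_lt_cc hT
  have h0 : cc T ≠ 0 := by linarith
  have h1 := K_mul hT
  unfold fm1
  rw [lam_T hT]
  have h2 : KK T * cc T = 1 / cc T ^ 2 := by
    rw [eq_div_iff (pow_ne_zero 2 h0)]
    linarith
  rw [h2]
  ring

theorem tendsto_exp_two : Tendsto (fun t : ℝ => Real.exp (2 * t)) atBot (𝓝 0) := by
  have h : Tendsto (fun t : ℝ => 2 * t) atBot atBot :=
    tendsto_id.const_mul_atBot (by norm_num)
  exact Real.tendsto_exp_atBot.comp h

theorem tendsto_cc : Tendsto cc atBot (𝓝 1) := by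
  have h := tendsto_exp_two
  have h1 : Tendsto (fun t : ℝ => (1 + Real.exp (2 * t)) / (1 - Real.exp (2 * t))) atBot
      (𝓝 ((1 + 0) / (1 - 0))) := (h.const_add 1).div (h.const_sub 1) (by norm_num)
  norm_num at h1
  exact h1

theorem tendsto_mul_exp : Tendsto (fun t : ℝ => Real.exp t * t) atBot (𝓝 0) := by
  have h := (Real.tendsto_pow_mul_exp_neg_atTop_nhds_zero 1).comp tendsto_neg_atBot_atTop
  have h1 : (fun t : ℝ => Real.exp t * t) =
      fun t => -(((fun x : ℝ => x ^ 1 * Real.exp (-x)) ∘ Neg.neg) t) := by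
    ext t
    simp only [Function.comp, neg_neg, pow_one]
    ring
  rw [h1]
  simpa using h.neg

/-- `e^t g → 0` -/
theorem tendsto_eg (T : ℝ) : Tendsto (fun t => Real.exp t * gg T t) atBot (𝓝 0) := by
  have h1 := Real.tendsto_exp_atBot
  have h2 : Tendsto (fun t => (cc t)⁻¹) atBot (𝓝 (1⁻¹)) := tendsto_cc.inv₀ one_ne_zero
  have h3 : Tendsto (fun t : ℝ => Real.exp t * (T + (cc T)⁻¹ - (cc t)⁻¹)) atBot
      (𝓝 (0 * (T + (cc T)⁻¹ - 1⁻¹))) := h1.mul (h2.const_sub _)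
  have h4 := h3.sub tendsto_mul_exp
  have e : (fun t => Real.exp t * gg T t) =
      fun t : ℝ => Real.exp t * (T + (cc T)⁻¹ - (cc t)⁻¹) - Real.exp t * t := by
    ext t
    unfold gg
    ring
  rw [e]
  simpa using h4

/-- `(c^2 - 1) g → 0` -/
theorem tendsto_sg (T : ℝ) : Tendsto (fun t => (cc t ^ 2 - 1) * gg T t) atBot (𝓝 0) := by
  have h1 := tendsto_eg T
  have h2 := Real.tendsto_exp_atBot
  have h3 := tendsto_exp_two
  have h4 : Tendsto (fun t : ℝ => 4 * Real.exp t / (1 - Real.exp (2 * t)) ^ 2) atBot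
      (𝓝 (4 * 0 / (1 - 0) ^ 2)) :=
    (h2.const_mul 4).div ((h3.const_sub 1).pow 2) (by norm_num)
  have h5 := h4.mul h1
  have h6 : Tendsto (fun t : ℝ => 4 * Real.exp t / (1 - Real.exp (2 * t)) ^ 2 *
      (Real.exp t * gg T t)) atBot (𝓝 0) := by simpa using h5
  refine h6.congr' ?_
  filter_upwards [eventually_lt_atBot 0] with t ht
  rw [cc_sq_sub_one ht]
  have : Real.exp (2 * t) = Real.exp t * Real.exp t := by
    rw [← Real.exp_add]; congr 1; ring
  rw [this]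
  ring

end IM66
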