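import Pool.Agent.IM66.Pos

/-!
# The flux at the centre
-/

set_option autoImplicit false

namespace IM66

open Complex Metric Set MeasureTheory Filter Topology ComplexConjugate

variable {h b : ℂ → ℂ} {T : ℝ} {ζ : ℂ}

theorem X_alg {K c g a p Q : ℂ} (hc : c ≠ 0) (hs : c ^ 2 - 1 ≠ 0) :
    (3 * (c ^ 2 - 1) * g - 3 / c + 3 * K * c ^ 2 + 2 * c * ((1 - K * c ^ 3) / (c ^ 2 - 1))) / 2 / 2
      + (-(K * c) - (1 - K * c ^ 3) / (c ^ 2 - 1)) / 2 * a
      + ((1 - K * c ^ 3) / (c ^ 2 - 1) / c - g) / 2 * p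
      - ((3 * c * g - (1 - K * c ^ 3) / (c ^ 2 - 1)) / 2
        + ((1 - K * c ^ 3) / (c ^ 2 - 1) / c - g) / 2 * a) * Q
    = (3 * ((c ^ 2 - 1) * g) - 3 / c + 3 * K * c ^ 2) / 4 - K * c * a / 2
      - ((c ^ 2 - 1) * g) / 2 * (p / (c ^ 2 - 1))
      + (1 - K * c ^ 3) / 2 * ((c - a) / (c ^ 2 - 1) + p / (c ^ 2 - 1) / c)
      - ((3 * c - a) / 2 * (g * Q) - (1 - K * c ^ 3) / (2 * c) * ((c - a) / (c ^ 2 - 1)) * Q) := by
  field_simp
  ring

theorem Xf_eq (hζ : ζ.re < 0) : Xf T h b ζ =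
    (3 * (((cc ζ.re ^ 2 - 1) * gg T ζ.re : ℝ) : ℂ) - 3 / (cc ζ.re : ℂ) +
      3 * (KK T : ℂ) * (cc ζ.re : ℂ) ^ 2) / 4 - (KK T : ℂ) * (cc ζ.re : ℂ) * ac b ζ / 2
      - (((cc ζ.re ^ 2 - 1) * gg T ζ.re : ℝ) : ℂ) / 2 * (pa b ζ / ((cc ζ.re : ℂ) ^ 2 - 1))
      + (1 - (KK T : ℂ) * (cc ζ.re : ℂ) ^ 3) / 2 *
        (((cc ζ.re : ℂ) - ac b ζ) / ((cc ζ.re : ℂ) ^ 2 - 1) +
          pa b ζ / ((cc ζ.re : ℂ) ^ 2 - 1) / (cc ζ.re : ℂ))
      - ((3 * (cc ζ.re : ℂ) - ac b ζ) / 2 * ((gg T ζ.re : ℂ) * Qf h b ζ) -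
        (1 - (KK T : ℂ) * (cc ζ.re : ℂ) ^ 3) / (2 * (cc ζ.re : ℂ)) *
          (((cc ζ.re : ℂ) - ac b ζ) / ((cc ζ.re : ℂ) ^ 2 - 1)) * Qf h b ζ) := by
  have hc := one_lt_cc hζ
  have hc0 : (cc ζ.re : ℂ) ≠ 0 := by exact_mod_cast (by linarith : cc ζ.re ≠ 0)
  have hs : (cc ζ.re : ℂ) ^ 2 - 1 ≠ 0 := by
    have : cc ζ.re ^ 2 - 1 ≠ 0 := by nlinarith
    exact_mod_cast this
  have h1 := X_alg (K := (KK T : ℂ)) (g := (gg T ζ.re : ℂ)) (a := ac b ζ) (p := pa b ζ)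
    (Q := Qf h b ζ) hc0 hs
  unfold Xf Ac Ac1 mc mc1 fA fA1 fm fm1 lam
  push_cast
  rw [← h1]

/-- formula for `(c - a)/(c^2-1)` -/
theorem u_eq (D : Dat h b) (hζ : ζ.re < 0) :
    ((cc ζ.re : ℂ) - ac b ζ) / ((cc ζ.re : ℂ) ^ 2 - 1) =
      (1 - b (exp ζ) * conj (b (exp ζ))) * (1 - exp ζ * conj (exp ζ)) /
        (2 * (1 - exp ζ * conj (exp ζ) * (b (exp ζ) * conj (b (exp ζ))))) := by
  have hm := exp_mem hζ
  have hx : ‖exp ζ‖ < 1 := by simpa using hm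
  have h0 := dn_ne D hζ
  have hz : exp ζ ≠ 0 := Complex.exp_ne_zero ζ
  have hzc : conj (exp ζ) ≠ 0 := (map_ne_zero _).2 hz
  have hx1 : 1 - exp ζ * conj (exp ζ) ≠ 0 := by
    rw [Complex.mul_conj, Complex.normSq_eq_norm_sq]
    have : 1 - ‖exp ζ‖ ^ 2 ≠ 0 := by nlinarith [norm_nonneg (exp ζ)]
    exact_mod_cast this
  have hcz : (cc ζ.re : ℂ) = (1 + exp ζ * conj (exp ζ)) / (1 - exp ζ * conj (exp ζ)) := by
    rw [← cz_exp, Complex.mul_conj, Complex.normSq_eq_norm_sq]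
    unfold cz
    push_cast
    rfl
  have hd : dn b ζ = 1 - exp ζ * conj (exp ζ) * (b (exp ζ) * conj (b (exp ζ))) := by
    unfold dn Be BB
    rw [map_mul]; ring
  have ha : ac b ζ = (1 + exp ζ * conj (exp ζ) * (b (exp ζ) * conj (b (exp ζ)))) /
      (1 - exp ζ * conj (exp ζ) * (b (exp ζ) * conj (b (exp ζ)))) := by
    unfold ac
    rw [hd]
    congr 1
    unfold Be BB
    rw [map_mul]; ring
  rw [hd] at h0
  rw [ha, hcz]
  set z := exp ζ
  set w := b z * conj (b z)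
  set x := z * conj z with hxdef
  have hx0 : x ≠ 0 := mul_ne_zero hz hzc
  have e1 : ((1 + x) / (1 - x)) ^ 2 - 1 = 4 * x / (1 - x) ^ 2 := by
    field_simp; ring
  rw [e1]
  field_simp
  ring

/-- formula for `∂a/(c^2-1)` -/
theorem v_eq (D : Dat h b) (hζ : ζ.re < 0) :
    pa b ζ / ((cc ζ.re : ℂ) ^ 2 - 1) =
      (1 - exp ζ * conj (exp ζ)) ^ 2 * (B1 b (exp ζ) * conj (b (exp ζ))) /
        (2 * (1 - exp ζ * conj (exp ζ) * (b (exp ζ) * conj (b (exp ζ)))) ^ 2) := by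
  have hm := exp_mem hζ
  have hx : ‖exp ζ‖ < 1 := by simpa using hm
  have h0 := dn_ne D hζ
  have hz : exp ζ ≠ 0 := Complex.exp_ne_zero ζ
  have hzc : conj (exp ζ) ≠ 0 := (map_ne_zero _).2 hz
  have hx1 : 1 - exp ζ * conj (exp ζ) ≠ 0 := by
    rw [Complex.mul_conj, Complex.normSq_eq_norm_sq]
    have : 1 - ‖exp ζ‖ ^ 2 ≠ 0 := by nlinarith [norm_nonneg (exp ζ)]
    exact_mod_cast this
  have hcz : (cc ζ.re : ℂ) = (1 + exp ζ * conj (exp ζ)) / (1 - exp ζ * conj (exp ζ)) := by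
    rw [← cz_exp, Complex.mul_conj, Complex.normSq_eq_norm_sq]
    unfold cz
    push_cast
    rfl
  have hd : dn b ζ = 1 - exp ζ * conj (exp ζ) * (b (exp ζ) * conj (b (exp ζ))) := by
    unfold dn Be BB
    rw [map_mul]; ring
  rw [hcz]
  unfold pa
  rw [hd] at h0 ⊢
  unfold Be Be1 BB
  rw [map_mul]
  set z := exp ζ
  set w := b z * conj (b z) with hw
  have e1 : ((1 + z * conj z) / (1 - z * conj z)) ^ 2 - 1 =
      4 * (z * conj z) / (1 - z * conj z) ^ 2 := by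
    field_simp; ring
  rw [e1]
  field_simp
  ring

theorem tendsto_Psi (D : Dat h b) (_hT : T < 0) :
    Tendsto (Psi T h b) (comap Complex.re atBot) (𝓝 (-((‖h 0‖ : ℝ) : ℂ))) := by
  set l : Filter ℂ := comap Complex.re atBot with hl
  have hre : Tendsto Complex.re l atBot := tendsto_comap
  have hneg : ∀ᶠ ζ : ℂ in l, ζ.re < 0 := hre.eventually (eventually_lt_atBot 0)
  have hexp : Tendsto exp l (𝓝 0) := Complex.tendsto_exp_comap_re_atBot
  have h0m : (0:ℂ) ∈ ball (0:ℂ) 1 := by simp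
  have hofR : ∀ {f : ℂ → ℝ} {a : ℝ}, Tendsto f l (𝓝 a) →
      Tendsto (fun ζ => ((f ζ : ℝ) : ℂ)) l (𝓝 (a : ℂ)) := fun hf =>
    (Complex.continuous_ofReal.tendsto _).comp hf
  have hcc : Tendsto (fun ζ : ℂ => cc ζ.re) l (𝓝 1) := tendsto_cc.comp hre
  have hc : Tendsto (fun ζ : ℂ => ((cc ζ.re : ℝ) : ℂ)) l (𝓝 1) := by
    simpa using hofR hcc
  have hsg : Tendsto (fun ζ : ℂ => (((cc ζ.re ^ 2 - 1) * gg T ζ.re : ℝ) : ℂ)) l (𝓝 0) := by
    simpa using hofR ((tendsto_sg T).comp hre)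
  have hb : Tendsto (fun ζ : ℂ => b (exp ζ)) l (𝓝 (b 0)) :=
    ((hasDerivAt_b D h0m).continuousAt.tendsto).comp hexp
  have hB1 : Tendsto (fun ζ : ℂ => B1 b (exp ζ)) l (𝓝 (b 0)) := by
    have h1 : ContinuousAt (B1 b) 0 := by
      have h2 : ContinuousAt (deriv b) 0 :=
        ((D.db.deriv isOpen_ball).differentiableAt (isOpen_ball.mem_nhds h0m)).continuousAt
      unfold B1
      exact (hasDerivAt_b D h0m).continuousAt.add (continuousAt_id.mul h2)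
    have h3 := h1.tendsto.comp hexp
    have h4 : B1 b 0 = b 0 := by simp [B1]
    rw [h4] at h3
    exact h3
  have hconj : ∀ {f : ℂ → ℂ} {a : ℂ}, Tendsto f l (𝓝 a) →
      Tendsto (fun ζ => conj (f ζ)) l (𝓝 (conj a)) := fun hf =>
    (Complex.continuous_conj.tendsto _).comp hf
  have hx : Tendsto (fun ζ => exp ζ * conj (exp ζ)) l (𝓝 0) := by
    have := hexp.mul (hconj hexp)
    simpa using this
  have hbb : Tendsto (fun ζ => b (exp ζ) * conj (b (exp ζ))) l (𝓝 (b 0 * conj (b 0))) :=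
    hb.mul (hconj hb)
  have h1' : Tendsto (fun _ : ℂ => (1:ℂ)) l (𝓝 1) := tendsto_const_nhds
  have hu : Tendsto (fun ζ => ((cc ζ.re : ℂ) - ac b ζ) / ((cc ζ.re : ℂ) ^ 2 - 1)) l
      (𝓝 ((1 - b 0 * conj (b 0)) / 2)) := by
    have h2 := ((h1'.sub hbb).mul (h1'.sub hx)).div
      ((h1'.sub (hx.mul hbb)).const_mul (2:ℂ)) (by simp)
    refine (h2.congr' ?_).trans_eq (by simp)
    filter_upwards [hneg] with ζ hζ
    exact (u_eq D hζ).symm
  have hv : Tendsto (fun ζ => pa b ζ / ((cc ζ.re : ℂ) ^ 2 - 1)) l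
      (𝓝 (b 0 * conj (b 0) / 2)) := by
    have h2 := (((h1'.sub hx).pow 2).mul (hB1.mul (hconj hb))).div
      (((h1'.sub (hx.mul hbb)).pow 2).const_mul (2:ℂ)) (by simp)
    refine (h2.congr' ?_).trans_eq (by simp)
    filter_upwards [hneg] with ζ hζ
    exact (v_eq D hζ).symm
  have ha : Tendsto (ac b) l (𝓝 1) := by
    have h2 := (h1'.add (hx.mul hbb)).div (h1'.sub (hx.mul hbb)) (by simp)
    refine (h2.congr' ?_).trans_eq (by simp)
    filter_upwards with ζ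
    rw [Pi.div_apply]
    unfold ac dn Be BB
    rw [map_mul]
    congr 1 <;> ring
  -- `Q → 0` and `g Q → 0`
  have hQb : ∀ᶠ ζ in l, ‖Qf h b ζ‖ ≤ 2 * (Real.exp ζ.re / (1 - Real.exp ζ.re ^ 2)) := by
    filter_upwards [hneg] with ζ hζ
    have h2 := normSq_Q D hζ
    have h3 : Real.exp ζ.re < 1 := Real.exp_lt_one_iff.2 hζ
    have h4 := Real.exp_pos ζ.re
    have h5 : 0 < 1 - Real.exp ζ.re ^ 2 := by nlinarith
    have h6 : cc ζ.re ^ 2 - 1 = (2 * (Real.exp ζ.re / (1 - Real.exp ζ.re ^ 2))) ^ 2 := by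
      unfold cc
      have : Real.exp (2 * ζ.re) = Real.exp ζ.re ^ 2 := by
        rw [← Real.exp_nat_mul]; norm_num
      rw [this]
      field_simp
      ring
    rw [h6] at h2
    exact le_of_sq_le_sq h2 (by positivity)
  have he0 : Tendsto (fun ζ : ℂ => Real.exp ζ.re) l (𝓝 0) := Real.tendsto_exp_atBot.comp hre
  have hden : Tendsto (fun ζ : ℂ => 1 - Real.exp ζ.re ^ 2) l (𝓝 1) := by
    have := (tendsto_const_nhds (x := (1:ℝ))).sub (he0.pow 2)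
    simpa using this
  have hQ : Tendsto (Qf h b) l (𝓝 0) := by
    have h2 : Tendsto (fun ζ : ℂ => 2 * (Real.exp ζ.re / (1 - Real.exp ζ.re ^ 2))) l (𝓝 0) := by
      have := (he0.div hden one_ne_zero).const_mul 2
      simpa using this
    exact squeeze_zero_norm' hQb h2
  have hgQ : Tendsto (fun ζ => (gg T ζ.re : ℂ) * Qf h b ζ) l (𝓝 0) := by
    have h2 : Tendsto (fun ζ : ℂ => 2 * (|Real.exp ζ.re * gg T ζ.re| /
        (1 - Real.exp ζ.re ^ 2))) l (𝓝 0) := by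
      have h3 := ((tendsto_eg T).comp hre).abs
      have := (h3.div hden one_ne_zero).const_mul 2
      simpa using this
    refine squeeze_zero_norm' ?_ h2
    filter_upwards [hQb, hneg] with ζ hζ hn
    have h3 : Real.exp ζ.re < 1 := Real.exp_lt_one_iff.2 hn
    have h4 := Real.exp_pos ζ.re
    have h5 : 0 < 1 - Real.exp ζ.re ^ 2 := by nlinarith
    rw [norm_mul, Complex.norm_real, Real.norm_eq_abs]
    calc |gg T ζ.re| * ‖Qf h b ζ‖
        ≤ |gg T ζ.re| * (2 * (Real.exp ζ.re / (1 - Real.exp ζ.re ^ 2))) :=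
          mul_le_mul_of_nonneg_left hζ (abs_nonneg _)
      _ = 2 * (|Real.exp ζ.re * gg T ζ.re| / (1 - Real.exp ζ.re ^ 2)) := by
          rw [abs_mul, abs_of_pos h4]; ring
  have hX : Tendsto (Xf T h b) l (𝓝 (-1 / 2)) := by
    have hKc : Tendsto (fun _ : ℂ => ((KK T : ℝ) : ℂ)) l (𝓝 ((KK T : ℝ) : ℂ)) :=
      tendsto_const_nhds
    have t3 : Tendsto (fun _ : ℂ => (3:ℂ)) l (𝓝 3) := tendsto_const_nhds
    have h2 := ((((((hsg.const_mul 3).sub (t3.div hc one_ne_zero)).add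
      ((hKc.const_mul 3).mul (hc.pow 2))).div_const 4).sub
      (((hKc.mul hc).mul ha).div_const 2)).sub ((hsg.div_const 2).mul hv)).add
      (((h1'.sub (hKc.mul (hc.pow 3))).div_const 2).mul (hu.add (hv.div hc one_ne_zero)))
    have h3 := ((((hc.const_mul 3).sub ha).div_const 2).mul hgQ).sub
      ((((h1'.sub (hKc.mul (hc.pow 3))).div (hc.const_mul 2)
        (mul_ne_zero two_ne_zero one_ne_zero)).mul hu).mul hQ)
    have h4 := h2.sub h3
    refine (h4.congr' ?_).trans_eq ?_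
    · filter_upwards [hneg] with ζ hζ
      exact (Xf_eq hζ).symm
    · congr 1
      ring
  have hR : Tendsto (Rf h b) l (𝓝 ((‖h 0‖ : ℝ) : ℂ)) := by
    have h2 : Tendsto (fun ζ : ℂ => ((2 / (cc ζ.re + 1) : ℝ) : ℂ)) l (𝓝 1) := by
      have h3 : Tendsto (fun ζ : ℂ => 2 / (cc ζ.re + 1)) l (𝓝 (2 / (1 + 1))) :=
        (tendsto_const_nhds (x := (2:ℝ))).div (hcc.add_const 1) (by norm_num)
      have h4 := hofR h3
      have e : (((2 / (1 + 1) : ℝ)) : ℂ) = 1 := by norm_num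
      rw [e] at h4
      exact h4
    have h5 : Tendsto (fun ζ : ℂ => ((‖h (exp ζ)‖ : ℝ) : ℂ)) l (𝓝 ((‖h 0‖ : ℝ) : ℂ)) :=
      hofR (((hasDerivAt_h D h0m).continuousAt.tendsto.comp hexp).norm)
    have h6 : Tendsto (dn b) l (𝓝 1) := by
      have h7 := h1'.sub (hx.mul hbb)
      refine (h7.congr' ?_).trans_eq (by simp)
      filter_upwards with ζ
      unfold dn Be BB
      rw [map_mul]; ring
    have := (h2.mul h5).mul h6
    rw [one_mul, mul_one] at this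
    exact this
  have hfin := (hR.mul hX).const_mul (2:ℂ)
  refine (hfin.congr' ?_).trans_eq ?_
  · filter_upwards with ζ
    rfl
  · congr 1
    ring

end IM66
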