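import Pool.Agent.IM66.Pos
import Pool.Agent.IM66.Lim

/-!
# The sharp integral mean theorem
-/

set_option autoImplicit false

namespace IM66

open Complex Metric Set MeasureTheory Filter Topology ComplexConjugate

variable {h b : ℂ → ℂ} {T : ℝ}

/-- the value of the flux on the circle `T` -/
theorem Psi_T (D : Dat h b) (hT : T < 0) (θ : ℝ) :
    Psi T h b (T + θ * I) = ((-(1 / cc T ^ 2 * (2 / (cc T + 1)) *
      (‖h (exp (T + θ * I))‖ * (1 + ‖BB b (exp (T + θ * I))‖ ^ 2))) : ℝ) : ℂ) := by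
  set ζ : ℂ := T + θ * I with hζ
  have hre : ζ.re = T := by rw [hζ]; simp
  have hζ0 : ζ.re < 0 := by rw [hre]; exact hT
  have hdn := dn_pos D hζ0
  unfold Psi Xf Ac1 mc1 mc Ac
  rw [hre, fA_T hT, fA1_T hT, fm_T hT, fm1_T hT, ac_eq, Rf_eq, hre]
  unfold aa
  unfold Be at hdn
  have h0 : (1 - ‖BB b (exp ζ)‖ ^ 2) ≠ 0 := hdn.ne'
  have e : (2 / (cc T + 1) * ‖h (exp ζ)‖ * (1 - ‖BB b (exp ζ)‖ ^ 2)) *
      ((1 + ‖BB b (exp ζ)‖ ^ 2) / (1 - ‖BB b (exp ζ)‖ ^ 2)) =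
      2 / (cc T + 1) * (‖h (exp ζ)‖ * (1 + ‖BB b (exp ζ)‖ ^ 2)) := by
    field_simp
  have e2 : (-(1 / cc T ^ 2 * (2 / (cc T + 1)) *
      (‖h (exp ζ)‖ * (1 + ‖BB b (exp ζ)‖ ^ 2))) : ℝ) =
      2 * ((2 / (cc T + 1) * ‖h (exp ζ)‖ * (1 - ‖BB b (exp ζ)‖ ^ 2)) *
        (-(1 / cc T ^ 2) / 2 *
          ((1 + ‖BB b (exp ζ)‖ ^ 2) / (1 - ‖BB b (exp ζ)‖ ^ 2)))) := by
    linear_combination (1 / cc T ^ 2) * e
  rw [e2]
  push_cast
  ring

theorem continuous_Psi_circle (D : Dat h b) {t : ℝ} (ht : t < 0) :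
    Continuous (fun θ : ℝ => Psi T h b (t + θ * I)) := by
  rw [continuous_iff_continuousAt]
  intro θ
  have hre : ((t : ℂ) + θ * I).re < 0 := by simpa using ht
  obtain ⟨p, hp⟩ := hasW_Psi (T := T) D hre
  have h1 : ContinuousAt (Psi T h b) ((t : ℂ) + θ * I) := hp.continuousAt
  have h2 : ContinuousAt (fun θ : ℝ => (t : ℂ) + θ * I) θ := by fun_prop
  exact ContinuousAt.comp (f := fun θ : ℝ => (t : ℂ) + θ * I) h1 h2

/-- the flux at the circle `T` is at least its limit at the centre -/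
theorem flux_ge (D : Dat h b) (hT : T < 0) :
    -(2 * Real.pi * ‖h 0‖) ≤ (∫ θ in (0:ℝ)..(2 * Real.pi), Psi T h b (T + θ * I)).re := by
  have hpi : (0:ℝ) < 2 * Real.pi := Real.two_pi_pos
  refine le_of_forall_pos_le_add ?_
  intro ε hε
  have hlim := tendsto_Psi D hT
  rw [Metric.tendsto_nhds] at hlim
  have hε' : 0 < ε / (2 * Real.pi) := by positivity
  have h1 := hlim (ε / (2 * Real.pi)) hε'
  rw [eventually_comap] at h1
  obtain ⟨N, hN⟩ := (h1.and (eventually_le_atBot T)).exists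
  obtain ⟨hN1, hN2⟩ := hN
  have hN0 : N < 0 := lt_of_le_of_lt hN2 hT
  have h2 : ∀ θ : ℝ, ‖Psi T h b (N + θ * I) + ((‖h 0‖ : ℝ) : ℂ)‖ ≤ ε / (2 * Real.pi) := by
    intro θ
    have h3 := hN1 ((N : ℂ) + θ * I) (by simp)
    rw [dist_eq_norm, sub_neg_eq_add] at h3
    exact h3.le
  have hc := continuous_Psi_circle (T := T) D hN0
  have h4 : ‖∫ θ in (0:ℝ)..(2 * Real.pi), (Psi T h b (N + θ * I) + ((‖h 0‖ : ℝ) : ℂ))‖ ≤
      ε / (2 * Real.pi) * |2 * Real.pi - 0| :=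
    intervalIntegral.norm_integral_le_of_norm_le_const (fun θ _ => h2 θ)
  rw [intervalIntegral.integral_add (hc.intervalIntegrable _ _)
    (continuous_const.intervalIntegrable _ _), intervalIntegral.integral_const, sub_zero,
    abs_of_pos hpi, div_mul_cancel₀ _ hpi.ne'] at h4
  have h5 := (Complex.abs_re_le_norm _).trans h4
  rw [Complex.add_re, Complex.real_smul, ← Complex.ofReal_mul, Complex.ofReal_re] at h5
  have h6 := (abs_le.mp h5).1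
  have h7 := flux_mono D hT hN2
  linarith

/-- **Sharp integral mean**, `t`-form -/
theorem mean_T (D : Dat h b) (hT : T < 0) :
    ∫ θ in (0:ℝ)..(2 * Real.pi), ‖h (exp (T + θ * I))‖ * (1 + ‖BB b (exp (T + θ * I))‖ ^ 2) ≤
      2 * Real.pi * (‖h 0‖ * (cc T ^ 2 * ((cc T + 1) / 2))) := by
  have h1 := flux_ge D hT
  have hc := one_lt_cc hT
  have e : (∫ θ in (0:ℝ)..(2 * Real.pi), Psi T h b (T + θ * I)) =
      ((-(1 / cc T ^ 2 * (2 / (cc T + 1))) * ∫ θ in (0:ℝ)..(2 * Real.pi),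
        ‖h (exp (T + θ * I))‖ * (1 + ‖BB b (exp (T + θ * I))‖ ^ 2) : ℝ) : ℂ) := by
    rw [← intervalIntegral.integral_const_mul, ← intervalIntegral.integral_ofReal]
    apply intervalIntegral.integral_congr
    intro θ _
    simp only
    rw [Psi_T D hT θ]
    congr 1
    ring
  rw [e, Complex.ofReal_re] at h1
  set J := ∫ θ in (0:ℝ)..(2 * Real.pi),
        ‖h (exp (T + θ * I))‖ * (1 + ‖BB b (exp (T + θ * I))‖ ^ 2)
  have h2 : (0:ℝ) < cc T ^ 2 * ((cc T + 1) / 2) := by positivity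
  have h3 : 1 / cc T ^ 2 * (2 / (cc T + 1)) = 1 / (cc T ^ 2 * ((cc T + 1) / 2)) := by
    field_simp
  rw [h3] at h1
  have h4 : J / (cc T ^ 2 * ((cc T + 1) / 2)) ≤ 2 * Real.pi * ‖h 0‖ := by
    have : J / (cc T ^ 2 * ((cc T + 1) / 2)) = 1 / (cc T ^ 2 * ((cc T + 1) / 2)) * J := by ring
    rw [this]
    linarith
  rw [div_le_iff₀ h2] at h4
  calc J ≤ 2 * Real.pi * ‖h 0‖ * (cc T ^ 2 * ((cc T + 1) / 2)) := h4
    _ = _ := by ring

theorem circleMap_exp {r : ℝ} (hr0 : 0 < r) (θ : ℝ) :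
    circleMap 0 r θ = exp ((Real.log r : ℝ) + θ * I) := by
  rw [circleMap, zero_add, Complex.exp_add, ← Complex.ofReal_exp, Real.exp_log hr0]

theorem cc_log {r : ℝ} (hr0 : 0 < r) : cc (Real.log r) = (1 + r ^ 2) / (1 - r ^ 2) := by
  unfold cc
  have : Real.exp (2 * Real.log r) = r ^ 2 := by
    rw [mul_comm, Real.exp_mul, Real.exp_log hr0]
    norm_num
  rw [this]

/-- **Sharp integral mean theorem (IM)**. -/
theorem mean_star (D : Dat h b) {r : ℝ} (hr0 : 0 < r) (hr1 : r < 1) :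
    ∫ θ in (0:ℝ)..2 * Real.pi, ‖h (circleMap 0 r θ)‖ * (1 + ‖BB b (circleMap 0 r θ)‖ ^ 2) ≤
      2 * Real.pi * (‖h 0‖ * ((1 + r ^ 2) ^ 2 / (1 - r ^ 2) ^ 3)) := by
  have hT : Real.log r < 0 := Real.log_neg hr0 hr1
  have h1 := mean_T D hT
  simp_rw [circleMap_exp hr0]
  refine h1.trans (le_of_eq ?_)
  rw [cc_log hr0]
  have h2 : (1 - r ^ 2) ≠ 0 := by
    have : 0 < 1 - r ^ 2 := by nlinarith
    exact this.ne'
  have e : ((1 + r ^ 2) / (1 - r ^ 2)) ^ 2 * (((1 + r ^ 2) / (1 - r ^ 2) + 1) / 2) =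
      (1 + r ^ 2) ^ 2 / (1 - r ^ 2) ^ 3 := by
    field_simp
    ring
  rw [e]

/-- the mean of `|L'|` -/
theorem mean_L (D : Dat h b) {L' : ℂ → ℂ} (hLc : ContinuousOn L' (ball (0:ℂ) 1))
    (hL : ∀ z ∈ ball (0:ℂ) 1, ‖L' z‖ ≤ ‖h z‖ * (1 + ‖z * b z‖) ^ 2) {r : ℝ} (hr0 : 0 < r)
    (hr1 : r < 1) :
    (2 * Real.pi)⁻¹ * ∫ θ in (0:ℝ)..2 * Real.pi, ‖L' (circleMap 0 r θ)‖ ≤
      ‖h 0‖ * ((1 + r) ^ 2 * (1 + r ^ 2) / (1 - r ^ 2) ^ 3) := by
  have hpi : (0:ℝ) < 2 * Real.pi := Real.two_pi_pos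
  have hmem : ∀ θ : ℝ, circleMap 0 r θ ∈ ball (0:ℂ) 1 := by
    intro θ
    rw [mem_ball_zero_iff, norm_circleMap_zero, abs_of_pos hr0]
    exact hr1
  have hnorm : ∀ θ : ℝ, ‖circleMap 0 r θ‖ = r := by
    intro θ
    rw [norm_circleMap_zero, abs_of_pos hr0]
  have hcm : Continuous (circleMap 0 r) := continuous_circleMap 0 r
  have hc1 : Continuous (fun θ : ℝ => ‖L' (circleMap 0 r θ)‖) :=
    (hLc.comp_continuous hcm hmem).norm
  have hc2 : Continuous (fun θ : ℝ =>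
      ‖h (circleMap 0 r θ)‖ * (1 + ‖BB b (circleMap 0 r θ)‖ ^ 2)) := by
    have h1 : Continuous (fun θ : ℝ => h (circleMap 0 r θ)) :=
      D.dh.continuousOn.comp_continuous hcm hmem
    have h2 : Continuous (fun θ : ℝ => b (circleMap 0 r θ)) :=
      D.db.continuousOn.comp_continuous hcm hmem
    have h3 : Continuous (fun θ : ℝ => BB b (circleMap 0 r θ)) := by
      unfold BB
      exact hcm.mul h2
    exact h1.norm.mul (continuous_const.add (h3.norm.pow 2))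
  have hpt : ∀ θ : ℝ, ‖L' (circleMap 0 r θ)‖ ≤ (1 + r) ^ 2 / (1 + r ^ 2) *
      (‖h (circleMap 0 r θ)‖ * (1 + ‖BB b (circleMap 0 r θ)‖ ^ 2)) := by
    intro θ
    have h1 := hL _ (hmem θ)
    have hB0 : 0 ≤ ‖BB b (circleMap 0 r θ)‖ := norm_nonneg _
    have hB1 : ‖BB b (circleMap 0 r θ)‖ ≤ r := by
      unfold BB
      rw [norm_mul, hnorm]
      have := D.hb _ (hmem θ)
      nlinarith
    have h2 : (1 + ‖BB b (circleMap 0 r θ)‖) ^ 2 ≤ (1 + r) ^ 2 / (1 + r ^ 2) *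
        (1 + ‖BB b (circleMap 0 r θ)‖ ^ 2) := by
      rw [div_mul_eq_mul_div, le_div_iff₀ (by positivity)]
      have h3 : 0 ≤ (r - ‖BB b (circleMap 0 r θ)‖) * (1 - r * ‖BB b (circleMap 0 r θ)‖) := by
        apply mul_nonneg (by linarith)
        nlinarith
      nlinarith
    calc ‖L' (circleMap 0 r θ)‖ ≤ ‖h (circleMap 0 r θ)‖ *
          (1 + ‖BB b (circleMap 0 r θ)‖) ^ 2 := h1
      _ ≤ ‖h (circleMap 0 r θ)‖ * ((1 + r) ^ 2 / (1 + r ^ 2) *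
          (1 + ‖BB b (circleMap 0 r θ)‖ ^ 2)) :=
          mul_le_mul_of_nonneg_left h2 (norm_nonneg _)
      _ = _ := by ring
  have h1 : ∫ θ in (0:ℝ)..2 * Real.pi, ‖L' (circleMap 0 r θ)‖ ≤
      (1 + r) ^ 2 / (1 + r ^ 2) * (2 * Real.pi * (‖h 0‖ *
        ((1 + r ^ 2) ^ 2 / (1 - r ^ 2) ^ 3))) := by
    calc ∫ θ in (0:ℝ)..2 * Real.pi, ‖L' (circleMap 0 r θ)‖
        ≤ ∫ θ in (0:ℝ)..2 * Real.pi, (1 + r) ^ 2 / (1 + r ^ 2) *
          (‖h (circleMap 0 r θ)‖ * (1 + ‖BB b (circleMap 0 r θ)‖ ^ 2)) :=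
          intervalIntegral.integral_mono hpi.le (hc1.intervalIntegrable _ _)
            ((hc2.const_mul _).intervalIntegrable _ _) (fun θ => hpt θ)
      _ = (1 + r) ^ 2 / (1 + r ^ 2) * ∫ θ in (0:ℝ)..2 * Real.pi,
          ‖h (circleMap 0 r θ)‖ * (1 + ‖BB b (circleMap 0 r θ)‖ ^ 2) :=
          intervalIntegral.integral_const_mul _ _
      _ ≤ _ := mul_le_mul_of_nonneg_left (mean_star D hr0 hr1) (by positivity)
  calc (2 * Real.pi)⁻¹ * ∫ θ in (0:ℝ)..2 * Real.pi, ‖L' (circleMap 0 r θ)‖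
      ≤ (2 * Real.pi)⁻¹ * ((1 + r) ^ 2 / (1 + r ^ 2) * (2 * Real.pi * (‖h 0‖ *
        ((1 + r ^ 2) ^ 2 / (1 - r ^ 2) ^ 3)))) :=
        mul_le_mul_of_nonneg_left h1 (by positivity)
    _ = ‖h 0‖ * ((1 + r) ^ 2 * (1 + r ^ 2) / (1 - r ^ 2) ^ 3) := by
        have h2 : (1 - r ^ 2) ≠ 0 := by
          have : 0 < 1 - r ^ 2 := by nlinarith
          exact this.ne'
        field_simp

end IM66
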