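import Pool.Agent.IM66.Defs
import Pool.Agent.CSH.SPick

/-!
# Schwarz-Pick facts
-/

set_option autoImplicit false

namespace IM66

open Complex Metric Set ComplexConjugate

variable {b : ℂ → ℂ}

theorem BB_facts (hb : ∀ z ∈ ball (0:ℂ) 1, ‖b z‖ ≤ 1) {z : ℂ} (hz : z ∈ ball (0:ℂ) 1) :
    ‖z‖ < 1 ∧ ‖BB b z‖ = ‖z‖ * ‖b z‖ ∧ ‖BB b z‖ ≤ ‖z‖ ∧ 0 < 1 - ‖z‖ ^ 2 ∧
      0 < 1 - ‖BB b z‖ ^ 2 := by
  have h1 : ‖z‖ < 1 := by simpa using hz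
  have h2 : ‖BB b z‖ = ‖z‖ * ‖b z‖ := by unfold BB; rw [norm_mul]
  have h3 : ‖BB b z‖ ≤ ‖z‖ := by
    rw [h2]
    exact mul_le_of_le_one_right (norm_nonneg z) (hb z hz)
  have h4 := norm_nonneg (BB b z)
  have h5 := norm_nonneg z
  refine ⟨h1, h2, h3, by nlinarith, by nlinarith⟩

theorem one_le_aa (hb : ∀ z ∈ ball (0:ℂ) 1, ‖b z‖ ≤ 1) {z : ℂ} (hz : z ∈ ball (0:ℂ) 1) :
    1 ≤ aa b z := by
  obtain ⟨h1, h2, h3, h4, h5⟩ := BB_facts hb hz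
  unfold aa
  rw [le_div_iff₀ h5]
  nlinarith [sq_nonneg ‖BB b z‖]

theorem cz_sub_aa (hb : ∀ z ∈ ball (0:ℂ) 1, ‖b z‖ ≤ 1) {z : ℂ} (hz : z ∈ ball (0:ℂ) 1) :
    cz z - aa b z = 2 * (‖z‖ ^ 2 - ‖BB b z‖ ^ 2) / ((1 - ‖z‖ ^ 2) * (1 - ‖BB b z‖ ^ 2)) := by
  obtain ⟨h1, h2, h3, h4, h5⟩ := BB_facts hb hz
  unfold cz aa
  field_simp
  ring

theorem aa_le (hb : ∀ z ∈ ball (0:ℂ) 1, ‖b z‖ ≤ 1) {z : ℂ} (hz : z ∈ ball (0:ℂ) 1) :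
    aa b z ≤ cz z := by
  obtain ⟨h1, h2, h3, h4, h5⟩ := BB_facts hb hz
  have h := cz_sub_aa hb hz
  have h6 : 0 ≤ cz z - aa b z := by
    rw [h]
    apply div_nonneg _ (mul_nonneg h4.le h5.le)
    have := norm_nonneg (BB b z)
    nlinarith
  linarith

theorem SS_nonneg (hb : ∀ z ∈ ball (0:ℂ) 1, ‖b z‖ ≤ 1) {z : ℂ} (hz : z ∈ ball (0:ℂ) 1) :
    0 ≤ SS b z := by
  obtain ⟨h1, h2, h3, h4, h5⟩ := BB_facts hb hz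
  unfold SS
  exact div_nonneg (by positivity) h5.le

theorem SS_sq (hb : ∀ z ∈ ball (0:ℂ) 1, ‖b z‖ ≤ 1) {z : ℂ} (hz : z ∈ ball (0:ℂ) 1) :
    SS b z ^ 2 = aa b z ^ 2 - 1 := by
  obtain ⟨h1, h2, h3, h4, h5⟩ := BB_facts hb hz
  unfold SS aa
  field_simp
  ring

theorem ww_sq_le (hb : ∀ z ∈ ball (0:ℂ) 1, ‖b z‖ ≤ 1) {z : ℂ} (hz : z ∈ ball (0:ℂ) 1) :
    ww b z ^ 2 ≤ PP b z * SS b z ^ 2 := by
  obtain ⟨h1, h2, h3, h4, h5⟩ := BB_facts hb hz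
  have hre : (z * B1 b z * conj (BB b z)).re ^ 2 ≤ (‖z * B1 b z‖ * ‖BB b z‖) ^ 2 := by
    have h6 := Complex.abs_re_le_norm (z * B1 b z * conj (BB b z))
    rw [norm_mul, RCLike.norm_conj] at h6
    rw [← sq_abs]
    exact pow_le_pow_left₀ (abs_nonneg _) h6 2
  have e1 : ww b z ^ 2 = 16 / (1 - ‖BB b z‖ ^ 2) ^ 4 * (z * B1 b z * conj (BB b z)).re ^ 2 := by
    unfold ww
    field_simp
    ring
  have e2 : PP b z * SS b z ^ 2 =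
      16 / (1 - ‖BB b z‖ ^ 2) ^ 4 * (‖z * B1 b z‖ * ‖BB b z‖) ^ 2 := by
    unfold PP SS
    field_simp
    ring
  rw [e1, e2]
  exact mul_le_mul_of_nonneg_left hre (by positivity)

theorem aa_sub_SS (hb : ∀ z ∈ ball (0:ℂ) 1, ‖b z‖ ≤ 1) {z : ℂ} (hz : z ∈ ball (0:ℂ) 1) :
    aa b z - SS b z = (1 - ‖BB b z‖) / (1 + ‖BB b z‖) := by
  obtain ⟨h1, h2, h3, h4, h5⟩ := BB_facts hb hz
  have h6 := norm_nonneg (BB b z)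
  have h7 : 1 - ‖BB b z‖ ≠ 0 := by
    have : ‖BB b z‖ < 1 := lt_of_le_of_lt h3 h1
    linarith
  have h8 : 1 + ‖BB b z‖ ≠ 0 := by linarith
  have h9 : 1 - ‖BB b z‖ ^ 2 = (1 - ‖BB b z‖) * (1 + ‖BB b z‖) := by ring
  unfold aa SS
  rw [h9]
  field_simp
  ring

theorem be_C (db : DifferentiableOn ℂ b (ball 0 1)) (hb : ∀ z ∈ ball (0:ℂ) 1, ‖b z‖ ≤ 1)
    {z : ℂ} (hz : z ∈ ball (0:ℂ) 1) :
    2 * (cz z - aa b z) * (aa b z - SS b z) ≤ cz z ^ 2 - 1 - PP b z := by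
  obtain ⟨h1, h2, h3, h4, h5⟩ := BB_facts hb hz
  have h6 := norm_nonneg (BB b z)
  have h7 : ‖BB b z‖ < 1 := lt_of_le_of_lt h3 h1
  have hsp := Pool.CSH.SP.schwarz_pick db hb h1
  -- `‖z B'‖ ≤ (1 - q) (q + r^2) / (1 - r^2)`
  have hB : ‖z * B1 b z‖ * (1 - ‖z‖ ^ 2) ≤ (1 - ‖BB b z‖) * (‖BB b z‖ + ‖z‖ ^ 2) := by
    have e1 : ‖z * B1 b z‖ ≤ ‖BB b z‖ + ‖z‖ ^ 2 * ‖deriv b z‖ := by
      unfold B1
      rw [mul_add]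
      refine (norm_add_le _ _).trans ?_
      rw [norm_mul z (b z), h2, norm_mul, norm_mul]
      apply le_of_eq
      ring
    have e2 : ‖z‖ ^ 2 * ‖deriv b z‖ * (1 - ‖z‖ ^ 2) ≤ ‖z‖ ^ 2 - ‖BB b z‖ ^ 2 := by
      have := mul_le_mul_of_nonneg_left hsp (sq_nonneg ‖z‖)
      rw [h2]
      nlinarith
    have e3 := mul_le_mul_of_nonneg_right e1 h4.le
    nlinarith
  have hPP : PP b z ≤ 4 * (((1 - ‖BB b z‖) * (‖BB b z‖ + ‖z‖ ^ 2)) / (1 - ‖z‖ ^ 2)) ^ 2 /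
      (1 - ‖BB b z‖ ^ 2) ^ 2 := by
    unfold PP
    have e4 : ‖z * B1 b z‖ ≤ ((1 - ‖BB b z‖) * (‖BB b z‖ + ‖z‖ ^ 2)) / (1 - ‖z‖ ^ 2) := by
      rw [le_div_iff₀ h4]
      exact hB
    have e5 := pow_le_pow_left₀ (norm_nonneg _) e4 2
    apply div_le_div_of_nonneg_right _ (by positivity)
    linarith
  have hid : 2 * (cz z - aa b z) * (aa b z - SS b z) = cz z ^ 2 - 1 -
      4 * (((1 - ‖BB b z‖) * (‖BB b z‖ + ‖z‖ ^ 2)) / (1 - ‖z‖ ^ 2)) ^ 2 /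
      (1 - ‖BB b z‖ ^ 2) ^ 2 := by
    rw [cz_sub_aa hb hz, aa_sub_SS hb hz]
    unfold cz
    have h8 : 1 - ‖BB b z‖ ≠ 0 := by linarith
    have h9 : 1 + ‖BB b z‖ ≠ 0 := by linarith
    have h10 : 1 - ‖BB b z‖ ^ 2 = (1 - ‖BB b z‖) * (1 + ‖BB b z‖) := by ring
    rw [h10]
    field_simp
    ring
  rw [hid]
  linarith

theorem PP_le (db : DifferentiableOn ℂ b (ball 0 1)) (hb : ∀ z ∈ ball (0:ℂ) 1, ‖b z‖ ≤ 1)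
    {z : ℂ} (hz : z ∈ ball (0:ℂ) 1) : PP b z ≤ cz z ^ 2 - 1 := by
  obtain ⟨h1, h2, h3, h4, h5⟩ := BB_facts hb hz
  have h7 : ‖BB b z‖ < 1 := lt_of_le_of_lt h3 h1
  have h := be_C db hb hz
  have h8 : 0 ≤ cz z - aa b z := by
    have := aa_le hb hz
    linarith
  have h9 : 0 ≤ aa b z - SS b z := by
    rw [aa_sub_SS hb hz]
    exact div_nonneg (by linarith) (by positivity)
  have h10 : 0 ≤ 2 * (cz z - aa b z) * (aa b z - SS b z) := by positivity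
  linarith

end IM66
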