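import Pool.Agent.IM66.Psi
import Pool.Agent.IM66.SPk

/-!
# Positivity of the `∂̄`-derivative of the flux
-/

set_option autoImplicit false

namespace IM66

open Complex Metric Set MeasureTheory Filter Topology ComplexConjugate

variable {h b : ℂ → ℂ} {T : ℝ} {ζ : ℂ}

theorem cz_exp (ζ : ℂ) : cz (exp ζ) = cc ζ.re := by
  unfold cz cc
  rw [Complex.norm_exp, ← Real.exp_nat_mul]
  norm_num

theorem re_id (A A1 A2 m m1 m2 a e k : ℝ) (p Q : ℂ) :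
    (conj Q * ((A1 : ℂ) / 2 + (m1 : ℂ) / 2 * a + m * p - (A + m * a) * Q) +
      ((A2 : ℂ) / 4 + (m2 : ℂ) / 4 * a + (m1 : ℂ) / 2 * conj p + (m1 : ℂ) / 2 * p + m * e -
      (((A1 : ℂ) / 2 + (m1 : ℂ) / 2 * a + m * conj p) * Q + (A + m * a) * k))).re =
    A2 / 4 + m2 / 4 * a + m1 * p.re + m * e - (A + m * a) * (‖Q‖ ^ 2 + k) := by
  have hQ : ‖Q‖ ^ 2 = Q.re ^ 2 + Q.im ^ 2 := by
    rw [Complex.sq_norm, Complex.normSq_apply]; ring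
  rw [hQ]
  have e2 : ∀ x : ℝ, ((x : ℂ) / 2) = ((x / 2 : ℝ) : ℂ) := by intro x; push_cast; ring
  have e4 : ∀ x : ℝ, ((x : ℂ) / 4) = ((x / 4 : ℝ) : ℂ) := by intro x; push_cast; ring
  rw [e2, e2, e4, e4]
  simp only [Complex.add_re, Complex.sub_re, Complex.mul_re, Complex.add_im, Complex.sub_im,
    Complex.mul_im, Complex.conj_re, Complex.conj_im, Complex.ofReal_re, Complex.ofReal_im]
  ring

theorem ac_eq (b : ℂ → ℂ) (ζ : ℂ) : ac b ζ = ((aa b (exp ζ) : ℝ) : ℂ) := by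
  unfold ac aa
  rw [dn_eq, Complex.mul_conj, Complex.normSq_eq_norm_sq]
  unfold Be
  push_cast
  rfl

theorem ea_eq (b : ℂ → ℂ) (ζ : ℂ) :
    ea b ζ = ((PP b (exp ζ) * aa b (exp ζ) / 2 : ℝ) : ℂ) := by
  unfold ea PP aa
  rw [dn_eq, Complex.mul_conj, Complex.mul_conj, Complex.normSq_eq_norm_sq,
    Complex.normSq_eq_norm_sq]
  unfold Be Be1
  push_cast
  rw [show (3:ℕ) = 2 + 1 from rfl, pow_add, pow_one]
  by_cases h0 : (1 - (‖BB b (exp ζ)‖ : ℂ) ^ 2) = 0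
  · rw [h0]; simp
  · field_simp
    ring

theorem eQ_eq (b : ℂ → ℂ) (ζ : ℂ) :
    eQ b ζ = ((-((cc ζ.re ^ 2 - 1) + PP b (exp ζ)) / 4 : ℝ) : ℂ) := by
  unfold eQ PP
  rw [dn_eq, Complex.mul_conj, Complex.normSq_eq_norm_sq]
  unfold Be Be1
  push_cast
  ring

theorem pa_re (b : ℂ → ℂ) (ζ : ℂ) : 2 * (pa b ζ).re = ww b (exp ζ) := by
  unfold pa ww
  rw [dn_eq]
  unfold Be Be1
  have e : (2 * (exp ζ * B1 b (exp ζ) * conj (BB b (exp ζ))) /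
      ((1 - ‖BB b (exp ζ)‖ ^ 2 : ℝ) : ℂ) ^ 2) =
      ((2 / (1 - ‖BB b (exp ζ)‖ ^ 2) ^ 2 : ℝ) : ℂ) *
        (exp ζ * B1 b (exp ζ) * conj (BB b (exp ζ))) := by
    push_cast
    ring
  rw [e, Complex.re_ofReal_mul]
  ring

theorem normSq_Q (D : Dat h b) (hζ : ζ.re < 0) : ‖Qf h b ζ‖ ^ 2 ≤ cc ζ.re ^ 2 - 1 := by
  have hm := exp_mem hζ
  have h1 := D.psi _ hm
  have hx : ‖exp ζ‖ < 1 := by simpa using hm
  set z := exp ζ with hz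
  have hx0 : 0 ≤ ‖z‖ := norm_nonneg z
  have hx1 : 0 < 1 - ‖z‖ ^ 2 := by nlinarith
  have hcz : cc ζ.re = (1 + ‖z‖ ^ 2) / (1 - ‖z‖ ^ 2) := by
    rw [← cz_exp, ← hz]; rfl
  have hxc : ((1 - ‖z‖ ^ 2 : ℝ) : ℂ) ≠ 0 := by exact_mod_cast hx1.ne'
  have hQ : ((1 - ‖z‖ ^ 2 : ℝ) : ℂ) * Qf h b ζ = z * (((1 - ‖z‖ ^ 2 : ℝ) : ℂ) *
      (deriv h z / (2 * h z) -
    conj (z * b z) * (b z + z * deriv b z) / ((1 - ‖z * b z‖ ^ 2 : ℝ) : ℂ)) - conj z) := by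
    have e1 : ((((cc ζ.re - 1) / 2 : ℝ)) : ℂ) * ((1 - ‖z‖ ^ 2 : ℝ) : ℂ) = z * conj z := by
      rw [Complex.mul_conj, Complex.normSq_eq_norm_sq, ← Complex.ofReal_mul]
      congr 1
      rw [hcz]
      field_simp
      ring
    unfold Qf H1
    rw [dn_eq]
    unfold Be Be1 BB B1
    rw [← hz]
    linear_combination -e1
  have h2 : (1 - ‖z‖ ^ 2) * ‖Qf h b ζ‖ ≤ 2 * ‖z‖ := by
    have h3 := congrArg norm hQ
    rw [norm_mul, norm_mul, Complex.norm_real, Real.norm_eq_abs, abs_of_pos hx1] at h3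
    rw [h3]
    nlinarith
  have h4 : cc ζ.re ^ 2 - 1 = (2 * ‖z‖) ^ 2 / (1 - ‖z‖ ^ 2) ^ 2 := by
    rw [hcz]
    field_simp
    ring
  rw [h4, le_div_iff₀ (by positivity)]
  have h5 : 0 ≤ (1 - ‖z‖ ^ 2) * ‖Qf h b ζ‖ := by positivity
  nlinarith

theorem Rf_eq (h b : ℂ → ℂ) (ζ : ℂ) : Rf h b ζ =
    ((2 / (cc ζ.re + 1) * ‖h (exp ζ)‖ * (1 - ‖BB b (exp ζ)‖ ^ 2) : ℝ) : ℂ) := by
  unfold Rf
  rw [dn_eq]
  unfold Be
  push_cast
  ring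

theorem re_dPsi (D : Dat h b) (hT : T < 0) (hζ : ζ.re ≤ T) : 0 ≤ (dPsi T h b ζ).re := by
  have hζ0 : ζ.re < 0 := lt_of_le_of_lt hζ hT
  have hm := exp_mem hζ0
  have hc := one_lt_cc hζ0
  set r : ℝ := 2 / (cc ζ.re + 1) * ‖h (exp ζ)‖ * (1 - ‖BB b (exp ζ)‖ ^ 2) with hr
  have hr0 : 0 ≤ r := by
    have h1 := dn_pos D hζ0
    unfold Be at h1
    have h2 : 0 < cc ζ.re + 1 := by linarith
    positivity
  have hR : Rf h b ζ = (r : ℂ) := Rf_eq h b ζ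
  have e1 : dPsi T h b ζ = ((2 * r : ℝ) : ℂ) * (conj (Qf h b ζ) * Xf T h b ζ + dX T h b ζ) := by
    unfold dPsi
    rw [hR]
    push_cast
    ring
  rw [e1, Complex.re_ofReal_mul]
  refine mul_nonneg (by positivity) ?_
  unfold Xf dX Ac Ac1 Ac2 mc mc1 mc2
  rw [ac_eq, ea_eq, eQ_eq, re_id]
  set c := cc ζ.re
  set g := gg T ζ.re
  set a := aa b (exp ζ)
  set P := PP b (exp ζ)
  have hpa := pa_re b ζ
  set w := ww b (exp ζ)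
  have hcz : cz (exp ζ) = c := cz_exp ζ
  have hK0 := K_nonneg hT
  have hK := K_le hT hζ
  have hg1 := g_ge hT hζ
  have hg2 := g_le hT hζ
  have ha1 := one_le_aa D.hb hm
  have hac := aa_le D.hb hm
  have hP := PP_le D.db D.hb hm
  have hBC := be_C D.db D.hb hm
  rw [hcz] at hac hP hBC
  have hZ := Z_nonneg hc ha1 hac hK0 hK hg1 hg2
  have hP0 : 0 ≤ P := by
    change 0 ≤ PP b (exp ζ)
    unfold PP
    positivity
  have hF := F_nonneg (w := w) hc ha1 hac hK0 hK hg2 (SS_nonneg D.hb hm) (SS_sq D.hb hm) hP0 hP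
    hBC (ww_sq_le D.hb hm)
  have hQ := normSq_Q D hζ0
  have hmul := mul_le_mul_of_nonneg_left hQ hZ
  change 0 ≤ fA2 (KK T) c g / 4 + fm2 (KK T) c / 4 * a + fm1 (KK T) c * (pa b ζ).re +
    fm (KK T) c g * (P * a / 2) - (fA (KK T) c g + fm (KK T) c g * a) *
      (‖Qf h b ζ‖ ^ 2 + -((c ^ 2 - 1) + P) / 4)
  have hw2 : (pa b ζ).re = w / 2 := by linarith
  rw [hw2]
  nlinarith

theorem Psi_per (T : ℝ) (h b : ℂ → ℂ) (ζ : ℂ) :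
    Psi T h b (ζ + ((2 * Real.pi : ℝ) : ℂ) * I) = Psi T h b ζ := by
  have e1 : exp (ζ + ((2 * Real.pi : ℝ) : ℂ) * I) = exp ζ := by
    rw [Complex.exp_add]
    have : exp (((2 * Real.pi : ℝ) : ℂ) * I) = 1 := by
      push_cast
      exact Complex.exp_two_pi_mul_I
    rw [this, mul_one]
  have e2 : (ζ + ((2 * Real.pi : ℝ) : ℂ) * I).re = ζ.re := by simp
  unfold Psi Rf Xf Qf ac pa dn Ac Ac1 mc mc1 Be Be1 H1
  rw [e1, e2]

/-- monotonicity of the flux -/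
theorem flux_mono (D : Dat h b) (hT : T < 0) {t : ℝ} (ht : t ≤ T) :
    (∫ θ in (0:ℝ)..(2 * Real.pi), Psi T h b (t + θ * I)).re ≤
      (∫ θ in (0:ℝ)..(2 * Real.pi), Psi T h b (T + θ * I)).re := by
  have hneg : ∀ ζ : ℂ, ζ.re ∈ Icc t T → ζ.re < 0 := fun ζ hζ => lt_of_le_of_lt hζ.2 hT
  choose! P hP using fun (ζ : ℂ) (hζ : ζ.re < 0) => hasW_Psi (T := T) D hζ
  refine green ht (Ψ := Psi T h b) (D := dPsi T h b) (P := P) ?_ ?_ ?_ ?_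
  · exact fun ζ hζ => hP ζ (hneg ζ hζ)
  · exact fun ζ hζ => (continuousAt_dPsi D (hneg ζ hζ)).continuousWithinAt
  · exact fun x => Psi_per T h b x
  · exact fun ζ hζ => re_dPsi D hT hζ.2

end IM66
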