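import Mathlib

/-!
# Wirtinger calculus and Green's formula on a periodic strip
-/

set_option autoImplicit false

namespace IM66

open Complex Metric Set MeasureTheory Filter Topology ComplexConjugate

/-- the real-linear map `v ↦ p v + q conj v` -/
noncomputable def wf (p q : ℂ) : ℂ →L[ℝ] ℂ :=
  p • (ContinuousLinearMap.id ℝ ℂ) + q • (Complex.conjCLE : ℂ →L[ℝ] ℂ)

theorem wf_apply (p q v : ℂ) : wf p q v = p * v + q * conj v := by
  simp [wf]

theorem wf_ext {A : ℂ →L[ℝ] ℂ} {p q : ℂ} (h : ∀ v : ℂ, A v = p * v + q * conj v) :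
    A = wf p q := by
  ext v
  rw [h, wf_apply]

/-- `f` has Wirtinger derivatives `∂f = p` and `∂̄f = q` at `z` -/
def HasW (f : ℂ → ℂ) (p q z : ℂ) : Prop := HasFDerivAt f (wf p q) z

variable {f g : ℂ → ℂ} {p q p' q' z : ℂ}

theorem hasW_of {A : ℂ →L[ℝ] ℂ} (h : HasFDerivAt f A z) (e : ∀ v : ℂ, A v = p * v + q * conj v) :
    HasW f p q z := h.congr_fderiv (wf_ext e)

theorem HasW.congr (h : HasW f p q z) (hp : p = p') (hq : q = q') : HasW f p' q' z := by
  subst hp; subst hq; exact h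

theorem HasW.continuousAt (h : HasW f p q z) : ContinuousAt f z := HasFDerivAt.continuousAt h

theorem hasW_const (a : ℂ) : HasW (fun _ => a) 0 0 z := by
  have h := hasFDerivAt_const (𝕜 := ℝ) a z
  refine hasW_of h ?_
  intro v
  simp

theorem HasW.add (hf : HasW f p q z) (hg : HasW g p' q' z) :
    HasW (fun z => f z + g z) (p + p') (q + q') z := by
  have h := HasFDerivAt.add hf hg
  refine hasW_of h ?_
  intro v
  simp only [add_apply, wf_apply]
  ring

theorem HasW.neg (hf : HasW f p q z) : HasW (fun z => -f z) (-p) (-q) z := by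
  have h := HasFDerivAt.neg hf
  refine hasW_of h ?_
  intro v
  simp only [neg_apply, wf_apply]
  ring

theorem HasW.sub (hf : HasW f p q z) (hg : HasW g p' q' z) :
    HasW (fun z => f z - g z) (p - p') (q - q') z := by
  have h := HasFDerivAt.sub hf hg
  refine hasW_of h ?_
  intro v
  simp only [sub_apply, wf_apply]
  ring

theorem HasW.mul (hf : HasW f p q z) (hg : HasW g p' q' z) :
    HasW (fun z => f z * g z) (p * g z + f z * p') (q * g z + f z * q') z := by
  have h := HasFDerivAt.mul hf hg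
  refine hasW_of h ?_
  intro v
  simp only [add_apply, smul_apply, wf_apply, smul_eq_mul]
  ring

/-- holomorphic functions -/
theorem hasW_hol {f' : ℂ} (hf : HasDerivAt f f' z) : HasW f f' 0 z := by
  have h := hf.hasFDerivAt.restrictScalars ℝ
  refine hasW_of h ?_
  intro v
  simp [mul_comm]

theorem HasW.conj (hf : HasW f p q z) : HasW (fun z => conj (f z)) (conj q) (conj p) z := by
  have h := (Complex.conjCLE : ℂ →L[ℝ] ℂ).hasFDerivAt.comp z hf
  refine hasW_of h ?_
  intro v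
  simp [wf_apply]
  ring

/-- composition with a holomorphic function -/
theorem HasW.comp_hol {φ : ℂ → ℂ} {φ' : ℂ} (hφ : HasDerivAt φ φ' (f z)) (hf : HasW f p q z) :
    HasW (fun z => φ (f z)) (φ' * p) (φ' * q) z := by
  have h := (hφ.hasFDerivAt.restrictScalars ℝ).comp z hf
  refine hasW_of h ?_
  intro v
  simp [wf_apply]
  ring

theorem HasW.inv (hf : HasW f p q z) (h0 : f z ≠ 0) :
    HasW (fun z => (f z)⁻¹) (-p / f z ^ 2) (-q / f z ^ 2) z := by
  have h := HasW.comp_hol (hasDerivAt_inv h0) hf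
  refine h.congr ?_ ?_ <;> field_simp

theorem HasW.div (hf : HasW f p q z) (hg : HasW g p' q' z) (h0 : g z ≠ 0) :
    HasW (fun z => f z / g z) ((p * g z - f z * p') / g z ^ 2) ((q * g z - f z * q') / g z ^ 2)
      z := by
  have h := hf.mul (hg.inv h0)
  have e : (fun z => f z / g z) = fun z => f z * (g z)⁻¹ := by
    funext z; rw [div_eq_mul_inv]
  rw [e]
  refine h.congr ?_ ?_ <;> field_simp <;> ring

/-- functions of the real part -/
theorem hasW_re {φ : ℝ → ℝ} {φ' : ℝ} (hφ : HasDerivAt φ φ' z.re) :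
    HasW (fun z => ((φ z.re : ℝ) : ℂ)) ((φ' / 2 : ℝ) : ℂ) ((φ' / 2 : ℝ) : ℂ) z := by
  have h1 := hφ.hasFDerivAt.comp z Complex.reCLM.hasFDerivAt
  have h := Complex.ofRealCLM.hasFDerivAt.comp z h1
  refine hasW_of h ?_
  intro v
  simp only [ContinuousLinearMap.comp_apply, Complex.reCLM_apply, Complex.ofRealCLM_apply,
    ContinuousLinearMap.toSpanSingleton_apply, smul_eq_mul]
  apply Complex.ext <;> simp
  ring

/-- modulus of a nonvanishing holomorphic function -/
theorem hasW_norm {f' : ℂ} (hf : HasDerivAt f f' z) (h0 : f z ≠ 0) :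
    HasW (fun z => ((‖f z‖ : ℝ) : ℂ)) (‖f z‖ * (f' / (2 * f z)))
      (‖f z‖ * conj (f' / (2 * f z))) z := by
  have hn : 0 < ‖f z‖ := norm_pos_iff.2 h0
  have hc : conj (f z) ≠ 0 := (map_ne_zero _).2 h0
  -- square
  have h1 := (hasW_hol hf).mul (hasW_hol hf).conj
  have hN : HasFDerivAt (fun z => ‖f z‖ ^ 2)
      (Complex.reCLM.comp (wf (f' * conj (f z)) (f z * conj f'))) z := by
    have h2 := Complex.reCLM.hasFDerivAt.comp z h1
    have e : (fun z => ‖f z‖ ^ 2) = fun z => Complex.reCLM (f z * conj (f z)) := by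
      funext z
      rw [Complex.mul_conj, Complex.normSq_eq_norm_sq, Complex.reCLM_apply, Complex.ofReal_re]
    rw [e]
    refine h2.congr_fderiv ?_
    congr 1
    refine wf_ext ?_
    intro v
    simp [wf_apply]
  have h3 := hN.sqrt (by positivity)
  have e2 : (fun z => Real.sqrt (‖f z‖ ^ 2)) = fun z => ‖f z‖ := by
    funext z; rw [Real.sqrt_sq (norm_nonneg _)]
  rw [e2] at h3
  have h := Complex.ofRealCLM.hasFDerivAt.comp z h3
  refine hasW_of h ?_
  intro v
  rw [Real.sqrt_sq (norm_nonneg _)]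
  simp only [ContinuousLinearMap.comp_apply, smul_apply, Complex.reCLM_apply,
    Complex.ofRealCLM_apply, wf_apply, smul_eq_mul]
  have hnc : (‖f z‖ : ℂ) ≠ 0 := by exact_mod_cast hn.ne'
  have key : ((‖f z‖ : ℂ)) ^ 2 = f z * conj (f z) := by
    rw [Complex.mul_conj, Complex.normSq_eq_norm_sq]; push_cast; ring
  have e3 : f z * conj f' * conj v = conj (f' * conj (f z) * v) := by
    simp only [map_mul, Complex.conj_conj]
    ring
  rw [e3]
  set X := f' * conj (f z) * v with hX
  have e4 : ((X + conj X).re : ℂ) = X + conj X := by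
    rw [Complex.add_conj]; simp
  push_cast
  rw [e4]
  simp only [map_div₀, map_mul, Complex.conj_ofNat]
  rw [hX]
  simp only [map_mul, Complex.conj_conj]
  have hf0 := h0
  field_simp
  rw [key]
  field_simp

theorem re_int_nonneg {f : ℝ → ℂ} {a b : ℝ} (hab : a ≤ b) (h : ∀ x ∈ Icc a b, 0 ≤ (f x).re) :
    0 ≤ (∫ x in a..b, f x).re := by
  by_cases hi : IntervalIntegrable f volume a b
  · have h1 := Complex.reCLM.intervalIntegral_comp_comm hi
    simp only [Complex.reCLM_apply] at h1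
    rw [← h1]
    exact intervalIntegral.integral_nonneg hab h
  · rw [intervalIntegral.integral_undef hi]
    simp

/-- real part of the integral over one period increases -/
theorem green {Ψ D P : ℂ → ℂ} {a b : ℝ} (hab : a ≤ b)
    (hΨ : ∀ ζ : ℂ, ζ.re ∈ Icc a b → HasW Ψ (P ζ) (D ζ) ζ)
    (hD : ContinuousOn D {ζ : ℂ | ζ.re ∈ Icc a b})
    (per : ∀ x : ℝ, Ψ (x + ((2 * Real.pi : ℝ) : ℂ) * I) = Ψ x)
    (hpos : ∀ ζ : ℂ, ζ.re ∈ Icc a b → 0 ≤ (D ζ).re) :
    (∫ θ in (0:ℝ)..(2 * Real.pi), Ψ (a + θ * I)).re ≤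
      (∫ θ in (0:ℝ)..(2 * Real.pi), Ψ (b + θ * I)).re := by
  have hpi : (0:ℝ) ≤ 2 * Real.pi := Real.two_pi_pos.le
  have hre : ∀ x y : ℝ, ((x : ℂ) + y * I).re = x := by intro x y; simp
  have hsub : (uIcc (a : ℂ).re ((b : ℂ) + ((2 * Real.pi : ℝ) : ℂ) * I).re ×ℂ
      uIcc (a : ℂ).im ((b : ℂ) + ((2 * Real.pi : ℝ) : ℂ) * I).im) ⊆
      {ζ : ℂ | ζ.re ∈ Icc a b} := by
    intro ζ hζ
    have h1 := hζ.1
    rw [hre, Complex.ofReal_re, mem_preimage, uIcc_of_le hab] at h1
    exact h1
  have h1 := integral_boundary_rect_of_continuousOn_of_hasFDerivAt_real Ψ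
    (fun ζ => wf (P ζ) (D ζ)) (a : ℂ) (b + ((2 * Real.pi : ℝ) : ℂ) * I) ?_ ?_ ?_
  · simp only [Complex.ofReal_re, Complex.ofReal_im, Complex.add_re, Complex.mul_re, Complex.I_re,
      Complex.I_im, Complex.add_im, Complex.mul_im, mul_zero, mul_one, zero_add, add_zero,
      sub_zero, smul_eq_mul, wf_apply, Complex.conj_I, map_one] at h1
    have e1 : ∀ x : ℝ, Ψ ((x : ℂ) + ((0 : ℝ) : ℂ) * I) = Ψ x := by intro x; simp
    simp_rw [per, e1] at h1
    rw [sub_self, zero_add] at h1
    have e2 : ∀ x y : ℝ, I * (P ((x : ℂ) + y * I) + D ((x : ℂ) + y * I)) -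
        (P ((x : ℂ) + y * I) * I + D ((x : ℂ) + y * I) * -I) = I * (2 * D ((x : ℂ) + y * I)) := by
      intro x y; ring
    simp_rw [e2, intervalIntegral.integral_const_mul] at h1
    rw [← mul_sub] at h1
    have h2 := mul_left_cancel₀ Complex.I_ne_zero h1
    have h3 : 0 ≤ ((2 : ℂ) * ∫ x : ℝ in a..b, ∫ y : ℝ in (0:ℝ)..2 * Real.pi,
        D ((x : ℂ) + y * I)).re := by
      have h4 : 0 ≤ (∫ x : ℝ in a..b, ∫ y : ℝ in (0:ℝ)..2 * Real.pi, D ((x : ℂ) + y * I)).re := by
        refine re_int_nonneg hab fun x hx => re_int_nonneg hpi fun y _ => ?_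
        exact hpos _ (by rw [hre]; exact hx)
      simpa using h4
    rw [← h2, Complex.sub_re] at h3
    linarith
  · intro ζ hζ
    exact (hΨ ζ (hsub hζ)).continuousAt.continuousWithinAt
  · intro ζ hζ
    refine hΨ ζ (hsub ?_)
    refine ⟨?_, ?_⟩
    · have := hζ.1
      rw [mem_preimage] at this ⊢
      exact ⟨this.1.le, this.2.le⟩
    · have := hζ.2
      rw [mem_preimage] at this ⊢
      exact ⟨this.1.le, this.2.le⟩
  · have hc : ContinuousOn (fun z : ℂ => I • (wf (P z) (D z)) 1 - (wf (P z) (D z)) I)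
        {ζ : ℂ | ζ.re ∈ Icc a b} := by
      have e3 : (fun z : ℂ => I • (wf (P z) (D z)) 1 - (wf (P z) (D z)) I) =
          fun z => I * (2 * D z) := by
        funext z
        rw [wf_apply, wf_apply, smul_eq_mul, map_one, Complex.conj_I]
        ring
      rw [e3]
      exact continuousOn_const.mul (continuousOn_const.mul hD)
    refine (hc.mono hsub).integrableOn_compact ?_
    exact isCompact_uIcc.reProdIm isCompact_uIcc

end IM66
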