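import Pool.Agent.IM66.Defs
import Pool.Agent.IM66.Wir
import Pool.Agent.IM66.Fun
import Pool.Agent.IM66.Alg

/-!
# The flux function and its `∂̄`-derivative
-/

set_option autoImplicit false

namespace IM66

open Complex Metric Set MeasureTheory Filter Topology ComplexConjugate

variable {h b : ℂ → ℂ}

theorem exp_mem {ζ : ℂ} (hζ : ζ.re < 0) : exp ζ ∈ ball (0:ℂ) 1 := by
  rw [mem_ball_zero_iff, Complex.norm_exp]
  exact Real.exp_lt_one_iff.2 hζ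

/-- `h'/(..)` part: `z h'(z)` -/
noncomputable def H1 (h : ℂ → ℂ) (ζ : ℂ) : ℂ := exp ζ * deriv h (exp ζ)

noncomputable def Be (b : ℂ → ℂ) (ζ : ℂ) : ℂ := BB b (exp ζ)

noncomputable def Be1 (b : ℂ → ℂ) (ζ : ℂ) : ℂ := exp ζ * B1 b (exp ζ)

/-- `1 - |B|^2` -/
noncomputable def dn (b : ℂ → ℂ) (ζ : ℂ) : ℂ := 1 - Be b ζ * conj (Be b ζ)

/-- `a` -/
noncomputable def ac (b : ℂ → ℂ) (ζ : ℂ) : ℂ := (1 + Be b ζ * conj (Be b ζ)) / dn b ζ

/-- `∂ a` -/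
noncomputable def pa (b : ℂ → ℂ) (ζ : ℂ) : ℂ := 2 * (Be1 b ζ * conj (Be b ζ)) / dn b ζ ^ 2

/-- `∂̄ ∂ a` -/
noncomputable def ea (b : ℂ → ℂ) (ζ : ℂ) : ℂ :=
  2 * (Be1 b ζ * conj (Be1 b ζ)) * (1 + Be b ζ * conj (Be b ζ)) / dn b ζ ^ 3

/-- `Q = ∂ log ρ` -/
noncomputable def Qf (h b : ℂ → ℂ) (ζ : ℂ) : ℂ :=
  -(((cc ζ.re - 1) / 2 : ℝ) : ℂ) + H1 h ζ / (2 * h (exp ζ)) -
    Be1 b ζ * conj (Be b ζ) / dn b ζ

/-- `∂̄ ∂ log ρ` -/
noncomputable def eQ (b : ℂ → ℂ) (ζ : ℂ) : ℂ :=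
  -(((cc ζ.re ^ 2 - 1) / 4 : ℝ) : ℂ) - Be1 b ζ * conj (Be1 b ζ) / dn b ζ ^ 2

/-- the conformal radius -/
noncomputable def Rf (h b : ℂ → ℂ) (ζ : ℂ) : ℂ :=
  ((2 / (cc ζ.re + 1) : ℝ) : ℂ) * ((‖h (exp ζ)‖ : ℝ) : ℂ) * dn b ζ

noncomputable def Ac (T : ℝ) (ζ : ℂ) : ℂ := ((fA (KK T) (cc ζ.re) (gg T ζ.re) : ℝ) : ℂ)
noncomputable def Ac1 (T : ℝ) (ζ : ℂ) : ℂ := ((fA1 (KK T) (cc ζ.re) (gg T ζ.re) : ℝ) : ℂ)
noncomputable def Ac2 (T : ℝ) (ζ : ℂ) : ℂ := ((fA2 (KK T) (cc ζ.re) (gg T ζ.re) : ℝ) : ℂ)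
noncomputable def mc (T : ℝ) (ζ : ℂ) : ℂ := ((fm (KK T) (cc ζ.re) (gg T ζ.re) : ℝ) : ℂ)
noncomputable def mc1 (T : ℝ) (ζ : ℂ) : ℂ := ((fm1 (KK T) (cc ζ.re) : ℝ) : ℂ)
noncomputable def mc2 (T : ℝ) (ζ : ℂ) : ℂ := ((fm2 (KK T) (cc ζ.re) : ℝ) : ℂ)

/-- `X = ∂ Z - Z ∂ log ρ` -/
noncomputable def Xf (T : ℝ) (h b : ℂ → ℂ) (ζ : ℂ) : ℂ :=
  Ac1 T ζ / 2 + mc1 T ζ / 2 * ac b ζ + mc T ζ * pa b ζ - (Ac T ζ + mc T ζ * ac b ζ) * Qf h b ζ

/-- `∂̄ X` -/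
noncomputable def dX (T : ℝ) (h b : ℂ → ℂ) (ζ : ℂ) : ℂ :=
  Ac2 T ζ / 4 + mc2 T ζ / 4 * ac b ζ + mc1 T ζ / 2 * conj (pa b ζ) + mc1 T ζ / 2 * pa b ζ +
    mc T ζ * ea b ζ - ((Ac1 T ζ / 2 + mc1 T ζ / 2 * ac b ζ + mc T ζ * conj (pa b ζ)) * Qf h b ζ +
    (Ac T ζ + mc T ζ * ac b ζ) * eQ b ζ)

/-- the flux -/
noncomputable def Psi (T : ℝ) (h b : ℂ → ℂ) (ζ : ℂ) : ℂ := 2 * (Rf h b ζ * Xf T h b ζ)

noncomputable def dPsi (T : ℝ) (h b : ℂ → ℂ) (ζ : ℂ) : ℂ :=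
  2 * (Rf h b ζ * conj (Qf h b ζ) * Xf T h b ζ + Rf h b ζ * dX T h b ζ)

section

variable {T : ℝ} {ζ : ℂ}

theorem norm_BB_lt (D : Dat h b) {z : ℂ} (hz : z ∈ ball (0:ℂ) 1) : ‖BB b z‖ < 1 := by
  have h1 : ‖z‖ < 1 := by simpa using hz
  have h2 := D.hb z hz
  unfold BB
  rw [norm_mul]
  nlinarith [norm_nonneg z, norm_nonneg (b z)]

theorem dn_eq (b : ℂ → ℂ) (ζ : ℂ) : dn b ζ = ((1 - ‖Be b ζ‖ ^ 2 : ℝ) : ℂ) := by
  unfold dn
  rw [Complex.mul_conj, Complex.normSq_eq_norm_sq]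
  push_cast
  ring

theorem dn_pos (D : Dat h b) (hζ : ζ.re < 0) : 0 < 1 - ‖Be b ζ‖ ^ 2 := by
  have h1 := norm_BB_lt D (exp_mem hζ)
  unfold Be
  nlinarith [norm_nonneg (BB b (exp ζ))]

theorem dn_ne (D : Dat h b) (hζ : ζ.re < 0) : dn b ζ ≠ 0 := by
  rw [dn_eq]
  exact_mod_cast (dn_pos D hζ).ne'

theorem hasDerivAt_h (D : Dat h b) {z : ℂ} (hz : z ∈ ball (0:ℂ) 1) :
    HasDerivAt h (deriv h z) z :=
  (D.dh.differentiableAt (isOpen_ball.mem_nhds hz)).hasDerivAt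

theorem hasDerivAt_b (D : Dat h b) {z : ℂ} (hz : z ∈ ball (0:ℂ) 1) :
    HasDerivAt b (deriv b z) z :=
  (D.db.differentiableAt (isOpen_ball.mem_nhds hz)).hasDerivAt

theorem hasDerivAt_BB (D : Dat h b) {z : ℂ} (hz : z ∈ ball (0:ℂ) 1) :
    HasDerivAt (BB b) (B1 b z) z := by
  have h1 := (hasDerivAt_id z).mul (hasDerivAt_b D hz)
  refine h1.congr_deriv ?_
  simp [B1]

theorem hasDerivAt_hexp (D : Dat h b) (hζ : ζ.re < 0) :
    HasDerivAt (fun ζ => h (exp ζ)) (H1 h ζ) ζ := by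
  have h1 := (hasDerivAt_h D (exp_mem hζ)).comp ζ (Complex.hasDerivAt_exp ζ)
  refine h1.congr_deriv ?_
  unfold H1; ring

theorem hasDerivAt_Be (D : Dat h b) (hζ : ζ.re < 0) :
    HasDerivAt (Be b) (Be1 b ζ) ζ := by
  have h1 := (hasDerivAt_BB D (exp_mem hζ)).comp ζ (Complex.hasDerivAt_exp ζ)
  refine h1.congr_deriv ?_
  unfold Be1; ring

theorem diffAt_H1 (D : Dat h b) (hζ : ζ.re < 0) : ∃ d, HasDerivAt (H1 h) d ζ := by
  have h1 : DifferentiableAt ℂ (deriv h) (exp ζ) :=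
    (D.dh.deriv isOpen_ball).differentiableAt (isOpen_ball.mem_nhds (exp_mem hζ))
  have h2 : DifferentiableAt ℂ (H1 h) ζ := by
    unfold H1
    exact (Complex.differentiableAt_exp).mul (h1.comp ζ Complex.differentiableAt_exp)
  exact ⟨_, h2.hasDerivAt⟩

theorem diffAt_Be1 (D : Dat h b) (hζ : ζ.re < 0) : ∃ d, HasDerivAt (Be1 b) d ζ := by
  have hm := isOpen_ball.mem_nhds (exp_mem hζ)
  have h1 : DifferentiableAt ℂ (deriv b) (exp ζ) := (D.db.deriv isOpen_ball).differentiableAt hm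
  have h3 : DifferentiableAt ℂ b (exp ζ) := D.db.differentiableAt hm
  have h4 : DifferentiableAt ℂ (B1 b) (exp ζ) := by
    unfold B1
    exact h3.add (differentiableAt_id.mul h1)
  have h2 : DifferentiableAt ℂ (Be1 b) ζ := by
    unfold Be1
    exact (Complex.differentiableAt_exp).mul (h4.comp ζ Complex.differentiableAt_exp)
  exact ⟨_, h2.hasDerivAt⟩

/-! ### Wirtinger derivatives -/

theorem hasW_Be (D : Dat h b) (hζ : ζ.re < 0) : HasW (Be b) (Be1 b ζ) 0 ζ :=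
  hasW_hol (hasDerivAt_Be D hζ)

theorem hasW_Bec (D : Dat h b) (hζ : ζ.re < 0) :
    HasW (fun ζ => conj (Be b ζ)) 0 (conj (Be1 b ζ)) ζ :=
  (hasW_Be D hζ).conj.congr (by simp) rfl

theorem hasW_qq (D : Dat h b) (hζ : ζ.re < 0) :
    HasW (fun ζ => Be b ζ * conj (Be b ζ)) (Be1 b ζ * conj (Be b ζ))
      (Be b ζ * conj (Be1 b ζ)) ζ :=
  ((hasW_Be D hζ).mul (hasW_Bec D hζ)).congr (by ring) (by ring)

theorem hasW_dn (D : Dat h b) (hζ : ζ.re < 0) :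
    HasW (dn b) (-(Be1 b ζ * conj (Be b ζ))) (-(Be b ζ * conj (Be1 b ζ))) ζ :=
  ((hasW_const 1).sub (hasW_qq D hζ)).congr (by ring) (by ring)

theorem hasW_ac (D : Dat h b) (hζ : ζ.re < 0) :
    HasW (ac b) (pa b ζ) (conj (pa b ζ)) ζ := by
  have h1 := (((hasW_const 1).add (hasW_qq D hζ)).div (hasW_dn D hζ) (dn_ne D hζ))
  have h0 := dn_ne D hζ
  refine h1.congr ?_ ?_
  · unfold pa
    rw [div_left_inj' (pow_ne_zero 2 h0)]
    unfold dn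
    ring
  · unfold pa
    have e : conj (dn b ζ) = dn b ζ := by rw [dn_eq, Complex.conj_ofReal]
    simp only [map_div₀, map_mul, map_pow, Complex.conj_conj, e, map_ofNat]
    rw [div_left_inj' (pow_ne_zero 2 h0)]
    unfold dn
    ring

theorem hasW_pa (D : Dat h b) (hζ : ζ.re < 0) : ∃ p, HasW (pa b) p (ea b ζ) ζ := by
  obtain ⟨d, hd⟩ := diffAt_Be1 D hζ
  have h0 := dn_ne D hζ
  have hn := hasW_dn D hζ
  have h1 := ((hasW_const 2).mul ((hasW_hol hd).mul (hasW_Bec D hζ))).div (hn.mul hn)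
    (mul_ne_zero h0 h0)
  have e : (fun ζ => 2 * (Be1 b ζ * conj (Be b ζ)) / (dn b ζ * dn b ζ)) = pa b := by
    funext ζ
    unfold pa
    rw [sq]
  rw [e] at h1
  refine ⟨_, h1.congr rfl ?_⟩
  unfold ea
  field_simp
  unfold dn
  ring

theorem hasW_Rf (D : Dat h b) (hζ : ζ.re < 0) :
    HasW (Rf h b) (Rf h b ζ * Qf h b ζ) (Rf h b ζ * conj (Qf h b ζ)) ζ := by
  have hc := one_lt_cc hζ
  have h0 := dn_ne D hζ
  have hh0 := D.hne _ (exp_mem hζ)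
  have h1 : HasDerivAt (fun t => 2 / (cc t + 1)) (-(cc ζ.re - 1) * (2 / (cc ζ.re + 1))) ζ.re := by
    have hc1 : cc ζ.re + 1 ≠ 0 := by linarith
    have h2 := (hasDerivAt_const ζ.re (2:ℝ)).div ((hasDerivAt_cc hζ).add_const 1) hc1
    refine h2.congr_deriv ?_
    field_simp
    ring
  have h2 := ((hasW_re h1).mul (hasW_norm (hasDerivAt_hexp D hζ) hh0)).mul (hasW_dn D hζ)
  refine h2.congr ?_ ?_
  · unfold Rf Qf
    push_cast
    field_simp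
    ring
  · unfold Rf Qf
    have e : conj (dn b ζ) = dn b ζ := by rw [dn_eq, Complex.conj_ofReal]
    simp only [map_add, map_sub, map_neg, map_div₀, map_mul, Complex.conj_conj, e, map_ofNat,
      Complex.conj_ofReal]
    have hh1 : conj (h (exp ζ)) ≠ 0 := (map_ne_zero _).2 hh0
    push_cast
    field_simp
    ring

theorem hasW_Qf (D : Dat h b) (hζ : ζ.re < 0) : ∃ p, HasW (Qf h b) p (eQ b ζ) ζ := by
  obtain ⟨d1, hd1⟩ := diffAt_H1 D hζ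
  obtain ⟨d2, hd2⟩ := diffAt_Be1 D hζ
  have h0 := dn_ne D hζ
  have hh0 := D.hne _ (exp_mem hζ)
  have h1 : HasDerivAt (fun t => (cc t - 1) / 2) ((cc ζ.re ^ 2 - 1) / 2) ζ.re :=
    ((hasDerivAt_cc hζ).sub_const 1).div_const 2
  have h2 : HasDerivAt (fun ζ => 2 * h (exp ζ)) (2 * H1 h ζ) ζ :=
    (hasDerivAt_hexp D hζ).const_mul 2
  have h3 := hasW_hol (hd1.div h2 (mul_ne_zero two_ne_zero hh0))
  have h4 := ((hasW_hol hd2).mul (hasW_Bec D hζ)).div (hasW_dn D hζ) h0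
  have h5 := ((hasW_re h1).neg.add h3).sub h4
  refine ⟨_, h5.congr rfl ?_⟩
  unfold eQ
  have e : (((cc ζ.re ^ 2 - 1) / 2 / 2 : ℝ) : ℂ) = (((cc ζ.re ^ 2 - 1) / 4 : ℝ) : ℂ) := by
    congr 1; ring
  rw [e]
  have e2 : (0 * conj (Be b ζ) + Be1 b ζ * conj (Be1 b ζ)) * dn b ζ -
      Be1 b ζ * conj (Be b ζ) * -(Be b ζ * conj (Be1 b ζ)) = Be1 b ζ * conj (Be1 b ζ) := by
    unfold dn; ring
  rw [e2]
  ring

theorem hasW_Ac (hζ : ζ.re < 0) : HasW (Ac T) (Ac1 T ζ / 2) (Ac1 T ζ / 2) ζ := by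
  refine (hasW_re (hasDerivAt_fA (T := T) hζ)).congr ?_ ?_ <;> · unfold Ac1; push_cast; ring

theorem hasW_Ac1 (hζ : ζ.re < 0) : HasW (Ac1 T) (Ac2 T ζ / 2) (Ac2 T ζ / 2) ζ := by
  refine (hasW_re (hasDerivAt_fA1 (T := T) hζ)).congr ?_ ?_ <;> · unfold Ac2; push_cast; ring

theorem hasW_mc (hζ : ζ.re < 0) : HasW (mc T) (mc1 T ζ / 2) (mc1 T ζ / 2) ζ := by
  refine (hasW_re (hasDerivAt_fm (T := T) hζ)).congr ?_ ?_ <;> · unfold mc1; push_cast; ring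

theorem hasW_mc1 (hζ : ζ.re < 0) : HasW (mc1 T) (mc2 T ζ / 2) (mc2 T ζ / 2) ζ := by
  refine (hasW_re (hasDerivAt_fm1 (T := T) hζ)).congr ?_ ?_ <;> · unfold mc2; push_cast; ring

theorem hasW_Xf (D : Dat h b) (hζ : ζ.re < 0) : ∃ p, HasW (Xf T h b) p (dX T h b ζ) ζ := by
  obtain ⟨p1, h1⟩ := hasW_pa D hζ
  obtain ⟨p2, h2⟩ := hasW_Qf D hζ
  have ha := hasW_ac D hζ
  have hA := hasW_Ac (T := T) hζ
  have hA1 := hasW_Ac1 (T := T) hζ
  have hm := hasW_mc (T := T) hζ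
  have hm1 := hasW_mc1 (T := T) hζ
  have h3 := (((hA1.mul (hasW_const (1/2))).add ((hm1.mul (hasW_const (1/2))).mul ha)).add
    (hm.mul h1)).sub ((hA.add (hm.mul ha)).mul h2)
  have e : Xf T h b = fun ζ => Ac1 T ζ * (1/2) + mc1 T ζ * (1/2) * ac b ζ + mc T ζ * pa b ζ -
      (Ac T ζ + mc T ζ * ac b ζ) * Qf h b ζ := by
    funext ζ; unfold Xf; ring
  rw [e]
  refine ⟨_, h3.congr rfl ?_⟩
  unfold dX
  ring

theorem hasW_Psi (D : Dat h b) (hζ : ζ.re < 0) : ∃ p, HasW (Psi T h b) p (dPsi T h b ζ) ζ := by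
  obtain ⟨p1, h1⟩ := hasW_Xf (T := T) D hζ
  have h3 := (hasW_const 2).mul ((hasW_Rf D hζ).mul h1)
  refine ⟨_, h3.congr rfl ?_⟩
  unfold dPsi
  ring

/-! ### Continuity -/

theorem continuousAt_dPsi (D : Dat h b) (hζ : ζ.re < 0) : ContinuousAt (dPsi T h b) ζ := by
  obtain ⟨p1, h1⟩ := hasW_Xf (T := T) D hζ
  obtain ⟨p2, h2⟩ := hasW_Qf D hζ
  obtain ⟨p3, h3⟩ := hasW_pa D hζ
  obtain ⟨d2, hd2⟩ := diffAt_Be1 D hζ
  have cR := (hasW_Rf D hζ).continuousAt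
  have cX := h1.continuousAt
  have cQ := h2.continuousAt
  have cp := h3.continuousAt
  have ca := (hasW_ac D hζ).continuousAt
  have cA := (hasW_Ac (T := T) hζ).continuousAt
  have cA1 := (hasW_Ac1 (T := T) hζ).continuousAt
  have cm := (hasW_mc (T := T) hζ).continuousAt
  have cm1 := (hasW_mc1 (T := T) hζ).continuousAt
  have cB1 := hd2.continuousAt
  have cB := (hasDerivAt_Be D hζ).continuousAt
  have cd := (hasW_dn D hζ).continuousAt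
  have hd0 := dn_ne D hζ
  have hcc : ContinuousAt (fun ζ : ℂ => cc ζ.re) ζ :=
    ContinuousAt.comp (f := Complex.re) (hasDerivAt_cc hζ).continuousAt
      Complex.continuous_re.continuousAt
  have hcg : ContinuousAt (fun ζ : ℂ => gg T ζ.re) ζ :=
    ContinuousAt.comp (f := Complex.re) (hasDerivAt_gg (T := T) hζ).continuousAt
      Complex.continuous_re.continuousAt
  have hc1 := one_lt_cc hζ
  have hs : cc ζ.re ^ 2 - 1 ≠ 0 := by nlinarith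
  have hcl : ContinuousAt (fun ζ : ℂ => lam (KK T) (cc ζ.re)) ζ := by
    unfold lam
    exact (continuousAt_const.sub (continuousAt_const.mul (hcc.pow 3))).div
      ((hcc.pow 2).sub continuousAt_const) hs
  have cA2 : ContinuousAt (Ac2 T) ζ := by
    unfold Ac2 fA2
    refine Complex.continuous_ofReal.continuousAt.comp ?_
    exact ((((continuousAt_const.mul hcc).mul ((hcc.pow 2).sub continuousAt_const)).mul hcg).sub
      ((continuousAt_const.mul hcc))).add (((hcc.pow 2).sub continuousAt_const).mul hcl) |>.sub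
      ((continuousAt_const.mul (hcc.pow 2)).mul hcl)
  have cm2 : ContinuousAt (mc2 T) ζ := by
    unfold mc2 fm2
    refine Complex.continuous_ofReal.continuousAt.comp ?_
    exact (((continuousAt_const.mul ((hcc.pow 2).sub continuousAt_const)).neg).add
      (continuousAt_const.mul (hcc.pow 2))).add ((continuousAt_const.mul hcc).mul hcl)
  have cconj : ∀ {f : ℂ → ℂ}, ContinuousAt f ζ → ContinuousAt (fun ζ => conj (f ζ)) ζ :=
    fun hf => Complex.continuous_conj.continuousAt.comp hf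
  have cea : ContinuousAt (ea b) ζ := by
    unfold ea
    exact (((continuousAt_const.mul (cB1.mul (cconj cB1))).mul
      (continuousAt_const.add (cB.mul (cconj cB))))).div (cd.pow 3) (pow_ne_zero 3 hd0)
  have ceQ : ContinuousAt (eQ b) ζ := by
    unfold eQ
    refine ContinuousAt.sub (ContinuousAt.neg ?_) ?_
    · refine Complex.continuous_ofReal.continuousAt.comp ?_
      exact ((hcc.pow 2).sub continuousAt_const).div_const 4
    · exact (cB1.mul (cconj cB1)).div (cd.pow 2) (pow_ne_zero 2 hd0)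
  have cdX : ContinuousAt (dX T h b) ζ := by
    unfold dX
    exact (((((cA2.div_const 4).add ((cm2.div_const 4).mul ca)).add
      ((cm1.div_const 2).mul (cconj cp))).add ((cm1.div_const 2).mul cp)).add
      (cm.mul cea)).sub (((((cA1.div_const 2).add ((cm1.div_const 2).mul ca)).add
      (cm.mul (cconj cp))).mul cQ).add ((cA.add (cm.mul ca)).mul ceQ))
  unfold dPsi
  exact continuousAt_const.mul (((cR.mul (cconj cQ)).mul cX).add (cR.mul cdX))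

end

end IM66
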