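import Pool.Agent.IM66.Coef
import Pool.Agent.IM66.Gauge
import Pool.Agent.IM66.Mean
import Pool.Agent.IM66.MeanHG
import Pool.Agent.IM66.Num
import Pool.Agent.Reg66.Fin

/-!
# Sharp integral means and coefficient bounds for the class `S_H`
-/

set_option autoImplicit false

namespace IM66

open Complex Metric Set MeasureTheory AllN24 Pool.Agent.HU85
open scoped Nat

variable {L F G R : ℂ → ℂ}

/-- the bound for the integral mean -/
noncomputable def MB (r : ℝ) : ℝ := (1 + r) ^ 2 * (1 + r ^ 2) / (1 - r ^ 2) ^ 3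

/-- integral means of achronal lifts -/
theorem mean_ach (h : AchLift L F G R) {r : ℝ} (hr0 : 0 < r) (hr1 : r < 1) :
    (2 * Real.pi)⁻¹ * ∫ θ in (0:ℝ)..2 * Real.pi, ‖deriv L (circleMap 0 r θ)‖ ≤
      ‖deriv L 0‖ * MB r := by
  obtain ⟨b, k, D, hk0, -, hle⟩ := gauge h
  rw [← hk0]
  exact mean_L D (h.dL.deriv isOpen_ball).continuousOn hle hr0 hr1

section

variable {h g : ℂ → ℂ}

theorem pencil_pos (H : HarmU h g) (h1 : deriv h 0 = 1) {e : ℂ} (he : ‖e‖ = 1) :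
    0 < ‖1 + e * deriv g 0‖ := by
  have hb0 : (0 : ℂ) ∈ ball (0 : ℂ) 1 := by simp
  have h2 := H.lt 0 hb0
  rw [h1, norm_one] at h2
  have h3 := norm_sub_norm_le (1 : ℂ) (-(e * deriv g 0))
  rw [norm_one, norm_neg, norm_mul, he, one_mul, sub_neg_eq_add] at h3
  linarith

/-- integral means of every direction -/
theorem mean_dir (H : HarmU h g) (h0 : h 0 = 0) (g0 : g 0 = 0) (h1 : deriv h 0 = 1)
    {e : ℂ} (he : ‖e‖ = 1) {r : ℝ} (hr0 : 0 < r) (hr1 : r < 1) :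
    (2 * Real.pi)⁻¹ * ∫ θ in (0:ℝ)..2 * Real.pi,
      ‖deriv h (circleMap 0 r θ) + e * deriv g (circleMap 0 r θ)‖ ≤
      ‖1 + e * deriv g 0‖ * MB r := by
  have hm0 := pencil_pos H h1 he
  obtain ⟨c, hc, F, G, R, N⟩ := Reg66.lift H h0 g0 he
  rw [h1] at N
  have hmem : ∀ θ : ℝ, circleMap 0 r θ ∈ ball (0:ℂ) 1 := by
    intro θ
    rw [mem_ball_zero_iff, norm_circleMap_zero, abs_of_pos hr0]
    exact hr1
  have hder : ∀ z ∈ ball (0 : ℂ) 1,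
      deriv (fun z => c * (h z + e * g z) / ((‖1 + e * deriv g 0‖ : ℝ) : ℂ)) z =
      c * (deriv h z + e * deriv g z) / ((‖1 + e * deriv g 0‖ : ℝ) : ℂ) := by
    intro z hz
    have a1 := (H.hd.differentiableAt (isOpen_ball.mem_nhds hz)).hasDerivAt
    have a2 := (H.gd.differentiableAt (isOpen_ball.mem_nhds hz)).hasDerivAt
    exact (((a1.add (a2.const_mul e)).const_mul c).div_const _).deriv
  have hM := mean_ach N.toAchLift hr0 hr1
  rw [N.L1, one_mul] at hM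
  have e1 : (∫ θ in (0:ℝ)..2 * Real.pi,
      ‖deriv (fun z => c * (h z + e * g z) / ((‖1 + e * deriv g 0‖ : ℝ) : ℂ))
        (circleMap 0 r θ)‖) =
      ‖1 + e * deriv g 0‖⁻¹ * ∫ θ in (0:ℝ)..2 * Real.pi,
        ‖deriv h (circleMap 0 r θ) + e * deriv g (circleMap 0 r θ)‖ := by
    rw [← intervalIntegral.integral_const_mul]
    congr 1
    ext θ
    rw [hder _ (hmem θ), norm_div, norm_mul, hc, one_mul, Complex.norm_real,
      Real.norm_of_nonneg hm0.le, div_eq_inv_mul]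
  rw [e1] at hM
  have h5 := mul_le_mul_of_nonneg_left hM hm0.le
  refine le_trans (le_of_eq ?_) h5
  field_simp

/-- integral means of `h'` and of `g'` -/
theorem mean_both (H : HarmU h g) (h0 : h 0 = 0) (g0 : g 0 = 0) (h1 : deriv h 0 = 1)
    {r : ℝ} (hr0 : 0 < r) (hr1 : r < 1) :
    (2 * Real.pi)⁻¹ * ∫ θ in (0:ℝ)..2 * Real.pi, ‖deriv h (circleMap 0 r θ)‖ ≤ MB r ∧
    (2 * Real.pi)⁻¹ * ∫ θ in (0:ℝ)..2 * Real.pi, ‖deriv g (circleMap 0 r θ)‖ ≤ MB r := by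
  have hb1 : ‖deriv g 0‖ < 1 := by
    have h2 := H.lt 0 (by simp)
    rwa [h1, norm_one] at h2
  exact mean_hg H.hd H.gd h1 hb1 hr0 hr1 fun e he => mean_dir H h0 g0 h1 he hr0 hr1

/-- the two explicit bounds for a coefficient -/
theorem num_both {n : ℕ} (hn : 1 ≤ n) {A : ℝ} (hA : 0 ≤ A)
    (h : ∀ r : ℝ, 0 < r → r < 1 → (n : ℝ) * A * r ^ (n - 1) ≤ MB r) :
    A ≤ 3 / 4 * (n : ℝ) ^ 2 + 3 / 2 ∧ A ≤ Real.exp 3 / 27 * ((n : ℝ) ^ 2 + 5 / 2) :=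
  ⟨num hn hA h, num2 hn hA h⟩

theorem coef_f (f : ℂ → ℂ) (df : DifferentiableOn ℂ f (ball 0 1)) {n : ℕ} (hn : 1 ≤ n)
    (h : ∀ r : ℝ, 0 < r → r < 1 →
      (2 * Real.pi)⁻¹ * ∫ θ in (0:ℝ)..2 * Real.pi, ‖deriv f (circleMap 0 r θ)‖ ≤ MB r) :
    ‖iteratedDeriv n f 0‖ / (n ! : ℝ) ≤ 3 / 4 * (n : ℝ) ^ 2 + 3 / 2 ∧
    ‖iteratedDeriv n f 0‖ / (n ! : ℝ) ≤ Real.exp 3 / 27 * ((n : ℝ) ^ 2 + 5 / 2) := by
  refine num_both hn (by positivity) fun r hr0 hr1 => ?_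
  have h2 := (coef df hn hr0 hr1).trans (h r hr0 hr1)
  rwa [norm_div, Complex.norm_natCast] at h2

/-- coefficients of `h` and of `g` -/
theorem coef_both (H : HarmU h g) (h0 : h 0 = 0) (g0 : g 0 = 0) (h1 : deriv h 0 = 1)
    {n : ℕ} (hn : 1 ≤ n) :
    (‖iteratedDeriv n h 0‖ / (n ! : ℝ) ≤ 3 / 4 * (n : ℝ) ^ 2 + 3 / 2 ∧
      ‖iteratedDeriv n h 0‖ / (n ! : ℝ) ≤ Real.exp 3 / 27 * ((n : ℝ) ^ 2 + 5 / 2)) ∧
    (‖iteratedDeriv n g 0‖ / (n ! : ℝ) ≤ 3 / 4 * (n : ℝ) ^ 2 + 3 / 2 ∧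
      ‖iteratedDeriv n g 0‖ / (n ! : ℝ) ≤ Real.exp 3 / 27 * ((n : ℝ) ^ 2 + 5 / 2)) :=
  ⟨coef_f h H.hd hn fun _ hr0 hr1 => (mean_both H h0 g0 h1 hr0 hr1).1,
    coef_f g H.gd hn fun _ hr0 hr1 => (mean_both H h0 g0 h1 hr0 hr1).2⟩

/-- coefficients of `h + e g` -/
theorem coef_dir (H : HarmU h g) (h0 : h 0 = 0) (g0 : g 0 = 0) (h1 : deriv h 0 = 1)
    {e : ℂ} (he : ‖e‖ = 1) {n : ℕ} (hn : 1 ≤ n) :
    ‖iteratedDeriv n h 0 + e * iteratedDeriv n g 0‖ / (n ! : ℝ) ≤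
      ‖1 + e * deriv g 0‖ * (3 / 4 * (n : ℝ) ^ 2 + 3 / 2) ∧
    ‖iteratedDeriv n h 0 + e * iteratedDeriv n g 0‖ / (n ! : ℝ) ≤
      ‖1 + e * deriv g 0‖ * (Real.exp 3 / 27 * ((n : ℝ) ^ 2 + 5 / 2)) := by
  have hm0 := pencil_pos H h1 he
  set m : ℝ := ‖1 + e * deriv g 0‖ with hm
  have df : DifferentiableOn ℂ (fun z => h z + e * g z) (ball 0 1) :=
    H.hd.add (H.gd.const_mul e)
  have hder : ∀ z ∈ ball (0 : ℂ) 1, deriv (fun z => h z + e * g z) z =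
      deriv h z + e * deriv g z := by
    intro z hz
    have a1 := (H.hd.differentiableAt (isOpen_ball.mem_nhds hz)).hasDerivAt
    have a2 := (H.gd.differentiableAt (isOpen_ball.mem_nhds hz)).hasDerivAt
    exact (a1.add (a2.const_mul e)).deriv
  have hcf : iteratedDeriv n (fun z => h z + e * g z) 0 / (n ! : ℂ) =
      (iteratedDeriv n h 0 + e * iteratedDeriv n g 0) / (n ! : ℂ) := by
    have h5 := Reg66.cf_add n H.hd (H.gd.const_mul e)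
    rw [Reg66.cf_smul] at h5
    unfold Reg66.cf at h5
    rw [h5]
    ring
  have key : ∀ r : ℝ, 0 < r → r < 1 →
      (n : ℝ) * (‖iteratedDeriv n h 0 + e * iteratedDeriv n g 0‖ / (n ! : ℝ) / m) *
        r ^ (n - 1) ≤ MB r := by
    intro r hr0 hr1
    have h2 := coef df hn hr0 hr1
    have hmem : ∀ θ : ℝ, circleMap 0 r θ ∈ ball (0:ℂ) 1 := by
      intro θ
      rw [mem_ball_zero_iff, norm_circleMap_zero, abs_of_pos hr0]
      exact hr1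
    have e1 : (∫ θ in (0:ℝ)..2 * Real.pi, ‖deriv (fun z => h z + e * g z)
        (circleMap 0 r θ)‖) = ∫ θ in (0:ℝ)..2 * Real.pi,
          ‖deriv h (circleMap 0 r θ) + e * deriv g (circleMap 0 r θ)‖ := by
      congr 1
      ext θ
      rw [hder _ (hmem θ)]
    rw [e1, hcf, norm_div, Complex.norm_natCast] at h2
    have h3 := h2.trans (mean_dir H h0 g0 h1 he hr0 hr1)
    have h4 := mul_le_mul_of_nonneg_left h3 (inv_nonneg.2 hm0.le)
    refine le_trans (le_of_eq ?_) (h4.trans (le_of_eq ?_))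
    · field_simp
    · rw [← hm]
      field_simp
  obtain ⟨k1, k2⟩ := num_both hn (by positivity) key
  rw [div_le_iff₀ hm0] at k1 k2
  exact ⟨by linarith, by linarith⟩

end

end IM66
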